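import Pool.Agent.H2.K5.Later

/-!
# CRITL: sums over all times; the union bound

`hsum_eq`: induction on `l`. `Ex_crit`: by `hsum_eq` and `Ex_sum` treat every time `i` separately; by
`Ex_tower` with `t = (t - i) + i`, `Ex t [] (fun l => ... (l.drop i) ...)
= Ex (t - i) [] (fun h => Ex i h (fun l => ... h ...))` (for a list `l` which extends `h` by `i`
entries `l.drop i = h`); then `Ex_later'` and monotonicity.
-/

set_option autoImplicit false

namespace H2.K5

open Finset

variable {E : Type*} [Fintype E] [DecidableEq E]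

omit [Fintype E] [DecidableEq E] in
theorem hsum_eq (g : List E → ℝ) (l : List E) :
    hsum g l = ∑ i ∈ range (l.length + 1), g (l.drop i) := by
  induction l with
  | nil => simp [hsum]
  | cons e l ih =>
    rw [hsum, ih, List.length_cons, sum_range_succ' _ (l.length + 1)]
    simp only [List.drop_succ_cons, List.drop_zero]
    ring

omit [Fintype E] [DecidableEq E] in
theorem hsum_le {g g' : List E → ℝ} (l : List E) (H : ∀ h, h <:+ l → g h ≤ g' h) :
    hsum g l ≤ hsum g' l := by
  induction l with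
  | nil => exact H [] List.suffix_rfl
  | cons e l ih =>
    rw [hsum, hsum]
    exact add_le_add (H _ List.suffix_rfl)
      (ih fun h hh => H h (hh.trans (List.suffix_cons e l)))

omit [Fintype E] [DecidableEq E] in
theorem critl_nonneg {g : List E → ℝ} (hg : ∀ h, 0 ≤ g h) (l : List E) : 0 ≤ hsum g l := by
  induction l with
  | nil => exact hg []
  | cons e l ih =>
    rw [hsum]
    exact add_nonneg (hg _) ih

omit [Fintype E] [DecidableEq E] in
theorem le_hsum {g : List E → ℝ} (hg : ∀ h, 0 ≤ g h) {h l : List E} (hl : h <:+ l) :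
    g h ≤ hsum g l := by
  induction l with
  | nil =>
    rw [List.suffix_nil.1 hl]
    exact le_rfl
  | cons e l ih =>
    rw [hsum]
    rcases List.suffix_cons_iff.1 hl with h1 | h1
    · rw [h1]
      linarith [critl_nonneg hg l]
    · linarith [ih h1, hg (e :: l)]

omit [Fintype E] [DecidableEq E] in
theorem hsum_sum {ι : Type*} (C : Finset ι) (g : ι → List E → ℝ) (l : List E) :
    hsum (fun h => ∑ c ∈ C, g c h) l = ∑ c ∈ C, hsum (g c) l := by
  induction l with
  | nil => rfl
  | cons e l ih =>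
    rw [hsum, ih, ← sum_add_distrib]
    rfl

omit [Fintype E] [DecidableEq E] in
theorem hsum_mul (c : ℝ) (g : List E → ℝ) (l : List E) :
    hsum (fun h => c * g h) l = c * hsum g l := by
  induction l with
  | nil => rfl
  | cons e l ih =>
    rw [hsum, hsum, ih]
    ring

omit [Fintype E] [DecidableEq E] in
theorem critl_drop {h l : List E} {j : ℕ} (hs : h <:+ l) (hlen : l.length = j + h.length) :
    l.drop j = h := by
  obtain ⟨p, rfl⟩ := hs
  rw [List.length_append] at hlen
  have hp : p.length = j := by omega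
  rw [← hp, List.drop_left]

/-- one time `j` -/
theorem critl_time {t j : ℕ} (hj : j ≤ t) (F : List E → List E → ℝ) :
    Ex t [] (fun l => F (l.drop j) l) = Ex (t - j) [] (fun h => Ex j h (fun l => F h l)) := by
  have h1 : t = (t - j) + j := by omega
  conv_lhs => rw [h1]
  rw [Ex_tower]
  refine Ex_congr List.nodup_nil fun h hn _ _ => ?_
  refine Ex_congr hn fun l _ hlen hsuf => ?_
  rw [critl_drop hsuf hlen]

theorem Ex_crit {ι : Type*} (C : Finset ι) {t : ℕ} (ht : t ≤ Fintype.card E)
    (a : ι → List E → ℝ) (ha : ∀ i h, 0 ≤ a i h) (R : ι → List E → Finset E)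
    (hR : ∀ i h, a i h ≠ 0 → ∀ e ∈ R i h, e ∉ h) :
    Ex t [] (fun l => hsum (fun h => ∑ i ∈ C, a i h * ind (R i h ⊆ l.toFinset)) l) ≤
      Ex t [] (fun l => hsum
        (fun h => ∑ i ∈ C, a i h * ((t : ℝ) / Fintype.card E) ^ #(R i h)) l) := by
  have h1 : Ex t [] (fun l => hsum (fun h => ∑ i ∈ C, a i h * ind (R i h ⊆ l.toFinset)) l) =
      ∑ j ∈ range (t + 1), Ex t [] (fun l : List E => ∑ i ∈ C, a i (l.drop j) *
        ind (R i (l.drop j) ⊆ l.toFinset)) := by
    rw [← Ex_sum]
    refine Ex_congr List.nodup_nil fun l _ hlen _ => ?_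
    rw [hsum_eq, hlen]
    rfl
  have h2 : Ex t [] (fun l => hsum
        (fun h => ∑ i ∈ C, a i h * ((t : ℝ) / Fintype.card E) ^ #(R i h)) l) =
      ∑ j ∈ range (t + 1), Ex t [] (fun l : List E => ∑ i ∈ C, a i (l.drop j) *
        ((t : ℝ) / Fintype.card E) ^ #(R i (l.drop j))) := by
    rw [← Ex_sum]
    refine Ex_congr List.nodup_nil fun l _ hlen _ => ?_
    rw [hsum_eq, hlen]
    rfl
  rw [h1, h2]
  refine sum_le_sum fun j hj => ?_
  have hj' : j ≤ t := by
    rw [mem_range] at hj
    omega
  rw [critl_time hj' (fun h l => ∑ i ∈ C, a i h * ind (R i h ⊆ l.toFinset)),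
    critl_time hj' (fun h _ => ∑ i ∈ C, a i h * ((t : ℝ) / Fintype.card E) ^ #(R i h))]
  refine Ex_le List.nodup_nil fun h hn hlen _ => ?_
  have hlen' : h.length = t - j := by simpa using hlen
  rw [Ex_sum, Ex_const hn (by rw [hlen']; omega)]
  refine sum_le_sum fun i _ => ?_
  rw [Ex_mul]
  by_cases h0 : a i h = 0
  · rw [h0, zero_mul, zero_mul]
  · exact mul_le_mul_of_nonneg_left
      (Ex_later' ht hn (by rw [hlen']; omega) (R i h) (hR i h h0)) (ha i h)

theorem union_bound {ι : Type*} (C : Finset ι) (R : ι → Finset E) {t : ℕ}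
    (ht : t ≤ Fintype.card E) (P : List E → Prop)
    (hP : ∀ l : List E, l.Nodup → l.length = t → P l → ∃ c ∈ C, R c ⊆ l.toFinset) :
    Ex t [] (fun l => ind (P l)) ≤ ∑ c ∈ C, ((t : ℝ) / Fintype.card E) ^ #(R c) := by
  have h1 : Ex t [] (fun l => ind (P l)) ≤
      Ex t [] (fun l : List E => ∑ c ∈ C, ind (R c ⊆ l.toFinset)) := by
    refine Ex_le List.nodup_nil fun l hn hlen _ => ?_
    by_cases hl : P l
    · obtain ⟨c, hc, hcl⟩ := hP l hn (by simpa using hlen) hl
      rw [ind_true hl, ← ind_true hcl]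
      exact single_le_sum (f := fun c => ind (R c ⊆ l.toFinset)) (fun c _ => ind_nonneg _) hc
    · rw [ind_false hl]
      exact sum_nonneg fun c _ => ind_nonneg _
  refine h1.trans ?_
  rw [Ex_sum]
  refine sum_le_sum fun c _ => ?_
  exact Ex_later' ht List.nodup_nil (by simp) (R c) (fun e _ => by simp)

end H2.K5
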