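import Pool.Agent.H2.K5.Ins
import Pool.Agent.H2.K5.Critl

/-!
# COD: no `K_5` contains a pair with many common neighbours

`union_bound` over `(v, i, j, S)`: `v` injective, `i ≠ j`, `#S = k`, `S` disjoint from the values of
`v`, with `R = prs v ∪ star (v i) S ∪ star (v j) S`, `#R = 10 + 2 k`; the sum is at most
`n^5 * 25 * n.choose k * q^(10+2k) = 25 (n q^2)^5 * n.choose k * (q^2)^k`; `choose_mul_le`.
(Of the `k + 3` common neighbours of `v i`, `v j` at least `k` are not values of `v`.)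
-/

set_option autoImplicit false

namespace H2.K5

open Finset

/-- the forced set of pairs -/
def cod_R {n : ℕ} (c : (Fin 5 → Fin n) × Fin 5 × Fin 5 × Finset (Fin n)) : Finset (Pair n) :=
  prs c.1 ∪ (star (c.1 c.2.1) c.2.2.2 ∪ star (c.1 c.2.2.1) c.2.2.2)

theorem cod_card {n : ℕ} (v : Fin 5 → Fin n) (hv : Function.Injective v) (i j : Fin 5) (hij : i ≠ j)
    (S : Finset (Fin n)) (hS : ∀ a, v a ∉ S) : #(cod_R (v, i, j, S)) = 10 + 2 * #S := by
  classical
  unfold cod_R
  have h1 : Disjoint (star (v i) S) (star (v j) S) := by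
    rw [Finset.disjoint_left]
    intro e he he'
    rw [ins_mem_star] at he he'
    obtain ⟨x, hx, hex⟩ := he
    obtain ⟨y, hy, hey⟩ := he'
    rw [hex, Sym2.eq_iff] at hey
    rcases hey with ⟨h, -⟩ | ⟨h, -⟩
    · exact hij (hv h)
    · exact hS i (h ▸ hy)
  have h2 : Disjoint (prs v) (star (v i) S ∪ star (v j) S) := by
    rw [Finset.disjoint_left]
    intro e he he'
    rw [est_mem_prs] at he
    obtain ⟨a, b, hab⟩ := he
    rw [mem_union, ins_mem_star, ins_mem_star] at he'
    have key : ∀ w : Fin n, ∀ x ∈ S, (e : Sym2 (Fin n)) ≠ s(w, x) := by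
      intro w x hx hw
      rw [hab, Sym2.eq_iff] at hw
      rcases hw with ⟨-, h⟩ | ⟨h, -⟩
      · exact hS b (h ▸ hx)
      · exact hS a (h ▸ hx)
    rcases he' with ⟨x, hx, h⟩ | ⟨x, hx, h⟩
    · exact key _ x hx h
    · exact key _ x hx h
  rw [card_union_of_disjoint h2, card_union_of_disjoint h1, card_prs hv, card_star (hS i), card_star (hS j)]
  have : Nat.choose 5 2 = 10 := by decide
  omega

theorem cod_prob {n t k : ℕ} (ht : t ≤ Fintype.card (Pair n)) {q : ℝ}
    (hq : q = t / Fintype.card (Pair n)) (hk : 9 * (n * q ^ 2) ≤ k) :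
    Ex t [] (fun l : List (Pair n) => ind (∃ v : Fin 5 → Fin n, Function.Injective v ∧
      prs v ⊆ l.toFinset ∧ ∃ i j, i ≠ j ∧ k + 3 ≤ codeg (gr l.toFinset) (v i) (v j))) ≤
      25 * (n * q ^ 2) ^ 5 * (1 / 3) ^ k := by
  classical
  have hq0 : 0 ≤ q := by rw [hq]; positivity
  set C : Finset ((Fin 5 → Fin n) × Fin 5 × Fin 5 × Finset (Fin n)) :=
    ((univ : Finset (Fin 5 → Fin n)) ×ˢ (univ : Finset (Fin 5)) ×ˢ (univ : Finset (Fin 5)) ×ˢ
      powersetCard k (univ : Finset (Fin n))).filter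
      (fun c => Function.Injective c.1 ∧ c.2.1 ≠ c.2.2.1 ∧ ∀ a, c.1 a ∉ c.2.2.2) with hC
  have hub := union_bound C cod_R ht (fun l : List (Pair n) => ∃ v : Fin 5 → Fin n, Function.Injective v ∧
      prs v ⊆ l.toFinset ∧ ∃ i j, i ≠ j ∧ k + 3 ≤ codeg (gr l.toFinset) (v i) (v j)) (by
    rintro l - - ⟨v, hv, hvl, i, j, hij, hk3⟩
    set N : Finset (Fin n) := univ.filter (fun z => (gr l.toFinset).Adj (v i) z ∧ (gr l.toFinset).Adj (v j) z) with hN
    have hcod : codeg (gr l.toFinset) (v i) (v j) = #N := by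
      unfold codeg
      rw [hN]
    rw [hcod] at hk3
    set T : Finset (Fin n) := (univ.erase i |>.erase j).image v with hT
    have hTc : #T ≤ 3 := by
      refine card_image_le.trans ?_
      rw [card_erase_of_mem (mem_erase.2 ⟨hij.symm, mem_univ _⟩), card_erase_of_mem (mem_univ _), card_univ,
        Fintype.card_fin]
    have hNT : k ≤ #(N \ T) := by
      have := le_card_sdiff T N
      omega
    obtain ⟨S, hSsub, hSc⟩ := exists_subset_card_eq hNT
    have hSN : ∀ x ∈ S, (gr l.toFinset).Adj (v i) x ∧ (gr l.toFinset).Adj (v j) x := by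
      intro x hx
      have := (mem_sdiff.1 (hSsub hx)).1
      rw [hN, mem_filter] at this
      exact this.2
    have hSv : ∀ a, v a ∉ S := by
      intro a ha
      by_cases hai : a = i
      · subst hai
        exact (gr l.toFinset).irrefl (hSN _ ha).1
      by_cases haj : a = j
      · subst haj
        exact (gr l.toFinset).irrefl (hSN _ ha).2
      · have := (mem_sdiff.1 (hSsub ha)).2
        apply this
        rw [hT, mem_image]
        exact ⟨a, mem_erase.2 ⟨haj, mem_erase.2 ⟨hai, mem_univ _⟩⟩, rfl⟩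
    refine ⟨(v, i, j, S), ?_, ?_⟩
    · rw [hC, mem_filter]
      refine ⟨?_, hv, hij, hSv⟩
      simp only [mem_product, mem_univ, true_and, mem_powersetCard]
      exact ⟨subset_univ _, hSc⟩
    · unfold cod_R
      refine union_subset hvl (union_subset ?_ ?_)
      · exact (star_subset_iff (hSv i) _).2 (fun x hx => (hSN x hx).1)
      · exact (star_subset_iff (hSv j) _).2 (fun x hx => (hSN x hx).2))
  refine hub.trans ?_
  have h1 : ∀ c ∈ C, ((t : ℝ) / Fintype.card (Pair n)) ^ #(cod_R c) = q ^ (10 + 2 * k) := by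
    rintro ⟨v, i, j, S⟩ hc
    rw [hC, mem_filter] at hc
    obtain ⟨hc1, hc2, hc3, hc4⟩ := hc
    simp only [mem_product, mem_univ, true_and, mem_powersetCard] at hc1
    rw [cod_card v hc2 i j hc3 S hc4, hc1.2, hq]
  rw [sum_congr rfl h1, sum_const, nsmul_eq_mul]
  have h2 : (#C : ℝ) ≤ (n : ℝ) ^ 5 * 25 * n.choose k := by
    have h3 : #C ≤ n ^ 5 * (5 * (5 * n.choose k)) := by
      refine (card_filter_le _ _).trans (le_of_eq ?_)
      rw [card_product, card_product, card_product, card_powersetCard, card_univ, card_univ, card_univ]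
      simp
    calc (#C : ℝ) ≤ ((n ^ 5 * (5 * (5 * n.choose k)) : ℕ) : ℝ) := by exact_mod_cast h3
      _ = (n : ℝ) ^ 5 * 25 * n.choose k := by push_cast; ring
  have h4 := choose_mul_le n k (x := q ^ 2) (by positivity) hk
  calc (#C : ℝ) * q ^ (10 + 2 * k) ≤ ((n : ℝ) ^ 5 * 25 * n.choose k) * q ^ (10 + 2 * k) :=
        mul_le_mul_of_nonneg_right h2 (by positivity)
    _ = 25 * (n * q ^ 2) ^ 5 * (n.choose k * (q ^ 2) ^ k) := by
        rw [pow_add, pow_mul]
        ring
    _ ≤ 25 * (n * q ^ 2) ^ 5 * (1 / 3) ^ k := mul_le_mul_of_nonneg_left h4 (by positivity)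

end H2.K5
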