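import Pool.Agent.H2.K5.Ins
import Pool.Agent.H2.K5.Critl

/-!
# CORE: no small dense set

If `Core` fails there is a nonempty `A`, `a = #A`, `a (s+1) ≤ 2b`, with at least `a (s+1)/2` edges
inside. Let `m = ⌈a (s+1)/2⌉`. `union_bound` over `(A, F)`, `F ⊆ inside A`, `#F = m`, `R = F`: the sum
is at most `∑_a n.choose a * (a.choose 2).choose m * q^m ≤ ∑_a n^a (e a^2 q/(2m))^m
≤ ∑_a n^a (e a q/(s+1))^m`, and `a q/(s+1) ≤ 2 b q/(s+1)^2 ≤ 2 b q (q^4 n) ≤ 1/16`, so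
`(e a q/(s+1))^m ≤ (1/4)^m ≤ (1/2)^(a (s+1))`. The sum is at most `∑_{a ≥ 1} x^a`, `x = n 2^(-(s+1))`,
and `s + 1 ≥ 1/(q^2 √n) ≥ n^(1/4)/16` since `q^2 ≤ 16 n^(-3/4)`. For small `n` use that the
expectation is at most `1`.
-/

set_option autoImplicit false

namespace H2.K5

open Finset

/-- one set `A` of size `a`, `m = ⌈a (s+1)/2⌉` -/
theorem core_term {a s b : ℕ} {q x : ℝ} (ha : 1 ≤ a) (hab : a * (s + 1) ≤ 2 * b) (hq : 0 ≤ q)
    (h3 : 1 ≤ ((s : ℝ) + 1) ^ 2 * x) (h4 : 32 * b * q * x ≤ 1) :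
    (((a.choose 2).choose ((a * (s + 1) + 1) / 2) : ℕ) : ℝ) * q ^ ((a * (s + 1) + 1) / 2) ≤
      (1 / 2) ^ (a * (s + 1)) := by
  set m := (a * (s + 1) + 1) / 2 with hm
  have hk : 1 ≤ a * (s + 1) := Nat.one_le_iff_ne_zero.2 (by positivity)
  have hm1 : 1 ≤ m := by omega
  have hm2 : a * (s + 1) ≤ 2 * m := by omega
  have hm0 : (0 : ℝ) < m := by exact_mod_cast hm1
  have hs0 : (0 : ℝ) < (s : ℝ) + 1 := by positivity
  have ha0 : (0 : ℝ) < a := by exact_mod_cast ha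
  have hm2' : (a : ℝ) * (s + 1) ≤ 2 * m := by exact_mod_cast hm2
  have hab' : (a : ℝ) * (s + 1) ≤ 2 * b := by exact_mod_cast hab
  have hx0 : 0 < x := by
    by_contra hx
    push Not at hx
    nlinarith [sq_nonneg ((s : ℝ) + 1)]
  have hch : ((a.choose 2 : ℕ) : ℝ) ≤ a ^ 2 / 2 := by
    rw [Nat.cast_choose_two]
    nlinarith
  have h1 := choose_le_exp (a.choose 2) m hm1
  have h2 : (((a.choose 2).choose m : ℕ) : ℝ) * q ^ m ≤
      (Real.exp 1 * (a.choose 2 : ℕ) / m) ^ m * q ^ m :=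
    mul_le_mul_of_nonneg_right h1 (by positivity)
  refine h2.trans ?_
  rw [← mul_pow]
  have he : Real.exp 1 < 3 := by linarith [Real.exp_one_lt_d9]
  have he0 : 0 < Real.exp 1 := Real.exp_pos 1
  -- the basis is at most 1/4
  have h5 : (a : ℝ) * q / (s + 1) ≤ 1 / 16 := by
    rw [div_le_iff₀ hs0]
    -- a q (s+1) * (s+1)... 
    have e1 : (a : ℝ) * q * (s + 1) ≤ 2 * b * q := by nlinarith
    have e2 : 2 * b * q * x ≤ 1 / 16 := by linarith
    have e3 : (a : ℝ) * q * (s + 1) * x ≤ 1 / 16 := by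
      have := mul_le_mul_of_nonneg_right e1 hx0.le
      linarith
    have e4 : (a : ℝ) * q ≤ a * q * (((s : ℝ) + 1) ^ 2 * x) := by
      have : 0 ≤ (a : ℝ) * q := by positivity
      nlinarith
    nlinarith
  have h6 : Real.exp 1 * ((a.choose 2 : ℕ) : ℝ) / m * q ≤ 1 / 4 := by
    have e1 : Real.exp 1 * ((a.choose 2 : ℕ) : ℝ) / m * q ≤
        Real.exp 1 * (a * q / (s + 1)) := by
      have e2 : ((a.choose 2 : ℕ) : ℝ) / m ≤ a / (s + 1) := by
        rw [div_le_div_iff₀ hm0 hs0]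
        nlinarith
      calc Real.exp 1 * ((a.choose 2 : ℕ) : ℝ) / m * q
          = Real.exp 1 * q * (((a.choose 2 : ℕ) : ℝ) / m) := by ring
        _ ≤ Real.exp 1 * q * (a / (s + 1)) :=
            mul_le_mul_of_nonneg_left e2 (by positivity)
        _ = _ := by ring
    have e3 : 0 ≤ (a : ℝ) * q / (s + 1) := by positivity
    nlinarith
  have h7 : 0 ≤ Real.exp 1 * ((a.choose 2 : ℕ) : ℝ) / m * q := by positivity
  calc (Real.exp 1 * ((a.choose 2 : ℕ) : ℝ) / m * q) ^ m ≤ (1 / 4 : ℝ) ^ m :=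
        pow_le_pow_left₀ h7 h6 m
    _ = (1 / 2 : ℝ) ^ (2 * m) := by rw [pow_mul]; norm_num
    _ ≤ (1 / 2 : ℝ) ^ (a * (s + 1)) :=
        pow_le_pow_of_le_one (by norm_num) (by norm_num) hm2

/-- the union bound -/
theorem core_union {n t s b : ℕ} (ht : t ≤ Fintype.card (Pair n)) {q x : ℝ}
    (hq : q = t / Fintype.card (Pair n)) (h3 : 1 ≤ ((s : ℝ) + 1) ^ 2 * x)
    (h4 : 32 * b * q * x ≤ 1) :
    Ex t [] (fun l : List (Pair n) => ind (¬ Core (gr l.toFinset) s b)) ≤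
      (1 + (1 / 2 : ℝ) ^ (s + 1)) ^ n - 1 := by
  classical
  have hq0 : 0 ≤ q := by rw [hq]; positivity
  have h := union_bound (E := Pair n)
    ((univ.filter (fun A : Finset (Fin n) => A.Nonempty ∧ #A * (s + 1) ≤ 2 * b)).sigma
      (fun A => (inside A).powersetCard ((#A * (s + 1) + 1) / 2)))
    (fun c => c.2) ht (fun l => ¬ Core (gr l.toFinset) s b) ?_
  · refine h.trans ?_
    rw [sum_sigma, ← hq]
    have h5 : ∀ A ∈ univ.filter (fun A : Finset (Fin n) => A.Nonempty ∧ #A * (s + 1) ≤ 2 * b),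
        ∑ F ∈ (inside A).powersetCard ((#A * (s + 1) + 1) / 2), q ^ #F ≤
          ((1 / 2 : ℝ) ^ (s + 1)) ^ #A := by
      intro A hA
      rw [mem_filter] at hA
      have h6 : ∀ F ∈ (inside A).powersetCard ((#A * (s + 1) + 1) / 2),
          q ^ #F = q ^ ((#A * (s + 1) + 1) / 2) := by
        intro F hF
        rw [(mem_powersetCard.1 hF).2]
      rw [sum_congr rfl h6, sum_const, card_powersetCard, card_inside, nsmul_eq_mul,
        ← pow_mul, mul_comm (s + 1)]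
      exact core_term hA.2.1.card_pos hA.2.2 hq0 h3 h4
    refine (sum_le_sum h5).trans ?_
    have h7 : ∑ A : Finset (Fin n), ((1 / 2 : ℝ) ^ (s + 1)) ^ #A =
        (1 + (1 / 2 : ℝ) ^ (s + 1)) ^ n := by
      have := Finset.sum_pow_mul_eq_add_pow ((1 / 2 : ℝ) ^ (s + 1)) 1 (univ : Finset (Fin n))
      simp only [one_pow, mul_one, powerset_univ, card_univ, Fintype.card_fin] at this
      rw [this, add_comm]
    rw [← h7, ← Finset.sum_erase_add _ _ (mem_univ (∅ : Finset (Fin n))), card_empty, pow_zero,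
      add_sub_cancel_right]
    refine sum_le_sum_of_subset_of_nonneg ?_ (fun A _ _ => by positivity)
    intro A hA
    rw [mem_filter] at hA
    rw [mem_erase]
    exact ⟨hA.2.1.ne_empty, mem_univ _⟩
  · intro l hn hlen hl
    unfold Core at hl
    push Not at hl
    obtain ⟨A, hA, hA2, hA3⟩ := hl
    rw [epairs_gr_inside] at hA3
    have h8 : (#A * (s + 1) + 1) / 2 ≤ #(l.toFinset ∩ inside A) := by omega
    obtain ⟨F, hF1, hF2⟩ := exists_subset_card_eq h8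
    refine ⟨⟨A, F⟩, ?_, hF1.trans inter_subset_left⟩
    rw [mem_sigma, mem_filter, mem_powersetCard]
    exact ⟨⟨mem_univ _, hA, hA2⟩, hF1.trans inter_subset_right, hF2⟩

theorem core_exp (k : ℕ) : ((k : ℝ)) ^ 6 * (1 / 2) ^ k ≤ 46080 := by
  have h1 : ((k : ℝ) * Real.log 2) ^ 6 / (Nat.factorial 6 : ℝ) ≤ Real.exp (k * Real.log 2) :=
    Real.pow_div_factorial_le_exp _ (by positivity) _
  have h2 : Real.exp (k * Real.log 2) = 2 ^ k := by
    rw [Real.exp_nat_mul, Real.exp_log (by norm_num)]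
  have h3 : (1 / 2 : ℝ) ≤ Real.log 2 := by linarith [Real.log_two_gt_d9]
  have h4 : (k : ℝ) ^ 6 * (1 / 2) ^ 6 ≤ ((k : ℝ) * Real.log 2) ^ 6 := by
    rw [← mul_pow]
    exact pow_le_pow_left₀ (by positivity) (mul_le_mul_of_nonneg_left h3 (by positivity)) _
  rw [h2] at h1
  have h5 : ((Nat.factorial 6 : ℕ) : ℝ) = 720 := by norm_num [Nat.factorial]
  rw [h5, div_le_iff₀ (by norm_num)] at h1
  have h6 : (k : ℝ) ^ 6 ≤ 46080 * 2 ^ k := by
    have := h4.trans h1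
    norm_num at this
    linarith
  calc ((k : ℝ)) ^ 6 * (1 / 2) ^ k ≤ 46080 * 2 ^ k * (1 / 2) ^ k :=
        mul_le_mul_of_nonneg_right h6 (by positivity)
    _ = 46080 := by
        rw [mul_assoc, ← mul_pow]
        norm_num

theorem core_prob : ∃ C : ℝ, 0 < C ∧ ∀ n t s b : ℕ, 2 ≤ n → t ≤ Fintype.card (Pair n) →
    ∀ q : ℝ, q = t / Fintype.card (Pair n) → 1 ≤ n * q ^ 2 → q ^ 8 * n ^ 3 ≤ 65536 →
    1 ≤ ((s : ℝ) + 1) ^ 2 * q ^ 4 * n → 32 * b * n * q ^ 5 ≤ 1 →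
    Ex t [] (fun l : List (Pair n) => ind (¬ Core (gr l.toFinset) s b)) ≤ C / Real.sqrt n := by
  refine ⟨2 * (2 ^ 24 * 46080), by norm_num, ?_⟩
  intro n t s b hn ht q hq h1 h2 h3 h4
  have hn0 : (0 : ℝ) < n := by
    have : 0 < n := by omega
    exact_mod_cast this
  have hsq : 0 < Real.sqrt n := Real.sqrt_pos.2 hn0
  have hss : Real.sqrt n * Real.sqrt n = n := Real.mul_self_sqrt hn0.le
  have hU := core_union (s := s) (b := b) ht (x := q ^ 4 * n) hq (by linarith) (by linarith)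
  have hone : Ex t [] (fun l : List (Pair n) => ind (¬ Core (gr l.toFinset) s b)) ≤ 1 := by
    have := Ex_le (E := Pair n) (s := t) List.nodup_nil
      (F := fun l : List (Pair n) => ind (¬ Core (gr l.toFinset) s b)) (G := fun _ => (1 : ℝ))
      (fun l _ _ _ => ind_le_one _)
    rwa [Ex_const List.nodup_nil (by simpa using ht)] at this
  set y : ℝ := (1 / 2 : ℝ) ^ (s + 1) with hy
  have hy0 : 0 < y := by positivity
  set k : ℝ := (s : ℝ) + 1 with hk
  have hk0 : 0 < k := by positivity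
  -- `n ≤ 65536 (s+1)^4`
  have hnk : (n : ℝ) ≤ 65536 * k ^ 4 := by
    have e1 : 1 ≤ (k ^ 2 * q ^ 4 * n) ^ 2 := one_le_pow₀ h3
    have e2 : (k ^ 2 * q ^ 4 * n) ^ 2 * n = k ^ 4 * (q ^ 8 * n ^ 3) := by ring
    have e3 : (n : ℝ) ≤ (k ^ 2 * q ^ 4 * n) ^ 2 * n := by nlinarith
    rw [e2] at e3
    have e4 : k ^ 4 * (q ^ 8 * n ^ 3) ≤ k ^ 4 * 65536 :=
      mul_le_mul_of_nonneg_left h2 (by positivity)
    linarith
  have hsk : Real.sqrt n ≤ 256 * k ^ 2 := by
    rw [Real.sqrt_le_left (by positivity)]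
    nlinarith
  have hny : n * y * Real.sqrt n ≤ 2 ^ 24 * 46080 := by
    have e1 : (n : ℝ) * Real.sqrt n ≤ 2 ^ 24 * k ^ 6 := by
      calc (n : ℝ) * Real.sqrt n ≤ (65536 * k ^ 4) * (256 * k ^ 2) :=
            mul_le_mul hnk hsk hsq.le (by positivity)
        _ = 2 ^ 24 * k ^ 6 := by ring
    have e2 : k ^ 6 * y ≤ 46080 := by
      have := core_exp (s + 1)
      push_cast at this
      exact this
    calc n * y * Real.sqrt n = (n : ℝ) * Real.sqrt n * y := by ring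
      _ ≤ 2 ^ 24 * k ^ 6 * y := mul_le_mul_of_nonneg_right e1 hy0.le
      _ = 2 ^ 24 * (k ^ 6 * y) := by ring
      _ ≤ 2 ^ 24 * 46080 := mul_le_mul_of_nonneg_left e2 (by norm_num)
  rw [le_div_iff₀ hsq]
  rcases le_or_gt (n * y) 1 with hc | hc
  · have e1 : (1 + y) ^ n - 1 ≤ 2 * (n * y) := by
      have e2 : (1 + y) ^ n ≤ Real.exp (n * y) := by
        rw [Real.exp_nat_mul]
        exact pow_le_pow_left₀ (by positivity) (by linarith [Real.add_one_le_exp y]) n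
      have e3 : |Real.exp (n * y) - 1 - n * y| ≤ (n * y) ^ 2 :=
        Real.abs_exp_sub_one_sub_id_le (by
          rw [abs_of_nonneg (by positivity)]
          exact hc)
      have e4 := (abs_le.1 e3).2
      have e5 : (n * y) ^ 2 ≤ n * y := by
        have : 0 ≤ (n : ℝ) * y := by positivity
        nlinarith
      linarith
    have e6 := hU.trans e1
    calc _ ≤ 2 * (n * y) * Real.sqrt n := mul_le_mul_of_nonneg_right e6 hsq.le
      _ = 2 * (n * y * Real.sqrt n) := by ring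
      _ ≤ _ := by linarith
  · have e1 : Real.sqrt n ≤ n * y * Real.sqrt n := by nlinarith
    calc _ ≤ 1 * Real.sqrt n := mul_le_mul_of_nonneg_right hone hsq.le
      _ ≤ _ := by linarith

end H2.K5
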