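import Pool.Agent.H2.K5.Ins

/-!
# DCOUNT: static counts

The number of ordered adjacent pairs is `2 #Bs` (`epairs_gr`), the number of non-isolated vertices is
at most `2 #Bs`.  `count_two`: `v` is determined by `four v` and `v 4`.
-/

set_option autoImplicit false

namespace H2.K5

open Finset

theorem dcount_sum {α : Type} [Fintype α] (P : α → Prop) [DecidablePred P] :
    ∑ v : α, ind (P v) = (#(univ.filter P) : ℝ) := by
  rw [card_filter]
  push_cast
  refine sum_congr rfl fun v _ => ?_
  unfold ind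
  by_cases h : P v
  · simp [h]
  · simp [h]

open Classical in
/-- ordered adjacent pairs -/
noncomputable def dcountA {n : ℕ} (Bs : Finset (Pair n)) : Finset (Fin n × Fin n) :=
  univ.filter (fun p => (gr Bs).Adj p.1 p.2)

open Classical in
/-- non-isolated vertices -/
noncomputable def dcountN {n : ℕ} (Bs : Finset (Pair n)) : Finset (Fin n) :=
  univ.filter (fun x => ∃ y, (gr Bs).Adj x y)

theorem dcount_A {n : ℕ} (Bs : Finset (Pair n)) : #(dcountA Bs) = 2 * #Bs := by
  classical
  have h1 := epairs_gr_inside Bs univ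
  have h2 : Bs ∩ inside (univ : Finset (Fin n)) = Bs := by
    ext e
    rw [mem_inter, ins_mem]
    simp
  rw [h2] at h1
  rw [← h1]
  unfold epairs dcountA
  congr 1

theorem dcount_N {n : ℕ} (Bs : Finset (Pair n)) : #(dcountN Bs) ≤ 2 * #Bs := by
  classical
  rw [← dcount_A]
  have h : dcountN Bs ⊆ (dcountA Bs).image Prod.fst := by
    intro x hx
    simp only [dcountN, mem_filter, mem_univ, true_and] at hx
    obtain ⟨y, hy⟩ := hx
    rw [mem_image]
    refine ⟨(x, y), ?_, rfl⟩
    simp only [dcountA, mem_filter, mem_univ, true_and]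
    exact hy
  exact (card_le_card h).trans card_image_le

theorem dcount_memA {n : ℕ} {Bs : Finset (Pair n)} {x y : Fin n} (h : (gr Bs).Adj x y) :
    (x, y) ∈ dcountA Bs := by
  simp only [dcountA, mem_filter, mem_univ, true_and]
  exact h

theorem dcount_memN {n : ℕ} {Bs : Finset (Pair n)} {x y : Fin n} (h : (gr Bs).Adj x y) :
    x ∈ dcountN Bs := by
  simp only [dcountN, mem_filter, mem_univ, true_and]
  exact ⟨y, h⟩

theorem count_one {n : ℕ} (Bs : Finset (Pair n)) :
    ∑ v : Fin 5 → Fin n, ind (Function.Injective v ∧ Cov (gr Bs) v) ≤ 8 * (#Bs : ℝ) ^ 3 := by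
  classical
  rw [dcount_sum]
  have h1 : #(univ.filter (fun v : Fin 5 → Fin n => Function.Injective v ∧ Cov (gr Bs) v)) ≤
      #((dcountA Bs) ×ˢ (dcountA Bs) ×ˢ (dcountN Bs)) := by
    apply card_le_card_of_injOn (fun v => ((v 0, v 1), (v 2, v 3), v 4))
    · intro v hv
      have hv' := (mem_filter.1 (mem_coe.1 hv)).2
      obtain ⟨-, h1, h2, j, h3⟩ := hv'
      simp only [coe_product, Set.mem_prod, mem_coe]
      exact ⟨dcount_memA h1, dcount_memA h2, dcount_memN h3⟩
    · intro v _ w _ hvw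
      simp only [Prod.mk.injEq] at hvw
      obtain ⟨⟨h0, h1⟩, ⟨h2, h3⟩, h4⟩ := hvw
      funext i
      fin_cases i
      · exact h0
      · exact h1
      · exact h2
      · exact h3
      · exact h4
  rw [card_product, card_product, dcount_A] at h1
  have h2 : (#(univ.filter (fun v : Fin 5 → Fin n => Function.Injective v ∧ Cov (gr Bs) v)) : ℝ) ≤
      (2 * #Bs) * ((2 * #Bs) * (2 * #Bs)) := by
    exact_mod_cast h1.trans (Nat.mul_le_mul_left _ (Nat.mul_le_mul_left _ (dcount_N Bs)))
  refine h2.trans (le_of_eq ?_)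
  ring

theorem count_two {n : ℕ} (m : ℕ) (Bs : Finset (Pair n)) :
    ∑ v : Fin 5 → Fin n, ind (Function.Injective v ∧ m ≤ #(prs (four v) ∩ Bs) ∧
      ∃ j, (gr Bs).Adj (v 4) (v j)) ≤ 2 * (#Bs : ℝ) * Z m Bs := by
  classical
  unfold Z
  rw [dcount_sum, dcount_sum]
  have h1 : #(univ.filter (fun v : Fin 5 → Fin n => Function.Injective v ∧
      m ≤ #(prs (four v) ∩ Bs) ∧ ∃ j, (gr Bs).Adj (v 4) (v j))) ≤
      #((dcountN Bs) ×ˢ (univ.filter (fun w : Fin 4 → Fin n => Function.Injective w ∧
        m ≤ #(prs w ∩ Bs)))) := by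
    apply card_le_card_of_injOn (fun v => (v 4, four v))
    · intro v hv
      have hv' := (mem_filter.1 (mem_coe.1 hv)).2
      obtain ⟨h1, h2, j, h3⟩ := hv'
      simp only [coe_product, Set.mem_prod, mem_coe, mem_filter, mem_univ, true_and]
      refine ⟨dcount_memN h3, ?_, h2⟩
      intro a b hab
      exact Fin.castSucc_injective _ (h1 hab)
    · intro v _ w _ hvw
      simp only [Prod.mk.injEq] at hvw
      obtain ⟨h4, h5⟩ := hvw
      funext i
      refine Fin.lastCases h4 (fun j => ?_) i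
      exact congrFun h5 j
  rw [card_product] at h1
  have h2 := h1.trans (Nat.mul_le_mul_right _ (dcount_N Bs))
  exact_mod_cast h2

theorem count_four {n : ℕ} (Bs : Finset (Pair n)) :
    ∑ w : Fin 4 → Fin n, ind (Function.Injective w ∧ (gr Bs).Adj (w 0) (w 1) ∧
      (gr Bs).Adj (w 2) (w 3)) ≤ 4 * (#Bs : ℝ) ^ 2 := by
  classical
  rw [dcount_sum]
  have h1 : #(univ.filter (fun w : Fin 4 → Fin n => Function.Injective w ∧
      (gr Bs).Adj (w 0) (w 1) ∧ (gr Bs).Adj (w 2) (w 3))) ≤
      #((dcountA Bs) ×ˢ (dcountA Bs)) := by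
    apply card_le_card_of_injOn (fun v => ((v 0, v 1), (v 2, v 3)))
    · intro v hv
      have hv' := (mem_filter.1 (mem_coe.1 hv)).2
      obtain ⟨-, h1, h2⟩ := hv'
      simp only [coe_product, Set.mem_prod, mem_coe]
      exact ⟨dcount_memA h1, dcount_memA h2⟩
    · intro v _ w _ hvw
      simp only [Prod.mk.injEq] at hvw
      obtain ⟨⟨h0, h1⟩, ⟨h2, h3⟩⟩ := hvw
      funext i
      fin_cases i
      · exact h0
      · exact h1
      · exact h2
      · exact h3
  rw [card_product, dcount_A] at h1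
  have h2 : (#(univ.filter (fun w : Fin 4 → Fin n => Function.Injective w ∧
      (gr Bs).Adj (w 0) (w 1) ∧ (gr Bs).Adj (w 2) (w 3))) : ℝ) ≤ (2 * #Bs) * (2 * #Bs) := by
    exact_mod_cast h1
  refine h2.trans (le_of_eq ?_)
  ring

theorem count_edge {n : ℕ} (Bs : Finset (Pair n)) :
    ∑ v : Fin 5 → Fin n, ind (Function.Injective v ∧ (gr Bs).Adj (v 0) (v 1)) ≤
      2 * (#Bs : ℝ) * n ^ 3 := by
  classical
  rw [dcount_sum]
  have h1 : #(univ.filter (fun v : Fin 5 → Fin n => Function.Injective v ∧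
      (gr Bs).Adj (v 0) (v 1))) ≤
      #((dcountA Bs) ×ˢ (univ : Finset (Fin n × Fin n × Fin n))) := by
    apply card_le_card_of_injOn (fun v => ((v 0, v 1), (v 2, v 3, v 4)))
    · intro v hv
      have hv' := (mem_filter.1 (mem_coe.1 hv)).2
      simp only [coe_product, Set.mem_prod, mem_coe, mem_univ, and_true]
      exact dcount_memA hv'.2
    · intro v _ w _ hvw
      simp only [Prod.mk.injEq] at hvw
      obtain ⟨⟨h0, h1⟩, ⟨h2, h3, h4⟩⟩ := hvw
      funext i
      fin_cases i
      · exact h0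
      · exact h1
      · exact h2
      · exact h3
      · exact h4
  rw [card_product, dcount_A, card_univ, Fintype.card_prod, Fintype.card_prod,
    Fintype.card_fin] at h1
  have h2 : (#(univ.filter (fun v : Fin 5 → Fin n => Function.Injective v ∧
      (gr Bs).Adj (v 0) (v 1))) : ℝ) ≤ (2 * #Bs) * (n * (n * n)) := by
    exact_mod_cast h1
  refine h2.trans (le_of_eq ?_)
  ring

end H2.K5
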