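import Pool.Agent.H2.K5.Critl

/-!
# RUN: runs and the moment of the `m`-th purchase

Everything by induction on the list.  `crit_sum`: the number `#(B h ∩ P)` starts with `0` and grows
by at most one in each step.  `crit_exists`: the first moment at which the number is `m`.
-/

set_option autoImplicit false

namespace H2.K5

open Finset

variable {E : Type*} [DecidableEq E]

theorem isRun_bought (S : Strategy E) : IsRun (bought S) := by
  refine ⟨rfl, fun e h => ?_⟩
  unfold bought
  rw [play, List.filter_cons]
  by_cases hd : S (play S h) e = true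
  · left
    simp only [hd, if_true, List.map_cons, List.toFinset_cons]
  · right
    simp only [hd]
    rfl

theorem IsRun.mono {B : List E → Finset E} (hB : IsRun B) {h l : List E} (hl : h <:+ l) :
    B h ⊆ B l := by
  induction l with
  | nil =>
    rw [List.suffix_nil.1 hl]
  | cons e l ih =>
    rcases List.suffix_cons_iff.1 hl with h1 | h1
    · rw [h1]
    · refine (ih h1).trans ?_
      rcases hB.cons e l with h2 | h2
      · rw [h2]
        exact subset_insert _ _
      · rw [h2]

theorem IsRun.mem {B : List E → Finset E} (hB : IsRun B) {l : List E} {e : E} (he : e ∈ B l) :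
    e ∈ l := by
  induction l with
  | nil =>
    rw [hB.nil] at he
    exact absurd he (notMem_empty e)
  | cons a l ih =>
    rcases hB.cons a l with h2 | h2
    · rw [h2, mem_insert] at he
      rcases he with h3 | h3
      · rw [h3]
        exact List.mem_cons_self
      · exact List.mem_cons_of_mem _ (ih h3)
    · rw [h2] at he
      exact List.mem_cons_of_mem _ (ih he)

theorem IsRun.late {B : List E → Finset E} (hB : IsRun B) {h l : List E} (hn : l.Nodup)
    (hl : h <:+ l) {e : E} (he : e ∈ B l) (heh : e ∈ h) : e ∈ B h := by
  induction l with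
  | nil =>
    rw [List.suffix_nil.1 hl]
    exact he
  | cons a l ih =>
    rcases List.suffix_cons_iff.1 hl with h1 | h1
    · rw [h1]
      exact he
    · rw [List.nodup_cons] at hn
      refine ih hn.2 h1 ?_
      rcases hB.cons a l with h2 | h2
      · rw [h2, mem_insert] at he
        rcases he with h3 | h3
        · exfalso
          rw [h3] at heh
          exact hn.1 (h1.subset heh)
        · exact h3
      · rwa [h2] at he

theorem run_card_le {B : List E → Finset E} (hB : IsRun B) (P : Finset E) (e : E) (l : List E) :
    #(B (e :: l) ∩ P) ≤ #(B l ∩ P) + 1 := by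
  rcases hB.cons e l with h2 | h2
  · rw [h2]
    have h3 : insert e (B l) ∩ P ⊆ insert e (B l ∩ P) := by
      intro x hx
      rw [mem_inter, mem_insert] at hx
      rw [mem_insert, mem_inter]
      tauto
    exact (card_le_card h3).trans (card_insert_le _ _)
  · rw [h2]
    exact Nat.le_succ _

theorem crit_sum {B : List E → Finset E} (hB : IsRun B) (P : Finset E) {m : ℕ} (hm : 1 ≤ m)
    (l : List E) : hsum (fun h => ind (CritM B P m h)) l = ind (m ≤ #(B l ∩ P)) := by
  induction l with
  | nil =>
    have h0 : ¬ CritM B P m [] := fun h => h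
    rw [hsum, ind_false h0, ind_false]
    rw [hB.nil, empty_inter, card_empty]
    omega
  | cons e l ih =>
    rw [hsum, ih]
    have h1 := run_card_le hB P e l
    have h2 : #(B l ∩ P) ≤ #(B (e :: l) ∩ P) :=
      card_le_card (inter_subset_inter_right (hB.mono (List.suffix_cons e l)))
    by_cases h3 : m ≤ #(B l ∩ P)
    · rw [ind_true h3, ind_true (h3.trans h2), ind_false, zero_add]
      intro h4
      have := h4.2
      omega
    · rw [ind_false h3, add_zero]
      by_cases h4 : m ≤ #(B (e :: l) ∩ P)
      · rw [ind_true h4, ind_true]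
        exact ⟨by omega, by omega⟩
      · rw [ind_false h4, ind_false]
        intro h5
        have := h5.1
        omega

theorem crit_exists {B : List E → Finset E} (hB : IsRun B) {P : Finset E} {l : List E}
    (hn : l.Nodup) (hP : P ⊆ B l) {m : ℕ} (hm : 1 ≤ m) (hm' : m ≤ #P) :
    ∃ h, h <:+ l ∧ CritM B P m h ∧ #(B h ∩ P) = m ∧ #(P \ B h) = #P - m ∧
      (∀ e ∈ P \ B h, e ∉ h) ∧ P \ B h ⊆ l.toFinset := by
  have h1 := crit_sum hB P hm l
  rw [inter_eq_right.2 hP, ind_true hm'] at h1
  have h2 : ∃ h, h <:+ l ∧ CritM B P m h := by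
    by_contra hcon
    push Not at hcon
    have h3 : hsum (fun h => ind (CritM B P m h)) l ≤ hsum (fun _ => 0) l :=
      hsum_le l fun h hh => by rw [ind_false (hcon h hh)]
    have h4 : hsum (fun _ : List E => (0 : ℝ)) l = 0 := by
      rw [hsum_eq]
      simp
    rw [h1, h4] at h3
    linarith
  obtain ⟨h, hh, hc⟩ := h2
  have h5 : #(B h ∩ P) = m := by
    cases h with
    | nil => exact absurd hc (fun h' => h')
    | cons e h' => exact hc.1
  refine ⟨h, hh, hc, h5, ?_, ?_, ?_⟩
  · rw [card_sdiff, h5]
  · intro e he heh
    rw [mem_sdiff] at he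
    exact he.2 (hB.late hn hh (hP he.1) heh)
  · intro e he
    rw [mem_sdiff] at he
    exact List.mem_toFinset.2 (hB.mem (hP he.1))

/-- if a set of conditions `Q i` (monotone in the history) holds at the moment of the `m`-th
purchase, then the sum over all times is at most the indicator at the end -/
theorem crit_hsum_le {B : List E → Finset E} (hB : IsRun B) (P : Finset E) {m : ℕ} (hm : 1 ≤ m)
    (Q : List E → Prop) {l : List E} (hQ : ∀ h, h <:+ l → Q h → Q l) :
    hsum (fun h => ind (CritM B P m h ∧ Q h)) l ≤ ind (m ≤ #(B l ∩ P) ∧ Q l) := by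
  by_cases hl : Q l
  · refine (hsum_le (g' := fun h => ind (CritM B P m h)) l fun h _ =>
      ind_mono fun h' => h'.1).trans ?_
    rw [crit_sum hB P hm l]
    exact ind_mono fun h' => ⟨h', hl⟩
  · refine (hsum_le (g' := fun _ => 0) l fun h hh => ?_).trans ?_
    · rw [ind_false]
      exact fun h' => hl (hQ h hh h'.2)
    · have h4 : hsum (fun _ : List E => (0 : ℝ)) l = 0 := by
        rw [hsum_eq]
        simp
      rw [h4]
      exact ind_nonneg _

end H2.K5
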