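import Pool.Agent.H2.K5.Pat
import Pool.Agent.H2.K5.Run

/-!
# DEXIST: the critical moment of a `K_5` in the dense range

Take `v` with `prs v ⊆ B l` and the moment `h5` of the fifth purchase (`crit_exists`, `m = 5`). By
`pat_five` either (after a permutation of `v`, `prs_comp`) `Cov` holds: first alternative. Or (after
a permutation) the five edges lie on the first four entries. Then take the moment `h6` of the
sixth purchase: the new edge either contains `v 4` (second alternative: `B h5 ⊆ B h6`), or it is the sixth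
edge on the first four entries; then at the moment `h7` of the seventh purchase the new edge
contains `v 4`: third alternative.
-/

set_option autoImplicit false

namespace H2.K5

open Finset

theorem dexist_four_sub {n : ℕ} (v : Fin 5 → Fin n) : prs (four v) ⊆ prs v := by
  intro e he
  rw [est_mem_prs] at he ⊢
  obtain ⟨i, j, h⟩ := he
  exact ⟨i.castSucc, j.castSucc, h⟩

theorem dexist_last {n : ℕ} (v : Fin 5 → Fin n) {e : Pair n} (he : e ∈ prs v)
    (he' : e ∉ prs (four v)) : ∃ j, (e : Sym2 (Fin n)) = s(v 4, v j) := by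
  rw [est_mem_prs] at he
  obtain ⟨i, j, h⟩ := he
  have h4 : (Fin.last 4 : Fin 5) = 4 := rfl
  induction i using Fin.lastCases with
  | last =>
    rw [h4] at h
    exact ⟨j, h⟩
  | cast i =>
    induction j using Fin.lastCases with
    | last =>
      rw [h4] at h
      exact ⟨i.castSucc, by rw [h, Sym2.eq_swap]⟩
    | cast j =>
      exfalso
      apply he'
      rw [est_mem_prs]
      exact ⟨i, j, h⟩

theorem dexist_adj {n : ℕ} (v : Fin 5 → Fin n) (Bs : Finset (Pair n)) {e : Pair n}
    (he : e ∈ prs v) (he' : e ∉ prs (four v)) (hB : e ∈ Bs) :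
    ∃ j, (gr Bs).Adj (v 4) (v j) := by
  obtain ⟨j, hj⟩ := dexist_last v he he'
  refine ⟨j, ?_⟩
  rw [gr_adj]
  exact ⟨e, hB, hj⟩

theorem dexist_suffix {n : ℕ} {B : List (Pair n) → Finset (Pair n)} (hB : IsRun B)
    {l h h' : List (Pair n)} (hh : h <:+ l) (hh' : h' <:+ l) (P : Finset (Pair n))
    (hlt : #(B h ∩ P) < #(B h' ∩ P)) : B h ⊆ B h' := by
  rcases List.suffix_or_suffix_of_suffix hh hh' with h1 | h1
  · exact hB.mono h1
  · exfalso
    have h2 := card_le_card (inter_subset_inter_right (u := P) (hB.mono h1))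
    omega

theorem dense_exists {n : ℕ} {B : List (Pair n) → Finset (Pair n)} (hB : IsRun B)
    {l : List (Pair n)} (hl : l.Nodup) (hK : ¬ (gr (B l)).CliqueFree 5) :
    ∃ (h : List (Pair n)) (v : Fin 5 → Fin n), h <:+ l ∧ Function.Injective v ∧
      prs v \ B h ⊆ l.toFinset ∧ (∀ e ∈ prs v \ B h, e ∉ h) ∧
      ((CritM B (prs v) 5 h ∧ Cov (gr (B h)) v ∧ #(prs v \ B h) = 5) ∨
       (CritM B (prs v) 6 h ∧ 5 ≤ #(prs (four v) ∩ B h) ∧ (∃ j, (gr (B h)).Adj (v 4) (v j)) ∧
          #(prs v \ B h) = 4) ∨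
       (CritM B (prs v) 7 h ∧ 6 ≤ #(prs (four v) ∩ B h) ∧ (∃ j, (gr (B h)).Adj (v 4) (v j)) ∧
          #(prs v \ B h) = 3)) := by
  obtain ⟨v, hv, hvB⟩ := (not_cliqueFree_iff (B l)).1 hK
  have hc : #(prs v) = 10 := by rw [card_prs hv]; rfl
  obtain ⟨h5, hs5, hcr5, hn5, hd5, hno5, hsub5⟩ := crit_exists hB hl hvB (m := 5) (by norm_num)
    (by rw [hc]; norm_num)
  rcases pat_five (B h5) hv hn5 with ⟨π, hπ⟩ | ⟨π, hπ⟩
  · refine ⟨h5, v ∘ π, hs5, hv.comp π.injective, ?_, ?_, Or.inl ⟨?_, hπ, ?_⟩⟩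
    · rw [prs_comp]; exact hsub5
    · rw [prs_comp]; exact hno5
    · rw [prs_comp]; exact hcr5
    · rw [prs_comp, hd5, hc]
  · obtain ⟨w, hw⟩ : ∃ w : Fin 5 → Fin n, w = v ∘ π := ⟨_, rfl⟩
    rw [← hw] at hπ
    have hpw : prs w = prs v := by rw [hw, prs_comp]
    have hwi : Function.Injective w := by rw [hw]; exact hv.comp π.injective
    rw [← hpw] at hvB hc hcr5 hn5 hd5 hno5 hsub5
    have h4i : Function.Injective (four w) := by
      intro a b hab
      exact Fin.castSucc_injective 4 (hwi hab)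
    have hc4 : #(prs (four w)) = 6 := by rw [card_prs h4i]; rfl
    have hsub4 := dexist_four_sub w
    have heq5 : B h5 ∩ prs (four w) = B h5 ∩ prs w :=
      eq_of_subset_of_card_le (inter_subset_inter_left hsub4) (by rw [hπ, hn5])
    obtain ⟨h6, hs6, hcr6, hn6, hd6, hno6, hsub6⟩ := crit_exists hB hl hvB (m := 6) (by norm_num)
      (by rw [hc]; norm_num)
    have hB56 : B h5 ⊆ B h6 := dexist_suffix hB hs5 hs6 (prs w) (by rw [hn5, hn6]; norm_num)
    have hle6 : 5 ≤ #(prs (four w) ∩ B h6) := by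
      rw [inter_comm, ← hπ]
      exact card_le_card (inter_subset_inter_right hB56)
    by_cases hex : ∃ e ∈ B h6 ∩ prs w, e ∉ prs (four w)
    · obtain ⟨e, he, he'⟩ := hex
      rw [mem_inter] at he
      refine ⟨h6, w, hs6, hwi, hsub6, hno6, Or.inr (Or.inl ⟨hcr6, hle6, ?_, ?_⟩)⟩
      · exact dexist_adj w (B h6) he.2 he' he.1
      · rw [hd6, hc]
    · push Not at hex
      have h66 : #(B h6 ∩ prs (four w)) = 6 := by
        apply le_antisymm
        · rw [← hc4]
          exact card_le_card inter_subset_right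
        · rw [← hn6]
          refine card_le_card fun e he => ?_
          rw [mem_inter]
          exact ⟨(mem_inter.1 he).1, hex e he⟩
      obtain ⟨h7, hs7, hcr7, hn7, hd7, hno7, hsub7⟩ := crit_exists hB hl hvB (m := 7)
        (by norm_num) (by rw [hc]; norm_num)
      have hB67 : B h6 ⊆ B h7 := dexist_suffix hB hs6 hs7 (prs w) (by rw [hn6, hn7]; norm_num)
      have hle7 : 6 ≤ #(prs (four w) ∩ B h7) := by
        rw [inter_comm, ← h66]
        exact card_le_card (inter_subset_inter_right hB67)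
      have hex7 : ∃ e ∈ B h7 ∩ prs w, e ∉ prs (four w) := by
        by_contra hcon
        push Not at hcon
        have h8 : #(B h7 ∩ prs w) ≤ #(prs (four w)) := card_le_card fun e he => hcon e he
        omega
      obtain ⟨e, he, he'⟩ := hex7
      rw [mem_inter] at he
      refine ⟨h7, w, hs7, hwi, hsub7, hno7, Or.inr (Or.inr ⟨hcr7, hle7, ?_, ?_⟩)⟩
      · exact dexist_adj w (B h7) he.2 he' he.1
      · rw [hd7, hc]

end H2.K5
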