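import Pool.Agent.H2.K5.Pat
import Pool.Agent.H2.K5.Run
import Pool.Agent.H2.K5.DCount

/-!
# DFOUR: the expected number of 4-tuples with five or six purchased edges

For `w` injective with `m ≤ #(prs w ∩ B l)`, `m ∈ {5, 6}`: let `h` be the moment of the fourth purchase
in `prs w` (the argument of `crit_exists` with `m = 4`: first moment, `#(B h ∩ prs w) = 4`,
`#(prs w \ B h) = 2`). By `pat_four` (and `prs_comp`) `w ∘ π` satisfies `Adj 0 1` and `Adj 2 3` for some `π`.
At least one (`m = 5`), resp. both (`m = 6`) elements of `prs w \ B h` are in `B l`, hence offered after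
`h` (`IsRun.late`). So with
`a w h = ind (Injective w ∧ CritM B (prs w) 4 h ∧ Adj (w 0) (w 1) ∧ Adj (w 2) (w 3))`
`Z 5 (B l) ≤ 24 * hsum (fun h => ∑ w, ∑ e, a w h * ind (e ∈ prs w \ B h ∧ e ∉ h) * ind ({e} ⊆ l.toFinset)) l`
(`24` permutations: `∑ w, ∑ π, F (w ∘ π) = 24 ∑ w, F w`). `Ex_crit`, `crit_hsum_le`, `count_four`:
`E Z 5 ≤ 24 * 2 * q * 4 b^2 = 192 b^2 q`. Same for `Z 6` with `R = prs w \ B h`: `24 * q^2 * 4 b^2`.
-/

set_option autoImplicit false

namespace H2.K5

open Finset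

section

variable {n : ℕ}

/-- the weight of a 4-tuple at the moment `h` -/
noncomputable def dfour_a (B : List (Pair n) → Finset (Pair n)) (w : Fin 4 → Fin n)
    (h : List (Pair n)) : ℝ :=
  ind (CritM B (prs w) 4 h ∧ (Function.Injective w ∧ (gr (B h)).Adj (w 0) (w 1) ∧
    (gr (B h)).Adj (w 2) (w 3)))

/-- the weight of a 4-tuple with a set of `j` pairs missing at the moment `h` -/
noncomputable def dfour_b (B : List (Pair n) → Finset (Pair n)) (j : ℕ)
    (i : (Fin 4 → Fin n) × Finset (Pair n)) (h : List (Pair n)) : ℝ :=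
  dfour_a B i.1 h * ind (i.2 ⊆ prs i.1 \ B h ∧ #i.2 = j ∧ ∀ e ∈ i.2, e ∉ h)

theorem dfour_crit {B : List (Pair n) → Finset (Pair n)} (hB : IsRun B) {l h : List (Pair n)}
    (hh : h <:+ l) (P : Finset (Pair n)) (m : ℕ) (hc : CritM B (P ∩ B l) m h) :
    CritM B P m h := by
  cases h with
  | nil => exact hc
  | cons e h' =>
    have h1 : ∀ g, g <:+ l → B g ∩ (P ∩ B l) = B g ∩ P := by
      intro g hg
      have := hB.mono hg
      ext x
      simp only [mem_inter]
      constructor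
      · rintro ⟨a, b, c⟩
        exact ⟨a, b⟩
      · rintro ⟨a, b⟩
        exact ⟨a, b, this a⟩
    have h2 : h' <:+ l := (List.suffix_cons e h').trans hh
    have h3 : #(B (e :: h') ∩ (P ∩ B l)) = m ∧ #(B h' ∩ (P ∩ B l)) < m := hc
    rw [h1 _ hh, h1 _ h2] at h3
    exact h3

theorem dfour_crit_card {B : List (Pair n) → Finset (Pair n)} {P : Finset (Pair n)} {m : ℕ}
    {h : List (Pair n)} (hc : CritM B P m h) : #(B h ∩ P) = m := by
  cases h with
  | nil => exact absurd hc (fun h' => h')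
  | cons e h' => exact hc.1

/-- the pointwise bound -/
theorem dfour_point {B : List (Pair n) → Finset (Pair n)} (hB : IsRun B) {j : ℕ}
    {l : List (Pair n)} (hn : l.Nodup) (w : Fin 4 → Fin n) :
    ind (Function.Injective w ∧ 4 + j ≤ #(prs w ∩ B l)) ≤
      ∑ π : Equiv.Perm (Fin 4), hsum (fun h => ∑ R : Finset (Pair n),
        dfour_b B j (w ∘ π, R) h * ind (R ⊆ l.toFinset)) l := by
  have hb0 : ∀ i h, 0 ≤ dfour_b B j i h := fun i h =>
    mul_nonneg (ind_nonneg _) (ind_nonneg _)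
  have h00 : ∀ π : Equiv.Perm (Fin 4), ∀ h : List (Pair n), 0 ≤ ∑ R : Finset (Pair n),
      dfour_b B j (w ∘ π, R) h * ind (R ⊆ l.toFinset) := fun π h =>
    sum_nonneg fun R _ => mul_nonneg (hb0 _ _) (ind_nonneg _)
  have h0 : ∀ π : Equiv.Perm (Fin 4), 0 ≤ hsum (fun h => ∑ R : Finset (Pair n),
      dfour_b B j (w ∘ π, R) h * ind (R ⊆ l.toFinset)) l := fun π =>
    critl_nonneg (h00 π) l
  by_cases hw : Function.Injective w ∧ 4 + j ≤ #(prs w ∩ B l)
  · rw [ind_true hw]
    obtain ⟨hinj, hcard⟩ := hw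
    obtain ⟨h, hh, hc, h4, hsd, hnot, hsub⟩ := crit_exists hB hn
      (P := prs w ∩ B l) inter_subset_right (m := 4) (by norm_num) (by omega)
    have hcr := dfour_crit hB hh (prs w) 4 hc
    have h4' := dfour_crit_card hcr
    obtain ⟨π, hπ1, hπ2⟩ := pat_four (B h) hinj h4'
    obtain ⟨R, hR, hRj⟩ := exists_subset_card_eq (s := (prs w ∩ B l) \ B h) (n := j) (by omega)
    refine le_trans ?_ (single_le_sum (fun π _ => h0 π) (mem_univ π))
    refine le_trans ?_ (le_hsum (h00 π) hh)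
    refine le_trans ?_ (single_le_sum
      (f := fun R : Finset (Pair n) => dfour_b B j (w ∘ π, R) h * ind (R ⊆ l.toFinset))
      (fun R _ => mul_nonneg (hb0 _ _) (ind_nonneg _)) (mem_univ R))
    rw [ind_true (hR.trans hsub), mul_one]
    unfold dfour_b dfour_a
    simp only
    rw [prs_comp, ind_true, ind_true, mul_one]
    · refine ⟨fun e he => ?_, hRj, fun e he => hnot e (hR he)⟩
      have := hR he
      rw [mem_sdiff, mem_inter] at this
      exact mem_sdiff.2 ⟨this.1.1, this.2⟩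
    · exact ⟨hcr, hinj.comp π.injective, hπ1, hπ2⟩
  · rw [ind_false hw]
    exact sum_nonneg fun π _ => h0 π

/-- summation over the permutations -/
theorem dfour_perm (F : (Fin 4 → Fin n) → ℝ) :
    ∑ w : Fin 4 → Fin n, ∑ π : Equiv.Perm (Fin 4), F (w ∘ π) =
      24 * ∑ w : Fin 4 → Fin n, F w := by
  rw [sum_comm]
  have h1 : ∀ π : Equiv.Perm (Fin 4), ∑ w : Fin 4 → Fin n, F (w ∘ π) =
      ∑ w : Fin 4 → Fin n, F w := by
    intro π
    exact (Equiv.arrowCongr π.symm (Equiv.refl (Fin n))).sum_comp F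
  rw [sum_congr rfl fun π _ => h1 π, sum_const, card_univ, Fintype.card_perm, Fintype.card_fin]
  simp only [nsmul_eq_mul, Nat.factorial]
  norm_num

theorem dfour_Z {B : List (Pair n) → Finset (Pair n)} (hB : IsRun B) {j : ℕ}
    {l : List (Pair n)} (hn : l.Nodup) :
    Z (4 + j) (B l) ≤ 24 * hsum (fun h => ∑ i : (Fin 4 → Fin n) × Finset (Pair n),
      dfour_b B j i h * ind (i.2 ⊆ l.toFinset)) l := by
  unfold Z
  refine (sum_le_sum fun w _ => dfour_point hB (j := j) hn w).trans ?_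
  rw [dfour_perm (fun w => hsum (fun h => ∑ R : Finset (Pair n),
        dfour_b B j (w, R) h * ind (R ⊆ l.toFinset)) l), ← hsum_sum]
  refine le_of_eq ?_
  congr 2
  funext h
  rw [Fintype.sum_prod_type]

/-- the number of missing sets -/
theorem dfour_count (B : List (Pair n) → Finset (Pair n)) {j : ℕ} (hj : 1 ≤ j) (hj2 : j ≤ 2)
    (w : Fin 4 → Fin n) (h : List (Pair n)) :
    ∑ R : Finset (Pair n), dfour_b B j (w, R) h ≤ 2 * dfour_a B w h := by
  unfold dfour_b
  simp only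
  rw [← mul_sum]
  by_cases hw : CritM B (prs w) 4 h ∧ (Function.Injective w ∧ (gr (B h)).Adj (w 0) (w 1) ∧
    (gr (B h)).Adj (w 2) (w 3))
  · have h1 : dfour_a B w h = 1 := ind_true hw
    rw [h1, one_mul, mul_one]
    have h4 := dfour_crit_card hw.1
    have h6 : #(prs w) = 6 := by
      rw [card_prs hw.2.1]
      rfl
    have h2 : #(prs w \ B h) = 2 := by
      rw [card_sdiff, h4, h6]
    have h3 : ∀ R : Finset (Pair n), ind (R ⊆ prs w \ B h ∧ #R = j ∧ ∀ e ∈ R, e ∉ h) ≤
        if R ∈ powersetCard j (prs w \ B h) then 1 else 0 := by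
      intro R
      by_cases hR : R ∈ powersetCard j (prs w \ B h)
      · rw [if_pos hR]
        exact ind_le_one _
      · rw [if_neg hR, ind_false]
        rintro ⟨a, b, _⟩
        exact hR (mem_powersetCard.2 ⟨a, b⟩)
    refine (sum_le_sum fun R _ => h3 R).trans ?_
    rw [sum_boole, filter_mem_eq_inter, univ_inter, card_powersetCard, h2]
    interval_cases j
    · norm_num
    · norm_num
  · have h1 : dfour_a B w h = 0 := ind_false hw
    rw [h1, zero_mul, mul_zero]

theorem dfour_mono {B : List (Pair n) → Finset (Pair n)} (hB : IsRun B) {h l : List (Pair n)}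
    (hh : h <:+ l) {x y : Fin n} (ha : (gr (B h)).Adj x y) : (gr (B l)).Adj x y := by
  rw [gr_adj] at ha ⊢
  obtain ⟨e, he, hxy⟩ := ha
  exact ⟨e, hB.mono hh he, hxy⟩

theorem dfour_sum {B : List (Pair n) → Finset (Pair n)} (hB : IsRun B) (l : List (Pair n)) :
    hsum (fun h => ∑ w : Fin 4 → Fin n, dfour_a B w h) l ≤ 4 * (#(B l) : ℝ) ^ 2 := by
  rw [hsum_sum]
  refine le_trans (sum_le_sum fun w _ => ?_) (count_four (B l))
  unfold dfour_a
  refine (crit_hsum_le hB (prs w) (m := 4) (by norm_num)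
    (fun h => Function.Injective w ∧ (gr (B h)).Adj (w 0) (w 1) ∧ (gr (B h)).Adj (w 2) (w 3))
    (l := l) fun h hh hQ => ⟨hQ.1, dfour_mono hB hh hQ.2.1, dfour_mono hB hh hQ.2.2⟩).trans ?_
  exact ind_mono fun h' => h'.2

theorem dfour_main {t b : ℕ} (ht : t ≤ Fintype.card (Pair n)) {q : ℝ}
    (hq : q = t / Fintype.card (Pair n)) {B : List (Pair n) → Finset (Pair n)}
    (hB : IsRun B) (hb : ∀ l : List (Pair n), l.Nodup → l.length = t → #(B l) ≤ b)
    {j : ℕ} (hj : 1 ≤ j) (hj2 : j ≤ 2) :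
    Ex t [] (fun l => Z (4 + j) (B l)) ≤ 200 * b ^ 2 * q ^ j := by
  have hq0 : 0 ≤ q := by
    rw [hq]
    positivity
  have h1 : Ex t [] (fun l => Z (4 + j) (B l)) ≤ Ex t [] (fun l => 24 * hsum (fun h =>
      ∑ i : (Fin 4 → Fin n) × Finset (Pair n), dfour_b B j i h * ind (i.2 ⊆ l.toFinset)) l) :=
    Ex_le List.nodup_nil fun l hn _ _ => dfour_Z hB hn
  have h2 := Ex_crit (univ : Finset ((Fin 4 → Fin n) × Finset (Pair n))) ht (dfour_b B j)
    (fun i h => mul_nonneg (ind_nonneg _) (ind_nonneg _)) (fun i _ => i.2) (by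
      intro i h hi e he
      by_contra hcon
      apply hi
      unfold dfour_b
      rw [ind_false (P := i.2 ⊆ prs i.1 \ B h ∧ #i.2 = j ∧ ∀ e ∈ i.2, e ∉ h), mul_zero]
      rintro ⟨_, _, h3⟩
      exact h3 e he hcon)
  rw [← hq] at h2
  have h3 : Ex t [] (fun l => hsum (fun h => ∑ i : (Fin 4 → Fin n) × Finset (Pair n),
      dfour_b B j i h * q ^ #i.2) l) ≤ Ex t [] (fun _ : List (Pair n) => 8 * b ^ 2 * q ^ j) := by
    refine Ex_le List.nodup_nil fun l hn hlen _ => ?_
    have hlen' : l.length = t := by simpa using hlen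
    have h4 : ∀ h : List (Pair n), ∑ i : (Fin 4 → Fin n) × Finset (Pair n),
        dfour_b B j i h * q ^ #i.2 ≤ (2 * q ^ j) * ∑ w : Fin 4 → Fin n, dfour_a B w h := by
      intro h
      have h5 : ∀ i : (Fin 4 → Fin n) × Finset (Pair n), dfour_b B j i h * q ^ #i.2 =
          dfour_b B j i h * q ^ j := by
        intro i
        by_cases hi : #i.2 = j
        · rw [hi]
        · have : dfour_b B j i h = 0 := by
            unfold dfour_b
            rw [ind_false (P := i.2 ⊆ prs i.1 \ B h ∧ #i.2 = j ∧ ∀ e ∈ i.2, e ∉ h), mul_zero]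
            rintro ⟨_, h3, _⟩
            exact hi h3
          rw [this, zero_mul, zero_mul]
      rw [sum_congr rfl fun i _ => h5 i, ← sum_mul, Fintype.sum_prod_type, mul_sum, sum_mul]
      refine sum_le_sum fun w _ => ?_
      have h6 := dfour_count B hj hj2 w h
      calc (∑ R : Finset (Pair n), dfour_b B j (w, R) h) * q ^ j ≤
            (2 * dfour_a B w h) * q ^ j := by gcongr
        _ = 2 * q ^ j * dfour_a B w h := by ring
    refine (hsum_le l fun h _ => h4 h).trans ?_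
    rw [hsum_mul]
    have h7 := dfour_sum hB l
    have h8 : (#(B l) : ℝ) ≤ b := by exact_mod_cast hb l hn hlen'
    calc 2 * q ^ j * hsum (fun h => ∑ w : Fin 4 → Fin n, dfour_a B w h) l ≤
          2 * q ^ j * (4 * (#(B l) : ℝ) ^ 2) := by gcongr
      _ ≤ 2 * q ^ j * (4 * (b : ℝ) ^ 2) := by gcongr
      _ = 8 * b ^ 2 * q ^ j := by ring
  rw [Ex_const List.nodup_nil (by simpa using ht)] at h3
  rw [Ex_mul] at h1
  have h9 : (0 : ℝ) ≤ b ^ 2 * q ^ j := by positivity
  calc Ex t [] (fun l => Z (4 + j) (B l)) ≤ 24 * (8 * b ^ 2 * q ^ j) :=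
        h1.trans (mul_le_mul_of_nonneg_left (h2.trans h3) (by norm_num))
    _ ≤ 200 * b ^ 2 * q ^ j := by nlinarith

end

theorem Z_five {n t b : ℕ} (ht : t ≤ Fintype.card (Pair n)) {q : ℝ}
    (hq : q = t / Fintype.card (Pair n)) {B : List (Pair n) → Finset (Pair n)}
    (hB : IsRun B) (hb : ∀ l : List (Pair n), l.Nodup → l.length = t → #(B l) ≤ b) :
    Ex t [] (fun l => Z 5 (B l)) ≤ 200 * b ^ 2 * q := by
  have := dfour_main ht hq hB hb (j := 1) le_rfl (by norm_num)
  rw [pow_one] at this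
  exact this

theorem Z_six {n t b : ℕ} (ht : t ≤ Fintype.card (Pair n)) {q : ℝ}
    (hq : q = t / Fintype.card (Pair n)) {B : List (Pair n) → Finset (Pair n)}
    (hB : IsRun B) (hb : ∀ l : List (Pair n), l.Nodup → l.length = t → #(B l) ≤ b) :
    Ex t [] (fun l => Z 6 (B l)) ≤ 200 * b ^ 2 * q ^ 2 :=
  dfour_main ht hq hB hb (j := 2) (by norm_num) le_rfl

end H2.K5
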