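import Pool.Agent.H2.K5.Stmt

/-!
# MP_833c63_pr : definitions used in the proof

PI: helper2.  Paper proof: `/team-store/H2_K5.md`.
-/

set_option autoImplicit false

namespace H2.K5

open Finset

/-! ## Expectations over the process (proof tools) -/

section Expect

variable {E : Type*} [Fintype E] [DecidableEq E]

/-- The edges not in the list `h`. -/
def rest (h : List E) : Finset E := univ.filter (fun e => e ∉ h)

/-- Expectation of `F` (of the full history) when `s` further edges are offered, one after the
other, each uniformly distributed among the edges not offered yet; `h` is the history so far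
(newest first). -/
noncomputable def Ex : ℕ → List E → (List E → ℝ) → ℝ
  | 0, h, F => F h
  | s + 1, h, F => (∑ e ∈ rest h, Ex s (e :: h) F) / (#(rest h) : ℝ)

/-- `F []`-value plus ... : the sum of `g` over the histories at all times `0, ..., l.length`
(all final segments of `l`). -/
def hsum (g : List E → ℝ) : List E → ℝ
  | [] => g []
  | e :: l => g (e :: l) + hsum g l

/-- indicator of a proposition -/
noncomputable def ind (P : Prop) : ℝ := by
  classical exact if P then 1 else 0

/-- A run: `B h` is the set of purchased edges after the history `h`. -/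
structure IsRun (B : List E → Finset E) : Prop where
  nil : B [] = ∅
  cons : ∀ (e : E) (h : List E), B (e :: h) = insert e (B h) ∨ B (e :: h) = B h

end Expect

/-! ## Graph counting (proof tools) -/

section Graph

variable {V : Type*} [Fintype V]

/-- number of neighbours of `x` in the set `A` -/
noncomputable def degIn (G : SimpleGraph V) (A : Finset V) (x : V) : ℕ := by
  classical exact #{y ∈ A | G.Adj x y}

/-- number of common neighbours -/
noncomputable def codeg (G : SimpleGraph V) (x y : V) : ℕ := by
  classical exact #{z : V | G.Adj x z ∧ G.Adj y z}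

/-- number of ordered pairs `(x, y)` in `A × A` which are adjacent -/
noncomputable def epairs (G : SimpleGraph V) (A : Finset V) : ℕ := by
  classical exact #{p ∈ A ×ˢ A | G.Adj p.1 p.2}

/-- number of ordered triangles in `A` -/
noncomputable def tri (G : SimpleGraph V) (A : Finset V) : ℕ := by
  classical exact #{p ∈ A ×ˢ A ×ˢ A | G.Adj p.1 p.2.1 ∧ G.Adj p.1 p.2.2 ∧ G.Adj p.2.1 p.2.2}

/-- local sparsity: the sets of size at most `s` in the neighbourhood of a vertex span at most
`4` times as many edges as vertices -/
def Loc (G : SimpleGraph V) (s : ℕ) : Prop :=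
  ∀ (v : V) (S : Finset V), (∀ x ∈ S, G.Adj v x) → #S ≤ s → epairs G S ≤ 8 * #S

/-- no small set with large average degree -/
def Core (G : SimpleGraph V) (s b : ℕ) : Prop :=
  ∀ A : Finset V, A.Nonempty → #A * (s + 1) ≤ 2 * b → epairs G A < #A * (s + 1)

end Graph

/-- the pairs of the tuple `v` -/
def prs {n k : ℕ} (v : Fin k → Fin n) : Finset (Pair n) :=
  univ.filter (fun e => ∃ i j : Fin k, (e : Sym2 (Fin n)) = s(v i, v j))

section Crit

variable {E : Type*} [DecidableEq E]

/-- `h` is the moment at which the `m`-th element of `P` is purchased -/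
def CritM (B : List E → Finset E) (P : Finset E) (m : ℕ) : List E → Prop
  | [] => False
  | e :: h => #(B (e :: h) ∩ P) = m ∧ #(B h ∩ P) < m

end Crit

/-- at the moment `h` the edge `xy` is purchased and closes the triangle `xyz` -/
def NewTri {n : ℕ} (B : List (Pair n) → Finset (Pair n)) (x y z : Fin n) : List (Pair n) → Prop
  | [] => False
  | e :: h => (e : Sym2 (Fin n)) = s(x, y) ∧ e ∈ B (e :: h) ∧ (gr (B (e :: h))).Adj x z ∧
      (gr (B (e :: h))).Adj y z

/-- all triangles of `G` in the tuple `v` contain `v 0` and `v 1` -/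
def OnlyOne {V : Type*} (G : SimpleGraph V) (v : Fin 5 → V) : Prop :=
  ∀ i j k : Fin 5, G.Adj (v i) (v j) → G.Adj (v i) (v k) → G.Adj (v j) (v k) →
    (i = 0 ∨ j = 0 ∨ k = 0) ∧ (i = 1 ∨ j = 1 ∨ k = 1)

/-- all codegrees in `v` are at most `κ` -/
def CodLe {V : Type*} [Fintype V] (G : SimpleGraph V) (κ : ℕ) (v : Fin 5 → V) : Prop :=
  ∀ i j : Fin 5, i ≠ j → codeg G (v i) (v j) ≤ κ

/-- three edges cover the tuple `v` -/
def Cov {V : Type*} (G : SimpleGraph V) (v : Fin 5 → V) : Prop :=
  G.Adj (v 0) (v 1) ∧ G.Adj (v 2) (v 3) ∧ ∃ j, G.Adj (v 4) (v j)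

/-- the first four entries of `v` -/
def four {V : Type*} (v : Fin 5 → V) : Fin 4 → V := fun i => v i.castSucc

/-- number of ordered `4`-tuples which contain at least `m` edges of `B` -/
noncomputable def Z {n : ℕ} (m : ℕ) (B : Finset (Pair n)) : ℝ :=
  ∑ w : Fin 4 → Fin n, ind (Function.Injective w ∧ m ≤ #(prs w ∩ B))

end H2.K5
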