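import Pool.Agent.H2.K5.Ins
import Pool.Agent.H2.K5.Critl

/-!
# DEG: maximal degree

`union_bound` over the pairs `(x, S)`, `#S = k`, `x ∉ S`, with `R = star x S`; the sum is at most
`n * n.choose k * q^k ≤ n * (1/3)^k` (`choose_mul_le`).
-/

set_option autoImplicit false

namespace H2.K5

open Finset

theorem deg_prob {n t k : ℕ} (ht : t ≤ Fintype.card (Pair n)) {q : ℝ}
    (hq : q = t / Fintype.card (Pair n)) (hk : 9 * (n * q) ≤ k) :
    Ex t [] (fun l : List (Pair n) => ind (∃ x, k ≤ degIn (gr l.toFinset) univ x)) ≤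
      n * (1 / 3) ^ k := by
  classical
  set C : Finset (Fin n × Finset (Fin n)) :=
    ((univ : Finset (Fin n)) ×ˢ powersetCard k (univ : Finset (Fin n))).filter
      (fun c => c.1 ∉ c.2) with hC
  have hq0 : 0 ≤ q := by rw [hq]; positivity
  have h1 := union_bound C (fun c => star c.1 c.2) ht
    (fun l : List (Pair n) => ∃ x, k ≤ degIn (gr l.toFinset) univ x) (by
      rintro l - - ⟨x, hx⟩
      unfold degIn at hx
      obtain ⟨S, hS, hSk⟩ := exists_subset_card_eq hx
      have hadj : ∀ y ∈ S, (gr l.toFinset).Adj x y := fun y hy => (mem_filter.1 (hS hy)).2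
      have hxS : x ∉ S := fun h => (gr l.toFinset).loopless.irrefl x (hadj x h)
      refine ⟨(x, S), ?_, ?_⟩
      · rw [hC, mem_filter, mem_product, mem_powersetCard]
        exact ⟨⟨mem_univ _, subset_univ _, hSk⟩, hxS⟩
      · exact (star_subset_iff hxS _).2 hadj)
  refine h1.trans ?_
  have h2 : ∀ c ∈ C, ((t : ℝ) / Fintype.card (Pair n)) ^ #(star c.1 c.2) = q ^ k := by
    intro c hc
    rw [hC, mem_filter, mem_product, mem_powersetCard] at hc
    rw [card_star hc.2, hc.1.2.2, hq]
  rw [sum_congr rfl h2, sum_const, nsmul_eq_mul]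
  have h3 : (#C : ℝ) ≤ n * (n.choose k : ℝ) := by
    have : #C ≤ n * n.choose k := by
      refine (card_filter_le _ _).trans (le_of_eq ?_)
      rw [card_product, card_powersetCard, card_univ, Fintype.card_fin]
    exact_mod_cast this
  have h4 := choose_mul_le n k hq0 hk
  have h5 : (0 : ℝ) ≤ q ^ k := by positivity
  calc (#C : ℝ) * q ^ k ≤ (n * (n.choose k : ℝ)) * q ^ k := mul_le_mul_of_nonneg_right h3 h5
    _ = n * ((n.choose k : ℝ) * q ^ k) := by ring
    _ ≤ n * (1 / 3) ^ k := mul_le_mul_of_nonneg_left h4 (Nat.cast_nonneg n)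

end H2.K5
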