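import Pool.Agent.H2.K5.DExist
import Pool.Agent.H2.K5.DFour

/-!
# DENSE: assembly of the dense bound

By `dense_exists` the indicator of the event is at most the sum of three `hsum`s (one for each
alternative) of the form `hsum (fun h => ∑ v, a v h * ind (prs v \ B h ⊆ l.toFinset)) l`, where `a v h` is
the indicator of the alternative together with `∀ e ∈ prs v \ B h, e ∉ h`. `Ex_crit` gives the factors
`q^5`, `q^4`, `q^3`; `crit_hsum_le` and `hsum_sum` bound the sums over all times by the static counts in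
`B l`: `count_one` (`8 b^3`), `count_two` with `m = 5` (`2 b Z 5`), `m = 6` (`2 b Z 6`); then `Z_five`, `Z_six`.
Total `8 b^3 q^5 + 400 b^3 q^5 + 400 b^3 q^5`.
-/

set_option autoImplicit false

namespace H2.K5

open Finset

/-- the event of one alternative at the history `h` -/
def DenseA {n : ℕ} (B : List (Pair n) → Finset (Pair n)) (m c : ℕ)
    (Q : (Fin 5 → Fin n) → List (Pair n) → Prop) (v : Fin 5 → Fin n) (h : List (Pair n)) : Prop :=
  CritM B (prs v) m h ∧ Q v h ∧ #(prs v \ B h) = c ∧ ∀ e ∈ prs v \ B h, e ∉ h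

theorem dense_alt {n t : ℕ} (ht : t ≤ Fintype.card (Pair n)) {q : ℝ}
    (hq : q = t / Fintype.card (Pair n)) {B : List (Pair n) → Finset (Pair n)}
    (hB : IsRun B) (m c : ℕ) (hm : 1 ≤ m) (Q : (Fin 5 → Fin n) → List (Pair n) → Prop)
    (hQ : ∀ v h l, h <:+ l → Q v h → Q v l) :
    Ex t [] (fun l => hsum (fun h => ∑ v, ind (DenseA B m c Q v h) *
      ind (prs v \ B h ⊆ l.toFinset)) l) ≤ q ^ c * Ex t [] (fun l => ∑ v, ind (Q v l)) := by
  have hq0 : 0 ≤ q := by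
    rw [hq]
    positivity
  refine (Ex_crit univ ht (fun v h => ind (DenseA B m c Q v h)) (fun v h => ind_nonneg _)
    (fun v h => prs v \ B h) (fun v h hne => ?_)).trans ?_
  · by_contra hcon
    refine hne (ind_false (fun hA => hcon ?_))
    exact hA.2.2.2
  · rw [← Ex_mul]
    refine Ex_le List.nodup_nil (fun l hl hlen _ => ?_)
    have h1 : hsum (fun h => ∑ v, ind (DenseA B m c Q v h) *
        ((t : ℝ) / Fintype.card (Pair n)) ^ #(prs v \ B h)) l =
        hsum (fun h => ∑ v, q ^ c * ind (DenseA B m c Q v h)) l := by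
      congr 1
      funext h
      refine sum_congr rfl (fun v _ => ?_)
      by_cases hA : DenseA B m c Q v h
      · rw [hA.2.2.1, ← hq]
        ring
      · rw [ind_false hA]
        ring
    rw [h1, hsum_sum, mul_sum]
    refine sum_le_sum (fun v _ => ?_)
    rw [hsum_mul]
    refine mul_le_mul_of_nonneg_left ?_ (pow_nonneg hq0 _)
    have h2 : hsum (fun h => ind (DenseA B m c Q v h)) l ≤
        hsum (fun h => ind (CritM B (prs v) m h ∧ Q v h)) l :=
      hsum_le l (fun h _ => ind_mono (fun hA => ⟨hA.1, hA.2.1⟩))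
    refine h2.trans ((crit_hsum_le hB (prs v) hm (Q v) (fun h hh => hQ v h l hh)).trans ?_)
    exact ind_mono (fun h' => h'.2)

theorem dense_adj_mono {n : ℕ} {Bs Bs' : Finset (Pair n)} (h : Bs ⊆ Bs') {x y : Fin n}
    (hxy : (gr Bs).Adj x y) : (gr Bs').Adj x y := by
  rw [gr_adj] at hxy ⊢
  obtain ⟨e, he, h1⟩ := hxy
  exact ⟨e, h he, h1⟩

theorem dense_pick {n : ℕ} {B : List (Pair n) → Finset (Pair n)} (m c : ℕ)
    (Q : (Fin 5 → Fin n) → List (Pair n) → Prop) {h l : List (Pair n)} (hl : h <:+ l)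
    {v : Fin 5 → Fin n} (hA : DenseA B m c Q v h) (hR : prs v \ B h ⊆ l.toFinset) :
    1 ≤ hsum (fun h => ∑ v, ind (DenseA B m c Q v h) * ind (prs v \ B h ⊆ l.toFinset)) l := by
  have h1 : ∀ h v, 0 ≤ ind (DenseA B m c Q v h) * ind (prs v \ B h ⊆ l.toFinset) :=
    fun h v => mul_nonneg (ind_nonneg _) (ind_nonneg _)
  have h2 := le_hsum (g := fun h => ∑ v, ind (DenseA B m c Q v h) *
    ind (prs v \ B h ⊆ l.toFinset)) (fun h => sum_nonneg (fun v _ => h1 h v)) hl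
  refine le_trans ?_ h2
  have h3 : ind (DenseA B m c Q v h) * ind (prs v \ B h ⊆ l.toFinset) = 1 := by
    rw [ind_true hA, ind_true hR, one_mul]
  rw [← h3]
  exact single_le_sum (f := fun v => ind (DenseA B m c Q v h) *
    ind (prs v \ B h ⊆ l.toFinset)) (fun v _ => h1 h v) (mem_univ v)

theorem dense_hsum_nonneg {n : ℕ} {B : List (Pair n) → Finset (Pair n)} (m c : ℕ)
    (Q : (Fin 5 → Fin n) → List (Pair n) → Prop) (l : List (Pair n)) :
    0 ≤ hsum (fun h => ∑ v, ind (DenseA B m c Q v h) * ind (prs v \ B h ⊆ l.toFinset)) l :=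
  critl_nonneg (fun h => sum_nonneg (fun v _ => mul_nonneg (ind_nonneg _) (ind_nonneg _))) l

theorem dense_Z_nonneg {n : ℕ} (m : ℕ) (Bs : Finset (Pair n)) : 0 ≤ Z m Bs :=
  sum_nonneg (fun _ _ => ind_nonneg _)

theorem dense_main {n t b : ℕ} (ht : t ≤ Fintype.card (Pair n)) {q : ℝ}
    (hq : q = t / Fintype.card (Pair n)) {B : List (Pair n) → Finset (Pair n)}
    (hB : IsRun B) (hb : ∀ l : List (Pair n), l.Nodup → l.length = t → #(B l) ≤ b) :
    Ex t [] (fun l => ind (¬ (gr (B l)).CliqueFree 5)) ≤ 1000 * b ^ 3 * q ^ 5 := by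
  have hq0 : 0 ≤ q := by
    rw [hq]
    positivity
  let Q1 : (Fin 5 → Fin n) → List (Pair n) → Prop := fun v h =>
    Function.Injective v ∧ Cov (gr (B h)) v
  let Q2 : (Fin 5 → Fin n) → List (Pair n) → Prop := fun v h =>
    Function.Injective v ∧ 5 ≤ #(prs (four v) ∩ B h) ∧ ∃ j, (gr (B h)).Adj (v 4) (v j)
  let Q3 : (Fin 5 → Fin n) → List (Pair n) → Prop := fun v h =>
    Function.Injective v ∧ 6 ≤ #(prs (four v) ∩ B h) ∧ ∃ j, (gr (B h)).Adj (v 4) (v j)
  have hQ1 : ∀ v h l, h <:+ l → Q1 v h → Q1 v l := by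
    rintro v h l hl ⟨h1, h2, h3, j, h4⟩
    have hm := hB.mono hl
    exact ⟨h1, dense_adj_mono hm h2, dense_adj_mono hm h3, j, dense_adj_mono hm h4⟩
  have hQ2 : ∀ v h l, h <:+ l → Q2 v h → Q2 v l := by
    rintro v h l hl ⟨h1, h2, j, h4⟩
    have hm := hB.mono hl
    exact ⟨h1, h2.trans (card_le_card (inter_subset_inter_left hm)), j, dense_adj_mono hm h4⟩
  have hQ3 : ∀ v h l, h <:+ l → Q3 v h → Q3 v l := by
    rintro v h l hl ⟨h1, h2, j, h4⟩
    have hm := hB.mono hl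
    exact ⟨h1, h2.trans (card_le_card (inter_subset_inter_left hm)), j, dense_adj_mono hm h4⟩
  have hA1 := dense_alt ht hq hB 5 5 (by norm_num) Q1 hQ1
  have hA2 := dense_alt ht hq hB 6 4 (by norm_num) Q2 hQ2
  have hA3 := dense_alt ht hq hB 7 3 (by norm_num) Q3 hQ3
  -- the static counts
  have hC1 : Ex t [] (fun l => ∑ v, ind (Q1 v l)) ≤ 8 * (b : ℝ) ^ 3 := by
    refine (Ex_le (G := fun _ => 8 * (b : ℝ) ^ 3) List.nodup_nil (fun l hl hlen _ => ?_)).trans
      (le_of_eq ?_)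
    · refine (count_one (B l)).trans ?_
      have h1 : (#(B l) : ℝ) ≤ b := by exact_mod_cast hb l hl (by simpa using hlen)
      gcongr
    · exact Ex_const List.nodup_nil (by simpa using ht) _
  have hC : ∀ m : ℕ, Ex t [] (fun l => ∑ v : Fin 5 → Fin n, ind (Function.Injective v ∧
      m ≤ #(prs (four v) ∩ B l) ∧ ∃ j, (gr (B l)).Adj (v 4) (v j))) ≤
      2 * (b : ℝ) * Ex t [] (fun l => Z m (B l)) := by
    intro m
    rw [← Ex_mul]
    refine Ex_le List.nodup_nil (fun l hl hlen _ => ?_)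
    refine (count_two m (B l)).trans ?_
    have h1 : (#(B l) : ℝ) ≤ b := by exact_mod_cast hb l hl (by simpa using hlen)
    exact mul_le_mul_of_nonneg_right (by linarith) (dense_Z_nonneg m _)
  have hZ5 := Z_five ht hq hB hb
  have hZ6 := Z_six ht hq hB hb
  have hb0 : (0 : ℝ) ≤ b := Nat.cast_nonneg b
  have hC2 : Ex t [] (fun l => ∑ v, ind (Q2 v l)) ≤ 2 * (b : ℝ) * (200 * b ^ 2 * q) :=
    (hC 5).trans (mul_le_mul_of_nonneg_left hZ5 (by positivity))
  have hC3 : Ex t [] (fun l => ∑ v, ind (Q3 v l)) ≤ 2 * (b : ℝ) * (200 * b ^ 2 * q ^ 2) :=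
    (hC 6).trans (mul_le_mul_of_nonneg_left hZ6 (by positivity))
  -- the event
  have hmain : Ex t [] (fun l => ind (¬ (gr (B l)).CliqueFree 5)) ≤
      Ex t [] (fun l => (hsum (fun h => ∑ v, ind (DenseA B 5 5 Q1 v h) *
        ind (prs v \ B h ⊆ l.toFinset)) l + hsum (fun h => ∑ v, ind (DenseA B 6 4 Q2 v h) *
        ind (prs v \ B h ⊆ l.toFinset)) l) + hsum (fun h => ∑ v, ind (DenseA B 7 3 Q3 v h) *
        ind (prs v \ B h ⊆ l.toFinset)) l) := by
    refine Ex_le List.nodup_nil (fun l hl hlen _ => ?_)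
    have n1 := dense_hsum_nonneg (B := B) 5 5 Q1 l
    have n2 := dense_hsum_nonneg (B := B) 6 4 Q2 l
    have n3 := dense_hsum_nonneg (B := B) 7 3 Q3 l
    by_cases hK : (gr (B l)).CliqueFree 5
    · rw [ind_false (not_not.2 hK)]
      linarith
    · rw [ind_true hK]
      obtain ⟨h, v, hh, hv, hR, hnot, halt⟩ := dense_exists hB hl hK
      rcases halt with ⟨h1, h2, h3⟩ | ⟨h1, h2, h3, h4⟩ | ⟨h1, h2, h3, h4⟩
      · have h5 := dense_pick (B := B) 5 5 Q1 hh ⟨h1, ⟨hv, h2⟩, h3, hnot⟩ hR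
        linarith
      · have h5 := dense_pick (B := B) 6 4 Q2 hh ⟨h1, ⟨hv, h2, h3⟩, h4, hnot⟩ hR
        linarith
      · have h5 := dense_pick (B := B) 7 3 Q3 hh ⟨h1, ⟨hv, h2, h3⟩, h4, hnot⟩ hR
        linarith
  rw [Ex_add, Ex_add] at hmain
  have e1 : q ^ 5 * Ex t [] (fun l => ∑ v, ind (Q1 v l)) ≤ q ^ 5 * (8 * (b : ℝ) ^ 3) :=
    mul_le_mul_of_nonneg_left hC1 (by positivity)
  have e2 : q ^ 4 * Ex t [] (fun l => ∑ v, ind (Q2 v l)) ≤
      q ^ 4 * (2 * (b : ℝ) * (200 * b ^ 2 * q)) := mul_le_mul_of_nonneg_left hC2 (by positivity)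
  have e3 : q ^ 3 * Ex t [] (fun l => ∑ v, ind (Q3 v l)) ≤
      q ^ 3 * (2 * (b : ℝ) * (200 * b ^ 2 * q ^ 2)) :=
    mul_le_mul_of_nonneg_left hC3 (by positivity)
  have e4 : 0 ≤ (b : ℝ) ^ 3 * q ^ 5 := by positivity
  calc Ex t [] (fun l => ind (¬ (gr (B l)).CliqueFree 5)) ≤ q ^ 5 * (8 * (b : ℝ) ^ 3) +
        q ^ 4 * (2 * (b : ℝ) * (200 * b ^ 2 * q)) +
        q ^ 3 * (2 * (b : ℝ) * (200 * b ^ 2 * q ^ 2)) := by linarith
    _ = 808 * ((b : ℝ) ^ 3 * q ^ 5) := by ring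
    _ ≤ 1000 * ((b : ℝ) ^ 3 * q ^ 5) := by linarith
    _ = 1000 * b ^ 3 * q ^ 5 := by ring

end H2.K5
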