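import Pool.Agent.H2.K5.Peel

/-!
# EST: estimates of binomial coefficients; cardinalities of `Pair n` and `prs v`; `K_5` as a tuple

`choose_le_exp`: `n.choose k ≤ n^k/k!` (`Nat.choose_le_pow_div`) and `k^k/k! ≤ exp k`
(`Real.pow_div_factorial_le_exp`).  `choose_mul_le`: `(e n x / k)^k ≤ (e/9)^k` and `e < 2.7182818286`
(`Real.exp_one_lt_d9`).
-/

set_option autoImplicit false

namespace H2.K5

open Finset

theorem choose_le_exp (n k : ℕ) (hk : 1 ≤ k) :
    (n.choose k : ℝ) ≤ (Real.exp 1 * n / k) ^ k := by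
  have hk0 : (0 : ℝ) < k := by exact_mod_cast hk
  have h1 : (n.choose k : ℝ) ≤ (n : ℝ) ^ k / (k.factorial : ℝ) := Nat.choose_le_pow_div k n
  have h2 : (k : ℝ) ^ k / (k.factorial : ℝ) ≤ Real.exp k :=
    Real.pow_div_factorial_le_exp _ hk0.le _
  have h3 : (n : ℝ) ^ k / (k.factorial : ℝ) =
      ((n : ℝ) / k) ^ k * ((k : ℝ) ^ k / (k.factorial : ℝ)) := by
    rw [div_pow]
    have h4 : (k : ℝ) ^ k ≠ 0 := pow_ne_zero _ hk0.ne'
    field_simp
  have h5 : (Real.exp 1 * n / k) ^ k = ((n : ℝ) / k) ^ k * Real.exp k := by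
    rw [mul_div_assoc, mul_pow, ← Real.exp_nat_mul, mul_one, mul_comm]
  rw [h5]
  refine h1.trans ?_
  rw [h3]
  exact mul_le_mul_of_nonneg_left h2 (by positivity)

theorem choose_mul_le (n k : ℕ) {x : ℝ} (hx : 0 ≤ x) (hk : 9 * (n * x) ≤ k) :
    (n.choose k : ℝ) * x ^ k ≤ (1 / 3) ^ k := by
  rcases Nat.eq_zero_or_pos k with rfl | hk1
  · simp
  · have hk0 : (0 : ℝ) < k := by exact_mod_cast hk1
    have h1 := choose_le_exp n k hk1
    have h2 : (n.choose k : ℝ) * x ^ k ≤ (Real.exp 1 * n / k) ^ k * x ^ k :=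
      mul_le_mul_of_nonneg_right h1 (by positivity)
    refine h2.trans ?_
    rw [← mul_pow]
    refine pow_le_pow_left₀ (by positivity) ?_ _
    have h3 : Real.exp 1 < 3 := by linarith [Real.exp_one_lt_d9]
    have h4 : Real.exp 1 * n / k * x = Real.exp 1 * (n * x) / k := by ring
    rw [h4, div_le_iff₀ hk0]
    have h5 : 0 ≤ (n : ℝ) * x := by positivity
    nlinarith

theorem card_pair (n : ℕ) : Fintype.card (Pair n) = n.choose 2 := by
  rw [Sym2.card_subtype_not_diag, Fintype.card_fin]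

theorem est_mem_prs {n k : ℕ} (v : Fin k → Fin n) (e : Pair n) :
    e ∈ prs v ↔ ∃ i j : Fin k, (e : Sym2 (Fin n)) = s(v i, v j) := by
  simp [prs]

theorem card_prs {n k : ℕ} {v : Fin k → Fin n} (hv : Function.Injective v) :
    #(prs v) = k.choose 2 := by
  classical
  have hnd : ∀ e : Pair k, ¬ (Sym2.map v (e : Sym2 (Fin k))).IsDiag := by
    rintro ⟨e, he⟩ h
    induction e using Sym2.inductionOn with
    | hf i j =>
      simp only [Sym2.map_mk, Sym2.mk_isDiag_iff] at h he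
      exact he (hv h)
  let f : Pair k → Pair n := fun e => ⟨Sym2.map v (e : Sym2 (Fin k)), hnd e⟩
  have hf : Function.Injective f := by
    intro a b hab
    have h1 : Sym2.map v (a : Sym2 (Fin k)) = Sym2.map v (b : Sym2 (Fin k)) :=
      congrArg Subtype.val hab
    exact Subtype.ext (Sym2.map.injective hv h1)
  have h2 : prs v = univ.image f := by
    ext e
    rw [est_mem_prs, mem_image]
    constructor
    · rintro ⟨i, j, h⟩
      have hij : i ≠ j := by
        rintro rfl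
        apply e.2
        rw [h]
        exact Sym2.mk_isDiag_iff.2 rfl
      refine ⟨⟨s(i, j), by rw [Sym2.mk_isDiag_iff]; exact hij⟩, mem_univ _, ?_⟩
      apply Subtype.ext
      rw [h]
      rfl
    · rintro ⟨⟨a, ha⟩, -, rfl⟩
      induction a using Sym2.inductionOn with
      | hf i j => exact ⟨i, j, rfl⟩
  rw [h2, card_image_of_injective _ hf, card_univ, card_pair]

theorem prs_comp {n k : ℕ} (v : Fin k → Fin n) (π : Equiv.Perm (Fin k)) :
    prs (v ∘ π) = prs v := by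
  ext e
  rw [est_mem_prs, est_mem_prs]
  constructor
  · rintro ⟨i, j, h⟩
    exact ⟨π i, π j, h⟩
  · rintro ⟨i, j, h⟩
    refine ⟨π.symm i, π.symm j, ?_⟩
    simp [h]

theorem gr_adj {n : ℕ} (B : Finset (Pair n)) (x y : Fin n) :
    (gr B).Adj x y ↔ ∃ e ∈ B, (e : Sym2 (Fin n)) = s(x, y) := by
  unfold gr
  rw [SimpleGraph.fromEdgeSet_adj]
  constructor
  · rintro ⟨⟨h, he⟩, _⟩
    exact ⟨_, he, rfl⟩
  · rintro ⟨⟨e, hd⟩, he, rfl⟩
    refine ⟨⟨hd, he⟩, ?_⟩
    intro hxy
    exact hd (Sym2.mk_isDiag_iff.2 hxy)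

/-- `K_5` in the graph `B` as a `5`-tuple -/
theorem not_cliqueFree_iff {n : ℕ} (B : Finset (Pair n)) :
    ¬ (gr B).CliqueFree 5 ↔ ∃ v : Fin 5 → Fin n, Function.Injective v ∧ prs v ⊆ B := by
  classical
  constructor
  · intro h
    unfold SimpleGraph.CliqueFree at h
    push Not at h
    obtain ⟨t, ht⟩ := h
    rw [SimpleGraph.isNClique_iff] at ht
    refine ⟨t.orderEmbOfFin ht.2, (t.orderEmbOfFin ht.2).injective, fun e he => ?_⟩
    rw [est_mem_prs] at he
    obtain ⟨i, j, hij⟩ := he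
    have hne : t.orderEmbOfFin ht.2 i ≠ t.orderEmbOfFin ht.2 j := by
      intro h'
      apply e.2
      rw [hij]
      exact Sym2.mk_isDiag_iff.2 h'
    have h1 := ht.1 (t.orderEmbOfFin_mem ht.2 i) (t.orderEmbOfFin_mem ht.2 j) hne
    rw [gr_adj] at h1
    obtain ⟨e', he', h2⟩ := h1
    have h3 : e = e' := Subtype.ext (by rw [hij, h2])
    rw [h3]
    exact he'
  · rintro ⟨v, hv, hB⟩ h
    refine h (univ.image v) ?_
    rw [SimpleGraph.isNClique_iff]
    refine ⟨?_, ?_⟩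
    · intro x hx y hy hxy
      rw [coe_image, Set.mem_image] at hx hy
      obtain ⟨i, -, rfl⟩ := hx
      obtain ⟨j, -, rfl⟩ := hy
      rw [gr_adj]
      refine ⟨⟨s(v i, v j), by rw [Sym2.mk_isDiag_iff]; exact hxy⟩, hB ?_, rfl⟩
      rw [est_mem_prs]
      exact ⟨i, j, rfl⟩
    · rw [card_image_of_injective _ hv, card_univ, Fintype.card_fin]

end H2.K5
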