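import Pool.Agent.H2.K5.Defs

/-!
# EXB: basic properties of `Ex`

All by induction on `s` (generalising `h`), unfolding `Ex`: for a nodup list `h` with
`s + 1 + h.length ≤ card E` the set `rest h` is nonempty.
-/

set_option autoImplicit false

namespace H2.K5

open Finset

variable {E : Type*} [Fintype E] [DecidableEq E]

theorem card_rest {h : List E} (hn : h.Nodup) : #(rest h) = Fintype.card E - h.length := by
  have h1 : rest h = univ \ h.toFinset := by
    ext e
    simp [rest]
  rw [h1, card_sdiff_of_subset (subset_univ _), card_univ, List.toFinset_card_of_nodup hn]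

theorem mem_rest {h : List E} {e : E} : e ∈ rest h ↔ e ∉ h := by
  simp [rest]

theorem exb_zero (h : List E) (F : List E → ℝ) : Ex 0 h F = F h := rfl

theorem exb_succ (s : ℕ) (h : List E) (F : List E → ℝ) :
    Ex (s + 1) h F = (∑ e ∈ rest h, Ex s (e :: h) F) / (#(rest h) : ℝ) := rfl

/-- monotonicity: only the nodup lists which extend `h` by `s` entries matter -/
theorem Ex_le {s : ℕ} {h : List E} (hn : h.Nodup) {F G : List E → ℝ}
    (H : ∀ l : List E, l.Nodup → l.length = s + h.length → h <:+ l → F l ≤ G l) :
    Ex s h F ≤ Ex s h G := by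
  induction s generalizing h with
  | zero => exact H h hn (by simp) List.suffix_rfl
  | succ s ih =>
    rw [exb_succ, exb_succ]
    refine div_le_div_of_nonneg_right (sum_le_sum fun e he => ?_) (Nat.cast_nonneg _)
    rw [mem_rest] at he
    refine ih (List.nodup_cons.2 ⟨he, hn⟩) (fun l hl hlen hsuf => H l hl ?_ ?_)
    · rw [hlen, List.length_cons]
      ring
    · exact (List.suffix_cons e h).trans hsuf

theorem Ex_congr {s : ℕ} {h : List E} (hn : h.Nodup) {F G : List E → ℝ}
    (H : ∀ l : List E, l.Nodup → l.length = s + h.length → h <:+ l → F l = G l) :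
    Ex s h F = Ex s h G :=
  le_antisymm (Ex_le hn fun l h1 h2 h3 => (H l h1 h2 h3).le)
    (Ex_le hn fun l h1 h2 h3 => (H l h1 h2 h3).ge)

theorem Ex_add (s : ℕ) (h : List E) (F G : List E → ℝ) :
    Ex s h (fun l => F l + G l) = Ex s h F + Ex s h G := by
  induction s generalizing h with
  | zero => rfl
  | succ s ih =>
    rw [exb_succ, exb_succ, exb_succ, ← add_div, ← sum_add_distrib]
    congr 1
    exact sum_congr rfl fun e _ => ih _

theorem Ex_mul (s : ℕ) (h : List E) (c : ℝ) (F : List E → ℝ) :
    Ex s h (fun l => c * F l) = c * Ex s h F := by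
  induction s generalizing h with
  | zero => rfl
  | succ s ih =>
    rw [exb_succ, exb_succ, ← mul_div_assoc, mul_sum]
    congr 1
    exact sum_congr rfl fun e _ => ih _

theorem exb_zero_fun (s : ℕ) (h : List E) : Ex s h (fun _ => (0 : ℝ)) = 0 := by
  have := Ex_mul s h 0 (fun _ => (0 : ℝ))
  simpa using this

theorem Ex_sum {ι : Type*} (C : Finset ι) (s : ℕ) (h : List E) (F : ι → List E → ℝ) :
    Ex s h (fun l => ∑ c ∈ C, F c l) = ∑ c ∈ C, Ex s h (F c) := by
  classical
  induction C using Finset.induction_on with
  | empty => simpa using exb_zero_fun s h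
  | insert c C hc ih =>
    rw [sum_insert hc, ← ih, ← Ex_add]
    congr 1
    funext l
    rw [sum_insert hc]

theorem Ex_const {s : ℕ} {h : List E} (hn : h.Nodup) (hs : s + h.length ≤ Fintype.card E)
    (c : ℝ) : Ex s h (fun _ => c) = c := by
  induction s generalizing h with
  | zero => rfl
  | succ s ih =>
    rw [exb_succ]
    have h1 : ∑ e ∈ rest h, Ex s (e :: h) (fun _ => c) = ∑ e ∈ rest h, c := by
      refine sum_congr rfl fun e he => ?_
      rw [mem_rest] at he
      refine ih (List.nodup_cons.2 ⟨he, hn⟩) ?_
      rw [List.length_cons]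
      omega
    have h2 : (0 : ℝ) < #(rest h) := by
      rw [card_rest hn]
      have : 0 < Fintype.card E - h.length := by omega
      exact_mod_cast this
    rw [h1, sum_const, nsmul_eq_mul, mul_div_cancel_left₀ _ h2.ne']

theorem Ex_tower (s r : ℕ) (h : List E) (F : List E → ℝ) :
    Ex (s + r) h F = Ex s h (fun l => Ex r l F) := by
  induction s generalizing h with
  | zero => rw [Nat.zero_add, exb_zero]
  | succ s ih =>
    have h1 : s + 1 + r = (s + r) + 1 := by ring
    rw [h1, exb_succ, exb_succ]
    congr 1
    exact sum_congr rfl fun e _ => ih _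

theorem ind_nonneg (P : Prop) : 0 ≤ ind P := by
  unfold ind
  split_ifs <;> norm_num

theorem ind_le_one (P : Prop) : ind P ≤ 1 := by
  unfold ind
  split_ifs <;> norm_num

theorem ind_true {P : Prop} (h : P) : ind P = 1 := by
  unfold ind
  rw [if_pos h]

theorem ind_false {P : Prop} (h : ¬ P) : ind P = 0 := by
  unfold ind
  rw [if_neg h]

theorem ind_mono {P Q : Prop} (h : P → Q) : ind P ≤ ind Q := by
  by_cases hP : P
  · rw [ind_true hP, ind_true (h hP)]
  · rw [ind_false hP]
    exact ind_nonneg Q

end H2.K5
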