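import Pool.Agent.H2.K5.Ins
import Pool.Agent.H2.K5.Run

/-!
# FIRST: the first triangle of a `K_5`; the total number of new triangles

`first_tri`: take `v` with `prs v ⊆ B l`; among the histories `h <:+ l` such that `gr (B h)` has a
triangle with vertices in `v` take the shortest one, `h = e :: h'`. The graph `gr (B h')` has no
triangle in `v`, so `e ∈ B h`, and every triangle in `v` uses the edge `e`. Permute `v`
(`prs_comp`) so that `e = s(v 0, v 1)` and `v 0, v 1, v 2` is a triangle.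

`tri_sum`: by induction on `l`: if `Good l` fails use the induction hypothesis; if `Good l` then all
final segments are good and `hsum ≤ tri (gr (B l)) univ` by induction (the new triangles at `e :: h`
contain the edge `e ∉ h`, they were not triangles before).
-/

set_option autoImplicit false

namespace H2.K5

open Finset

/-- `gr (B h)` has a triangle on the indices `i j k` of `v` -/
def first_T {n : ℕ} (G : SimpleGraph (Fin n)) (v : Fin 5 → Fin n) (i j k : Fin 5) : Prop :=
  G.Adj (v i) (v j) ∧ G.Adj (v i) (v k) ∧ G.Adj (v j) (v k)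

theorem first_time {n : ℕ} {B : List (Pair n) → Finset (Pair n)} (hB : IsRun B)
    (v : Fin 5 → Fin n) (l : List (Pair n)) (h : ∃ i j k, first_T (gr (B l)) v i j k) :
    ∃ e h', (e :: h') <:+ l ∧ (∃ i j k, first_T (gr (B (e :: h'))) v i j k) ∧
      ¬ ∃ i j k, first_T (gr (B h')) v i j k := by
  induction l with
  | nil =>
    obtain ⟨i, j, k, h1, -, -⟩ := h
    rw [gr_adj, hB.nil] at h1
    obtain ⟨e, he, -⟩ := h1
    exact absurd he (notMem_empty e)
  | cons e l ih =>
    by_cases hc : ∃ i j k, first_T (gr (B l)) v i j k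
    · obtain ⟨e', h', h1, h2, h3⟩ := ih hc
      exact ⟨e', h', h1.trans (List.suffix_cons e l), h2, h3⟩
    · exact ⟨e, l, List.suffix_rfl, h, hc⟩

theorem first_perm (i j k : Fin 5) (hij : i ≠ j) (hik : i ≠ k) (hjk : j ≠ k) :
    ∃ π : Equiv.Perm (Fin 5), π 0 = i ∧ π 1 = j ∧ π 2 = k := by
  set σ := Equiv.swap 0 i with hσ
  have h0 : σ 0 = i := Equiv.swap_apply_left _ _
  set j' := σ.symm j with hj'
  have hj0 : j' ≠ 0 := by
    intro h
    apply hij
    rw [← h0, ← h, hj', Equiv.apply_symm_apply]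
  set τ := Equiv.swap 1 j' with hτ
  have h1 : (τ.trans σ) 0 = i := by
    rw [Equiv.trans_apply, hτ, Equiv.swap_apply_of_ne_of_ne (by decide) hj0.symm, h0]
  have h2 : (τ.trans σ) 1 = j := by
    rw [Equiv.trans_apply, hτ, Equiv.swap_apply_left, hj', Equiv.apply_symm_apply]
  set k' := (τ.trans σ).symm k with hk'
  have hk0 : k' ≠ 0 := by
    intro h
    apply hik
    rw [← h1, ← h, hk', Equiv.apply_symm_apply]
  have hk1 : k' ≠ 1 := by
    intro h
    apply hjk
    rw [← h2, ← h, hk', Equiv.apply_symm_apply]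
  refine ⟨(Equiv.swap 2 k').trans (τ.trans σ), ?_, ?_, ?_⟩
  · rw [Equiv.trans_apply (Equiv.swap 2 k'), Equiv.swap_apply_of_ne_of_ne (by decide) hk0.symm, h1]
  · rw [Equiv.trans_apply (Equiv.swap 2 k'), Equiv.swap_apply_of_ne_of_ne (by decide) hk1.symm, h2]
  · rw [Equiv.trans_apply (Equiv.swap 2 k'), Equiv.swap_apply_left, hk', Equiv.apply_symm_apply]

theorem first_tri {n : ℕ} {B : List (Pair n) → Finset (Pair n)} (hB : IsRun B)
    {l : List (Pair n)} (hl : l.Nodup) (hK : ¬ (gr (B l)).CliqueFree 5) :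
    ∃ (h : List (Pair n)) (v : Fin 5 → Fin n), h <:+ l ∧ Function.Injective v ∧ prs v ⊆ B l ∧
      NewTri B (v 0) (v 1) (v 2) h ∧ OnlyOne (gr (B h)) v ∧ (∀ e ∈ prs v \ B h, e ∉ h) ∧
      prs v \ B h ⊆ l.toFinset := by
  obtain ⟨v, hv, hp⟩ := (not_cliqueFree_iff (B l)).1 hK
  have hadj : ∀ i j : Fin 5, i ≠ j → (gr (B l)).Adj (v i) (v j) := by
    intro i j hij
    have hne : v i ≠ v j := fun h => hij (hv h)
    rw [gr_adj]
    refine ⟨⟨s(v i, v j), by rw [Sym2.mk_isDiag_iff]; exact hne⟩, hp ?_, rfl⟩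
    rw [est_mem_prs]
    exact ⟨i, j, rfl⟩
  obtain ⟨e, h', hsuf, ⟨i, j, k, hT⟩, hno⟩ := first_time hB v l
    ⟨0, 1, 2, hadj 0 1 (by decide), hadj 0 2 (by decide), hadj 1 2 (by decide)⟩
  have hins : B (e :: h') = insert e (B h') := by
    rcases hB.cons e h' with h1 | h1
    · exact h1
    · rw [h1] at hT
      exact absurd ⟨i, j, k, hT⟩ hno
  have heB : e ∈ B (e :: h') := by rw [hins]; exact mem_insert_self _ _
  -- an adjacency at `h` is old or the new edge
  have hnew : ∀ x y, (gr (B (e :: h'))).Adj x y → (gr (B h')).Adj x y ∨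
      (e : Sym2 (Fin n)) = s(x, y) := by
    intro x y hxy
    rw [gr_adj, hins] at hxy
    obtain ⟨e', he', h1⟩ := hxy
    rw [mem_insert] at he'
    rcases he' with rfl | he'
    · exact Or.inr h1
    · left; rw [gr_adj]; exact ⟨e', he', h1⟩
  -- every triangle uses `e`
  have hall : ∀ i j k, first_T (gr (B (e :: h'))) v i j k →
      (e : Sym2 (Fin n)) = s(v i, v j) ∨ (e : Sym2 (Fin n)) = s(v i, v k) ∨
        (e : Sym2 (Fin n)) = s(v j, v k) := by
    intro i j k hT
    rcases hnew _ _ hT.1 with h1 | h1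
    · rcases hnew _ _ hT.2.1 with h2 | h2
      · rcases hnew _ _ hT.2.2 with h3 | h3
        · exact absurd ⟨i, j, k, h1, h2, h3⟩ hno
        · exact Or.inr (Or.inr h3)
      · exact Or.inr (Or.inl h2)
    · exact Or.inl h1
  -- choose the names
  obtain ⟨i, j, k, hT, he⟩ : ∃ i j k, first_T (gr (B (e :: h'))) v i j k ∧
      (e : Sym2 (Fin n)) = s(v i, v j) := by
    rcases hall i j k hT with h1 | h1 | h1
    · exact ⟨i, j, k, hT, h1⟩
    · exact ⟨i, k, j, ⟨hT.2.1, hT.1, hT.2.2.symm⟩, h1⟩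
    · exact ⟨j, k, i, ⟨hT.2.2, hT.1.symm, hT.2.1.symm⟩, h1⟩
  have hij : i ≠ j := fun h => hT.1.ne (by rw [h])
  have hik : i ≠ k := fun h => hT.2.1.ne (by rw [h])
  have hjk : j ≠ k := fun h => hT.2.2.ne (by rw [h])
  obtain ⟨π, h0, h1, h2⟩ := first_perm i j k hij hik hjk
  have hmem : ∀ {e'}, e' ∈ B l → e' ∈ l := fun h => hB.mem h
  refine ⟨e :: h', v ∘ π, hsuf, hv.comp π.injective, ?_, ?_, ?_, ?_, ?_⟩
  · rw [prs_comp]; exact hp
  · refine ⟨?_, heB, ?_, ?_⟩
    · simp only [Function.comp_apply, h0, h1]; exact he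
    · simp only [Function.comp_apply, h0, h2]; exact hT.2.1
    · simp only [Function.comp_apply, h1, h2]; exact hT.2.2
  · intro a b c hab hac hbc
    have hcase : ∀ a b : Fin 5, (e : Sym2 (Fin n)) = s(v (π a), v (π b)) →
        (a = 0 ∨ b = 0) ∧ (a = 1 ∨ b = 1) := by
      intro a b h
      rw [he] at h
      rw [Sym2.eq_iff] at h
      rcases h with ⟨h3, h4⟩ | ⟨h3, h4⟩
      · have h5 : π a = π 0 := by rw [h0]; exact (hv h3).symm
        have h6 : π b = π 1 := by rw [h1]; exact (hv h4).symm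
        exact ⟨Or.inl (π.injective h5), Or.inr (π.injective h6)⟩
      · have h5 : π b = π 0 := by rw [h0]; exact (hv h3).symm
        have h6 : π a = π 1 := by rw [h1]; exact (hv h4).symm
        exact ⟨Or.inr (π.injective h5), Or.inl (π.injective h6)⟩
    rcases hall (π a) (π b) (π c) ⟨hab, hac, hbc⟩ with h | h | h
    · have := hcase a b h; tauto
    · have := hcase a c h; tauto
    · have := hcase b c h; tauto
  · intro e' he' hin
    rw [prs_comp, mem_sdiff] at he'
    exact he'.2 (hB.late hl hsuf (hp he'.1) hin)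
  · intro e' he'
    rw [prs_comp, mem_sdiff] at he'
    rw [List.mem_toFinset]
    exact hmem (hp he'.1)

theorem first_sum_ind {n : ℕ} (P : Fin n → Fin n → Fin n → Prop) :
    (∑ x, ∑ y, ∑ z, ind (P x y z)) =
      (by classical exact ((#{p ∈ (univ : Finset (Fin n)) ×ˢ (univ : Finset (Fin n)) ×ˢ
        (univ : Finset (Fin n)) | P p.1 p.2.1 p.2.2} : ℕ) : ℝ)) := by
  classical
  rw [Finset.card_filter]
  push_cast
  rw [Finset.sum_product]
  refine Finset.sum_congr rfl (fun x _ => ?_)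
  rw [Finset.sum_product]
  refine Finset.sum_congr rfl (fun y _ => Finset.sum_congr rfl (fun z _ => ?_))
  unfold ind
  by_cases h : P x y z
  · simp [h]
  · simp [h]

theorem first_step {n : ℕ} {B : List (Pair n) → Finset (Pair n)} (hB : IsRun B) (e : Pair n)
    (h : List (Pair n)) (hn : (e :: h).Nodup) :
    (∑ x, ∑ y, ∑ z, ind (NewTri B x y z (e :: h))) + (tri (gr (B h)) univ : ℝ) ≤
      (tri (gr (B (e :: h))) univ : ℝ) := by
  classical
  rw [first_sum_ind]
  unfold tri
  rw [← Nat.cast_add]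
  have heh : e ∉ h := (List.nodup_cons.1 hn).1
  have hsub : gr (B h) ≤ gr (B (e :: h)) := by
    intro x y hxy
    rw [gr_adj] at hxy ⊢
    obtain ⟨e', he', h1⟩ := hxy
    exact ⟨e', hB.mono (List.suffix_cons e h) he', h1⟩
  norm_cast
  rw [← Finset.card_union_of_disjoint]
  · refine Finset.card_le_card (fun p hp => ?_)
    rw [mem_union, mem_filter, mem_filter] at hp
    rw [mem_filter]
    rcases hp with ⟨hu, h1⟩ | ⟨hu, h1⟩
    · refine ⟨hu, ?_, h1.2.2.1, h1.2.2.2⟩
      rw [gr_adj]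
      exact ⟨e, h1.2.1, h1.1⟩
    · exact ⟨hu, hsub h1.1, hsub h1.2.1, hsub h1.2.2⟩
  · rw [Finset.disjoint_left]
    intro p hp hq
    rw [mem_filter] at hp hq
    have h1 := hq.2.1
    rw [gr_adj] at h1
    obtain ⟨e', he', h2⟩ := h1
    have h3 : e' = e := Subtype.ext (by rw [h2]; exact hp.2.1.symm)
    rw [h3] at he'
    exact heh (hB.mem he')

theorem tri_sum {n : ℕ} {B : List (Pair n) → Finset (Pair n)} (hB : IsRun B)
    (Good : List (Pair n) → Prop) (hG : ∀ e h, Good (e :: h) → Good h) {T : ℝ} (hT0 : 0 ≤ T)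
    {l : List (Pair n)} (hl : l.Nodup)
    (hT : ∀ h, h <:+ l → Good h → (tri (gr (B h)) univ : ℝ) ≤ T) :
    hsum (fun h => ind (Good h) * ∑ x, ∑ y, ∑ z, ind (NewTri B x y z h)) l ≤ T := by
  have h0 : (∑ x, ∑ y, ∑ z, ind (NewTri B x y z ([] : List (Pair n)))) = 0 := by
    refine Finset.sum_eq_zero (fun x _ => Finset.sum_eq_zero (fun y _ =>
      Finset.sum_eq_zero (fun z _ => ind_false (fun h => h))))
  have hnn : ∀ h : List (Pair n), 0 ≤ ∑ x, ∑ y, ∑ z, ind (NewTri B x y z h) := fun h =>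
    Finset.sum_nonneg (fun x _ => Finset.sum_nonneg (fun y _ =>
      Finset.sum_nonneg (fun z _ => ind_nonneg _)))
  have key : ∀ l : List (Pair n), l.Nodup → Good l →
      hsum (fun h => ind (Good h) * ∑ x, ∑ y, ∑ z, ind (NewTri B x y z h)) l ≤
        (tri (gr (B l)) univ : ℝ) := by
    intro l
    induction l with
    | nil =>
      intro _ _
      simp only [hsum]
      rw [h0, mul_zero]
      exact Nat.cast_nonneg _
    | cons e l ih =>
      intro hn hg
      have h1 := ih (List.nodup_cons.1 hn).2 (hG e l hg)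
      have h2 := first_step hB e l hn
      rw [hsum, ind_true hg, one_mul]
      linarith
  induction l with
  | nil =>
    simp only [hsum]
    rw [h0, mul_zero]
    exact hT0
  | cons e l ih =>
    by_cases hg : Good (e :: l)
    · exact (key _ hl hg).trans (hT _ List.suffix_rfl hg)
    · rw [hsum, ind_false hg, zero_mul, zero_add]
      exact ih (List.nodup_cons.1 hl).2 (fun h hh => hT h (hh.trans (List.suffix_cons e l)))

end H2.K5
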