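import Pool.Agent.H2.K5.Est

/-!
# INS: the pairs inside a set, stars
-/

set_option autoImplicit false

namespace H2.K5

open Finset

/-- the pairs inside a set of vertices -/
def inside {n : ℕ} (S : Finset (Fin n)) : Finset (Pair n) :=
  univ.filter (fun e => ∀ x ∈ (e : Sym2 (Fin n)), x ∈ S)

theorem ins_mem {n : ℕ} (S : Finset (Fin n)) (e : Pair n) :
    e ∈ inside S ↔ ∀ x ∈ (e : Sym2 (Fin n)), x ∈ S := by
  simp [inside]

theorem ins_exists {n : ℕ} (e : Pair n) : ∃ a b : Fin n, a ≠ b ∧ (e : Sym2 (Fin n)) = s(a, b) := by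
  obtain ⟨e, he⟩ := e
  induction e using Sym2.inductionOn with
  | hf a b =>
    refine ⟨a, b, fun h => he (Sym2.mk_isDiag_iff.2 h), rfl⟩

theorem card_inside {n : ℕ} (S : Finset (Fin n)) : #(inside S) = (#S).choose 2 := by
  have h1 : inside S = prs (S.orderEmbOfFin rfl : Fin #S → Fin n) := by
    ext e
    rw [ins_mem, est_mem_prs]
    have hr : ∀ x, x ∈ S ↔ ∃ i, S.orderEmbOfFin rfl i = x := by
      intro x
      have := S.range_orderEmbOfFin rfl
      rw [← mem_coe, ← this, Set.mem_range]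
    constructor
    · intro h
      obtain ⟨a, b, -, hab⟩ := ins_exists e
      rw [hab] at h
      obtain ⟨i, hi⟩ := (hr a).1 (h a (Sym2.mem_mk_left a b))
      obtain ⟨j, hj⟩ := (hr b).1 (h b (Sym2.mem_mk_right a b))
      exact ⟨i, j, by rw [hab, hi, hj]⟩
    · rintro ⟨i, j, h⟩ x hx
      rw [h, Sym2.mem_iff] at hx
      rcases hx with rfl | rfl
      · exact S.orderEmbOfFin_mem rfl i
      · exact S.orderEmbOfFin_mem rfl j
  rw [h1, card_prs (S.orderEmbOfFin rfl).injective]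

/-- `epairs` counts every edge inside `S` twice -/
theorem epairs_gr_inside {n : ℕ} (B : Finset (Pair n)) (S : Finset (Fin n)) :
    epairs (gr B) S = 2 * #(B ∩ inside S) := by
  classical
  unfold epairs
  have h1 := card_eq_sum_card_fiberwise (f := fun p : Fin n × Fin n => s(p.1, p.2))
    (s := (S ×ˢ S).filter (fun p : Fin n × Fin n => (gr B).Adj p.1 p.2))
    (t := (B ∩ inside S).image (fun e : Pair n => (e : Sym2 (Fin n)))) (by
      intro p hp
      rw [mem_coe, mem_filter, mem_product, gr_adj] at hp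
      obtain ⟨⟨hp1, hp2⟩, e, he, hep⟩ := hp
      rw [mem_coe, mem_image]
      refine ⟨e, ?_, hep⟩
      rw [mem_inter, ins_mem]
      refine ⟨he, fun x hx => ?_⟩
      rw [hep, Sym2.mem_iff] at hx
      rcases hx with rfl | rfl
      · exact hp1
      · exact hp2)
  have h2 : ∀ b ∈ (B ∩ inside S).image (fun e : Pair n => (e : Sym2 (Fin n))),
      #(((S ×ˢ S).filter (fun p : Fin n × Fin n => (gr B).Adj p.1 p.2)).filter
        (fun p => s(p.1, p.2) = b)) = 2 := by
    intro b hb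
    rw [mem_image] at hb
    obtain ⟨e, he, rfl⟩ := hb
    rw [mem_inter, ins_mem] at he
    obtain ⟨x, y, hxy, hexy⟩ := ins_exists e
    have hx : x ∈ S := he.2 x (by rw [hexy]; exact Sym2.mem_mk_left x y)
    have hy : y ∈ S := he.2 y (by rw [hexy]; exact Sym2.mem_mk_right x y)
    have h3 : ((S ×ˢ S).filter (fun p : Fin n × Fin n => (gr B).Adj p.1 p.2)).filter
        (fun p => s(p.1, p.2) = (e : Sym2 (Fin n))) = {(x, y), (y, x)} := by
      ext ⟨a, b⟩
      rw [mem_filter, mem_filter, mem_product, mem_insert, mem_singleton, hexy, Sym2.eq_iff,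
        Prod.mk.injEq, Prod.mk.injEq]
      constructor
      · exact fun h => h.2
      · intro h
        refine ⟨?_, h⟩
        rcases h with ⟨rfl, rfl⟩ | ⟨rfl, rfl⟩
        · exact ⟨⟨hx, hy⟩, (gr_adj B _ _).2 ⟨e, he.1, hexy⟩⟩
        · exact ⟨⟨hy, hx⟩, (gr_adj B _ _).2 ⟨e, he.1, by rw [hexy, Sym2.eq_swap]⟩⟩
    rw [h3, Finset.card_pair]
    intro h
    exact hxy (Prod.mk.inj h).1
  have h4 : #((B ∩ inside S).image (fun e : Pair n => (e : Sym2 (Fin n)))) = #(B ∩ inside S) :=
    card_image_of_injective _ Subtype.val_injective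
  rw [h1, sum_congr rfl h2, sum_const, h4, smul_eq_mul, mul_comm]

/-- the star pairs `v x`, `x ∈ S` -/
def star {n : ℕ} (v : Fin n) (S : Finset (Fin n)) : Finset (Pair n) :=
  univ.filter (fun e => ∃ x ∈ S, (e : Sym2 (Fin n)) = s(v, x))

theorem ins_mem_star {n : ℕ} (v : Fin n) (S : Finset (Fin n)) (e : Pair n) :
    e ∈ star v S ↔ ∃ x ∈ S, (e : Sym2 (Fin n)) = s(v, x) := by
  simp [star]

theorem card_star {n : ℕ} {v : Fin n} {S : Finset (Fin n)} (h : v ∉ S) : #(star v S) = #S := by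
  symm
  have hd : ∀ a ∈ S, ¬ (s(v, a)).IsDiag := by
    intro a ha h'
    rw [Sym2.mk_isDiag_iff] at h'
    rw [h'] at h
    exact h ha
  refine card_bij (fun a ha => (⟨s(v, a), hd a ha⟩ : Pair n)) ?_ ?_ ?_
  · intro a ha
    rw [ins_mem_star]
    exact ⟨a, ha, rfl⟩
  · intro a ha b hb hab
    have h1 : s(v, a) = s(v, b) := congrArg Subtype.val hab
    exact Sym2.congr_right.1 h1
  · intro e he
    rw [ins_mem_star] at he
    obtain ⟨x, hx, hex⟩ := he
    exact ⟨x, hx, Subtype.ext hex.symm⟩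

theorem star_subset_iff {n : ℕ} {v : Fin n} {S : Finset (Fin n)} (h : v ∉ S)
    (B : Finset (Pair n)) : star v S ⊆ B ↔ ∀ x ∈ S, (gr B).Adj v x := by
  constructor
  · intro hsub x hx
    have hd : ¬ (s(v, x)).IsDiag := by
      intro h'
      rw [Sym2.mk_isDiag_iff] at h'
      rw [h'] at h
      exact h hx
    rw [gr_adj]
    exact ⟨⟨s(v, x), hd⟩, hsub ((ins_mem_star _ _ _).2 ⟨x, hx, rfl⟩), rfl⟩
  · intro hadj e he
    rw [ins_mem_star] at he
    obtain ⟨x, hx, hex⟩ := he
    have h1 := hadj x hx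
    rw [gr_adj] at h1
    obtain ⟨e', he', h2⟩ := h1
    have h3 : e = e' := Subtype.ext (by rw [hex, h2])
    rw [h3]
    exact he'

end H2.K5
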