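import Pool.Agent.H2.K5.Exb

/-!
# LATER: the probability that given edges are offered later

`Ex_later`: induction on `s`. With `m = card E - h.length > 0`, `r = #R`: the next edge is in `R` with
probability `r / m`; by induction
`Ex (s+1) h ≤ (r/m) x^(r-1) + (1 - r/m) x^r` with `x = s/(m-1)` (in the first case `R` is replaced by
`R.erase e`), and this is at most `((s+1)/m)^r` because `(s+1)/m = x + (1-x)/m` and
`(x+y)^r ≥ x^r + r x^(r-1) y` for `x, y ≥ 0`.
-/

set_option autoImplicit false

namespace H2.K5

open Finset

variable {E : Type*} [Fintype E] [DecidableEq E]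

theorem later_bern {x y : ℝ} (hx : 0 ≤ x) (hy : 0 ≤ y) (r : ℕ) :
    x ^ (r + 1) + (r + 1) * x ^ r * y ≤ (x + y) ^ (r + 1) := by
  induction r with
  | zero => simp
  | succ r ih =>
    have h1 : (x ^ (r + 1) + (r + 1) * x ^ r * y) * (x + y) ≤ (x + y) ^ (r + 1) * (x + y) :=
      mul_le_mul_of_nonneg_right ih (by positivity)
    have h2 : 0 ≤ (r + 1) * x ^ r * y * y := by positivity
    have h3 : (x + y) ^ (r + 1 + 1) = (x + y) ^ (r + 1) * (x + y) := by ring
    rw [h3]
    refine le_trans ?_ h1
    push_cast
    have h4 : (x ^ (r + 1) + (r + 1) * x ^ r * y) * (x + y) =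
        x ^ (r + 1 + 1) + ((r : ℝ) + 1 + 1) * x ^ (r + 1) * y + (r + 1) * x ^ r * y * y := by ring
    rw [h4]
    linarith

theorem Ex_later {s : ℕ} {h : List E} (hn : h.Nodup) (hs : s + h.length ≤ Fintype.card E)
    (R : Finset E) (hR : ∀ e ∈ R, e ∉ h) :
    Ex s h (fun l => ind (R ⊆ l.toFinset)) ≤
      ((s : ℝ) / ((Fintype.card E : ℝ) - h.length)) ^ #R := by
  induction s generalizing h R with
  | zero =>
    rw [exb_zero]
    rcases R.eq_empty_or_nonempty with rfl | ⟨e, he⟩
    · simpa using ind_le_one _
    · rw [ind_false]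
      · exact pow_nonneg (by simp) _
      · intro hsub
        exact hR e he (List.mem_toFinset.1 (hsub he))
  | succ s ih =>
    rcases R.eq_empty_or_nonempty with rfl | hne
    · rw [card_empty, pow_zero]
      refine le_trans (Ex_le hn (G := fun _ => 1) fun l _ _ _ => ind_le_one _) ?_
      rw [Ex_const hn hs]
    · obtain ⟨r, hr⟩ : ∃ r, #R = r + 1 := ⟨#R - 1, by have := hne.card_pos; omega⟩
      have hRsub : R ⊆ rest h := fun e he => mem_rest.2 (hR e he)
      have hcr : (#(rest h) : ℝ) = (Fintype.card E : ℝ) - h.length := by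
        rw [card_rest hn, Nat.cast_sub (by omega)]
      set m : ℝ := (Fintype.card E : ℝ) - h.length with hm
      have hm1 : (s : ℝ) + 1 ≤ m := by
        have : ((s + 1 + h.length : ℕ) : ℝ) ≤ Fintype.card E := by exact_mod_cast hs
        push_cast at this
        rw [hm]
        linarith
      have hs0 : (0 : ℝ) ≤ s := Nat.cast_nonneg s
      have hm0 : 0 < m := by linarith
      set x : ℝ := (s : ℝ) / (m - 1) with hx
      have hx0 : 0 ≤ x := div_nonneg hs0 (by linarith)
      have hxm : x * (m - 1) = s := by
        rw [hx]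
        rcases eq_or_lt_of_le (show 0 ≤ m - 1 by linarith) with h0 | h0
        · rw [← h0, mul_zero]
          have : (s : ℝ) ≤ 0 := by linarith
          exact le_antisymm hs0 this
        · field_simp
      have hx1 : x ≤ 1 := by
        rw [hx]
        exact div_le_one_of_le₀ (by linarith) (by linarith)
      have hlen : ∀ e : E, (Fintype.card E : ℝ) - ((e :: h).length : ℝ) = m - 1 := by
        intro e
        rw [List.length_cons, hm]
        push_cast
        ring
      have h1 : ∀ e ∈ R, Ex s (e :: h) (fun l => ind (R ⊆ l.toFinset)) ≤ x ^ r := by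
        intro e he
        have hen : (e :: h).Nodup := List.nodup_cons.2 ⟨hR e he, hn⟩
        have h2 : Ex s (e :: h) (fun l => ind (R ⊆ l.toFinset)) =
            Ex s (e :: h) (fun l => ind (R.erase e ⊆ l.toFinset)) := by
          refine Ex_congr hen fun l _ _ hsuf => ?_
          have hel : e ∈ l.toFinset := by
            rw [List.mem_toFinset]
            exact hsuf.subset List.mem_cons_self
          have h3 : R ⊆ l.toFinset ↔ R.erase e ⊆ l.toFinset := by
            constructor
            · exact fun h' => (erase_subset _ _).trans h'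
            · intro h' f hf
              by_cases hfe : f = e
              · rw [hfe]
                exact hel
              · exact h' (mem_erase.2 ⟨hfe, hf⟩)
          rw [show (R ⊆ l.toFinset) = (R.erase e ⊆ l.toFinset) from propext h3]
        rw [h2]
        have h4 := ih hen (by rw [List.length_cons]; omega) (R.erase e) (fun f hf => by
          rw [List.mem_cons, not_or]
          exact ⟨(mem_erase.1 hf).1, hR f (mem_erase.1 hf).2⟩)
        rw [hlen e, card_erase_of_mem he, hr, Nat.add_sub_cancel] at h4
        exact h4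
      have h5 : ∀ e ∈ rest h \ R, Ex s (e :: h) (fun l => ind (R ⊆ l.toFinset)) ≤
          x ^ (r + 1) := by
        intro e he
        rw [mem_sdiff, mem_rest] at he
        have h4 := ih (List.nodup_cons.2 ⟨he.1, hn⟩) (by rw [List.length_cons]; omega) R
          (fun f hf => by
            rw [List.mem_cons, not_or]
            refine ⟨?_, hR f hf⟩
            rintro rfl
            exact he.2 hf)
        rw [hlen e, hr] at h4
        exact h4
      rw [exb_succ, hcr, ← sum_sdiff hRsub]
      have h6 : ∑ e ∈ rest h \ R, Ex s (e :: h) (fun l => ind (R ⊆ l.toFinset)) ≤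
          (m - (r + 1)) * x ^ (r + 1) := by
        refine (sum_le_sum h5).trans (le_of_eq ?_)
        rw [sum_const, nsmul_eq_mul, card_sdiff_of_subset hRsub,
          Nat.cast_sub (card_le_card hRsub), hcr, hr]
        push_cast
        ring
      have h7 : ∑ e ∈ R, Ex s (e :: h) (fun l => ind (R ⊆ l.toFinset)) ≤
          (r + 1) * x ^ r := by
        refine (sum_le_sum h1).trans (le_of_eq ?_)
        rw [sum_const, nsmul_eq_mul, hr]
        push_cast
        ring
      have h8 := later_bern hx0 (show 0 ≤ (1 - x) / m from div_nonneg (by linarith) hm0.le) r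
      have h9 : x + (1 - x) / m = ((s : ℝ) + 1) / m := by
        field_simp
        linarith
      have h10 : x ^ (r + 1) + (r + 1) * x ^ r * ((1 - x) / m) =
          ((m - (r + 1)) * x ^ (r + 1) + (r + 1) * x ^ r) / m := by
        field_simp
        ring
      rw [h9, h10] at h8
      push_cast
      rw [hr]
      refine le_trans ?_ h8
      exact div_le_div_of_nonneg_right (add_le_add h6 h7) hm0.le

/-- since `s/(card E - (t - s)) ≤ t / card E` -/
theorem Ex_later' {t : ℕ} (ht : t ≤ Fintype.card E) {s : ℕ} {h : List E} (hn : h.Nodup)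
    (hs : s + h.length = t) (R : Finset E) (hR : ∀ e ∈ R, e ∉ h) :
    Ex s h (fun l => ind (R ⊆ l.toFinset)) ≤ ((t : ℝ) / Fintype.card E) ^ #R := by
  refine (Ex_later hn (by omega) R hR).trans ?_
  have h1 : (h.length : ℝ) ≤ Fintype.card E := by
    have : h.length ≤ Fintype.card E := by omega
    exact_mod_cast this
  have h2 : (t : ℝ) = s + h.length := by
    rw [← hs]
    push_cast
    ring
  have h3 : (t : ℝ) ≤ Fintype.card E := by exact_mod_cast ht
  refine pow_le_pow_left₀ (div_nonneg (Nat.cast_nonneg _) (by linarith)) ?_ _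
  rcases eq_or_lt_of_le (show 0 ≤ (Fintype.card E : ℝ) - h.length by linarith) with h0 | h0
  · rw [← h0, div_zero]
    positivity
  · rw [div_le_div_iff₀ h0 (by linarith [(Nat.cast_nonneg h.length : (0 : ℝ) ≤ h.length)])]
    have h4 : (0 : ℝ) ≤ h.length := Nat.cast_nonneg _
    rw [h2] at h3 ⊢
    nlinarith

end H2.K5
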