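import Pool.Agent.H2.K5.Ins
import Pool.Agent.H2.K5.Critl

/-!
# LOC: local sparsity

If `Loc` fails there are `v` and a nonempty `S ⊆ N(v)`, `#S = k ≤ s`, with more than `4 k` edges inside
`S`. `union_bound` over `(v, S, F)` with `v ∉ S`, `1 ≤ #S ≤ s`, `F ⊆ inside S`, `#F = 4 #S`,
`R = star v S ∪ F` (disjoint, `#R = 5 #S`). With `choose_le_exp` the sum is at most
`∑_{k=1}^s n * n.choose k * (k.choose 2).choose (4k) * q^(5k) ≤ ∑_{k=2}^s n * y_k ^ k`,
`y_k = (e n / k) (e k / 8)^4 q^5 ≤ 0.0363 n q^2 (k q)^3` (the term `k = 1` vanishes).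
From `k^2 q^4 n ≤ 1` and `n q^2 ≥ 1`: `(n q^2 (kq)^3)^2 = (n q^2)^2 (k^2 q^2)^3 ≤ (n q^2)^2 / (n q^2)^3 ≤ 1`,
so `y_k ≤ 0.0363`; from `q^8 n^3 ≤ 65536`: `q ≤ 4 n^(-3/8)`, `n k^3 q^5 ≤ 1024 k^3 n^(-7/8)`.
Hence `n y_k^k ≤ n y_k^2 (0.0363)^(k-2) ≤ C n^(-3/4) k^6 (0.0363)^(k-2)`, and the sum over `k` converges.
-/

set_option autoImplicit false

namespace H2.K5

open Finset

/-- LOC: the `k`-th term of the union bound -/
noncomputable def loc_T (n : ℕ) (q : ℝ) (k : ℕ) : ℝ :=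
  n * ((n.choose k : ℝ) * (((k.choose 2).choose (4 * k) : ℝ) * q ^ (5 * k)))

/-- LOC: the union bound -/
theorem loc_union {n t s : ℕ} (ht : t ≤ Fintype.card (Pair n)) {q : ℝ}
    (hq : q = t / Fintype.card (Pair n)) (hq0 : 0 ≤ q) :
    Ex t [] (fun l : List (Pair n) => ind (¬ Loc (gr l.toFinset) s)) ≤
      ∑ k ∈ Icc 1 s, loc_T n q k := by
  classical
  set A : Finset (Finset (Fin n)) := univ.filter (fun S => 1 ≤ #S ∧ #S ≤ s) with hA
  set D : Finset (Σ _ : Finset (Fin n), Finset (Pair n)) :=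
    A.sigma (fun S => powersetCard (4 * #S) (inside S)) with hD
  set C : Finset (Fin n × (Σ _ : Finset (Fin n), Finset (Pair n))) :=
    ((univ : Finset (Fin n)) ×ˢ D).filter (fun c => c.1 ∉ c.2.1) with hC
  have hub := union_bound C (fun c => star c.1 c.2.1 ∪ c.2.2) ht
    (fun l : List (Pair n) => ¬ Loc (gr l.toFinset) s) (by
      intro l _ _ hl
      unfold Loc at hl
      push Not at hl
      obtain ⟨v, S, hadj, hSs, hbig⟩ := hl
      rw [epairs_gr_inside] at hbig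
      have hvS : v ∉ S := fun h => (hadj v h).ne rfl
      have hS1 : 1 ≤ #S := by
        rcases S.eq_empty_or_nonempty with h | h
        · exfalso
          subst h
          have : inside (∅ : Finset (Fin n)) = ∅ := by
            rw [← card_eq_zero, card_inside]; rfl
          rw [this] at hbig
          simp at hbig
        · exact h.card_pos
      obtain ⟨F, hF, hFc⟩ := exists_subset_card_eq (s := l.toFinset ∩ inside S) (n := 4 * #S)
        (by omega)
      refine ⟨(v, ⟨S, F⟩), ?_, ?_⟩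
      · rw [hC, mem_filter, mem_product, hD, mem_sigma, mem_powersetCard, hA, mem_filter]
        exact ⟨⟨mem_univ _, ⟨mem_univ _, hS1, hSs⟩, hF.trans inter_subset_right, hFc⟩, hvS⟩
      · refine union_subset ?_ (hF.trans inter_subset_left)
        exact (star_subset_iff hvS _).2 hadj)
  rw [← hq] at hub
  refine hub.trans ?_
  have hcard : ∀ c ∈ C, #(star c.1 c.2.1 ∪ c.2.2) = 5 * #c.2.1 := by
    intro c hc
    rw [hC, mem_filter, mem_product, hD, mem_sigma, mem_powersetCard] at hc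
    obtain ⟨⟨_, _, h1, h2⟩, h3⟩ := hc
    rw [card_union_of_disjoint, card_star h3, h2]
    · ring
    · rw [disjoint_left]
      intro e he he'
      have h4 := h1 he'
      rw [inside, mem_filter] at h4
      rw [star, mem_filter] at he
      obtain ⟨_, x, _, hx⟩ := he
      exact h3 (h4.2 c.1 (by rw [hx]; exact Sym2.mem_mk_left _ _))
  calc ∑ c ∈ C, q ^ #(star c.1 c.2.1 ∪ c.2.2) = ∑ c ∈ C, q ^ (5 * #c.2.1) :=
        sum_congr rfl (fun c hc => by rw [hcard c hc])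
    _ ≤ ∑ c ∈ (univ : Finset (Fin n)) ×ˢ D, q ^ (5 * #c.2.1) :=
        sum_le_sum_of_subset_of_nonneg (filter_subset _ _) (fun c _ _ => pow_nonneg hq0 _)
    _ = n * ∑ S ∈ A, (((#S).choose 2).choose (4 * #S) : ℝ) * q ^ (5 * #S) := by
        rw [sum_product]
        simp only
        rw [sum_const, card_univ, Fintype.card_fin, nsmul_eq_mul, hD, sum_sigma]
        congr 1
        refine sum_congr rfl (fun S _ => ?_)
        simp only
        rw [sum_const, card_powersetCard, card_inside, nsmul_eq_mul]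
    _ ≤ ∑ k ∈ Icc 1 s, loc_T n q k := by
        unfold loc_T
        rw [← mul_sum]
        refine mul_le_mul_of_nonneg_left ?_ (Nat.cast_nonneg n)
        rw [← sum_fiberwise_of_maps_to (s := A) (t := Icc 1 s) (g := fun S => #S)
          (fun S hS => by
            rw [hA, mem_filter] at hS
            exact mem_Icc.2 hS.2)]
        refine sum_le_sum (fun k _ => ?_)
        rw [sum_congr rfl (g := fun _ => (((k.choose 2).choose (4 * k) : ℝ) * q ^ (5 * k)))
          (fun S hS => by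
            rw [(mem_filter.1 hS).2])]
        rw [sum_const, nsmul_eq_mul]
        refine mul_le_mul_of_nonneg_right ?_ (by positivity)
        have h1 : (A.filter (fun S => #S = k)) ⊆ powersetCard k univ := by
          intro S hS
          rw [mem_filter] at hS
          rw [mem_powersetCard]
          exact ⟨subset_univ _, hS.2⟩
        have h2 := card_le_card h1
        rw [card_powersetCard, card_univ, Fintype.card_fin] at h2
        exact_mod_cast h2

/-- LOC: bound for one term -/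
theorem loc_term {n s k : ℕ} (hn : 2 ≤ n) {q : ℝ} (hq0 : 0 ≤ q) (h1 : 1 ≤ n * q ^ 2)
    (h2 : q ^ 8 * n ^ 3 ≤ 65536) (h3 : (s : ℝ) ^ 2 * q ^ 4 * n ≤ 1) (hk1 : 1 ≤ k) (hks : k ≤ s) :
    loc_T n q k ≤ 2 ^ 20 / Real.sqrt n * ((k : ℝ) ^ 6 * (1 / 16) ^ k) := by
  have hn0 : (0 : ℝ) < n := by exact_mod_cast (by omega : 0 < n)
  have hn1 : (1 : ℝ) ≤ n := by exact_mod_cast (by omega : 1 ≤ n)
  have hk0 : (0 : ℝ) < k := by exact_mod_cast (by omega : 0 < k)
  have hq0' : 0 < q := by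
    rcases hq0.lt_or_eq with h | h
    · exact h
    · exfalso
      rw [← h] at h1
      norm_num at h1
  have hsq : 0 < Real.sqrt n := Real.sqrt_pos.2 hn0
  rcases Nat.lt_or_ge k 2 with hk2 | hk2
  · -- `k = 1`
    have : k = 1 := by omega
    subst this
    unfold loc_T
    have h0 : ((1 : ℕ).choose 2).choose (4 * 1) = 0 := by decide
    rw [h0]
    simp only [Nat.cast_zero, zero_mul, mul_zero]
    positivity
  -- `k² q⁴ n ≤ 1`
  have hk3 : (k : ℝ) ^ 2 * q ^ 4 * n ≤ 1 := by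
    refine le_trans ?_ h3
    have : (k : ℝ) ≤ s := by exact_mod_cast hks
    gcongr
  -- `X = n k³ q⁵ ≤ 1`
  set X : ℝ := n * k ^ 3 * q ^ 5 with hX
  have hX0 : 0 ≤ X := by positivity
  have hX1 : X ≤ 1 := by
    have h5 : X ^ 2 * (n * q ^ 2) = (k ^ 2 * q ^ 4 * n) ^ 3 := by rw [hX]; ring
    have h6 : (k ^ 2 * q ^ 4 * n) ^ 3 ≤ (1 : ℝ) := pow_le_one₀ (by positivity) hk3
    have h7 : X ^ 2 ≤ 1 := by nlinarith [sq_nonneg X]
    nlinarith
  have hterm : loc_T n q k ≤ n * ((1 / 16) ^ k * X ^ k) := by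
    unfold loc_T
    refine mul_le_mul_of_nonneg_left ?_ hn0.le
    have he : Real.exp 1 < 3 := by linarith [Real.exp_one_lt_d9]
    have he0 : 0 < Real.exp 1 := Real.exp_pos 1
    have hc1 := choose_le_exp n k hk1
    have hc2 : (((k.choose 2).choose (4 * k) : ℕ) : ℝ) ≤ ((Real.exp 1 * k / 8) ^ 4) ^ k := by
      refine (choose_le_exp (k.choose 2) (4 * k) (by omega)).trans ?_
      rw [← pow_mul]
      refine pow_le_pow_left₀ (by positivity) ?_ _
      have hch : ((k.choose 2 : ℕ) : ℝ) ≤ (k : ℝ) ^ 2 / 2 := by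
        rw [Nat.cast_choose_two]
        nlinarith
      rw [div_le_div_iff₀ (by positivity) (by norm_num)]
      push_cast
      nlinarith [mul_le_mul_of_nonneg_left hch he0.le]
    calc (n.choose k : ℝ) * (((k.choose 2).choose (4 * k) : ℝ) * q ^ (5 * k))
        ≤ (Real.exp 1 * n / k) ^ k * (((Real.exp 1 * k / 8) ^ 4) ^ k * (q ^ 5) ^ k) := by
          rw [pow_mul q 5 k]
          gcongr
      _ = (Real.exp 1 ^ 5 / 4096 * X) ^ k := by
          rw [← mul_pow, ← mul_pow]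
          congr 1
          rw [hX]
          field_simp
          ring
      _ ≤ (1 / 16 * X) ^ k := by
          refine pow_le_pow_left₀ (by positivity) ?_ _
          refine mul_le_mul_of_nonneg_right ?_ hX0
          have : Real.exp 1 ^ 5 ≤ 3 ^ 5 := pow_le_pow_left₀ he0.le he.le 5
          rw [div_le_div_iff₀ (by norm_num) (by norm_num)]
          nlinarith
      _ = (1 / 16) ^ k * X ^ k := mul_pow _ _ _
  have hXk : X ^ k ≤ X ^ 2 := pow_le_pow_of_le_one hX0 hX1 hk2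
  -- `q² ≤ 16 / √n`
  have hq2 : q ^ 2 * Real.sqrt n ≤ 16 := by
    have hs4 : (Real.sqrt n) ^ 4 = (n : ℝ) ^ 2 := by
      have := Real.sq_sqrt hn0.le
      calc (Real.sqrt n) ^ 4 = ((Real.sqrt n) ^ 2) ^ 2 := by ring
        _ = (n : ℝ) ^ 2 := by rw [this]
    have h5 : (q ^ 2 * Real.sqrt n) ^ 4 ≤ 16 ^ 4 := by
      have h6 : (q ^ 2 * Real.sqrt n) ^ 4 = q ^ 8 * n ^ 2 := by
        rw [mul_pow, hs4]; ring
      rw [h6]
      have h7 : q ^ 8 * (n : ℝ) ^ 2 ≤ q ^ 8 * n ^ 3 := by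
        have : (n : ℝ) ^ 2 ≤ n ^ 3 := pow_le_pow_right₀ hn1 (by norm_num)
        gcongr
      norm_num
      linarith
    exact le_of_pow_le_pow_left₀ (by norm_num) (by norm_num) h5
  have hfin : (n : ℝ) * X ^ 2 ≤ 2 ^ 20 / Real.sqrt n * (k : ℝ) ^ 6 := by
    have h5 : (n : ℝ) * X ^ 2 = (q ^ 8 * n ^ 3) * q ^ 2 * k ^ 6 := by rw [hX]; ring
    rw [h5, div_mul_eq_mul_div, le_div_iff₀ hsq]
    have h6 : (q ^ 8 * n ^ 3) * q ^ 2 * k ^ 6 * Real.sqrt n =
        (q ^ 8 * n ^ 3) * (q ^ 2 * Real.sqrt n) * k ^ 6 := by ring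
    rw [h6]
    refine mul_le_mul_of_nonneg_right ?_ (by positivity)
    calc (q ^ 8 * n ^ 3) * (q ^ 2 * Real.sqrt n) ≤ 65536 * 16 := by gcongr
      _ ≤ 2 ^ 20 := by norm_num
  calc loc_T n q k ≤ n * ((1 / 16) ^ k * X ^ k) := hterm
    _ ≤ n * ((1 / 16) ^ k * X ^ 2) := by gcongr
    _ = (1 / 16) ^ k * (n * X ^ 2) := by ring
    _ ≤ (1 / 16) ^ k * (2 ^ 20 / Real.sqrt n * (k : ℝ) ^ 6) := by gcongr
    _ = 2 ^ 20 / Real.sqrt n * ((k : ℝ) ^ 6 * (1 / 16) ^ k) := by ring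

theorem loc_prob : ∃ C : ℝ, 0 < C ∧ ∀ n t s : ℕ, 2 ≤ n → t ≤ Fintype.card (Pair n) →
    ∀ q : ℝ, q = t / Fintype.card (Pair n) → 1 ≤ n * q ^ 2 → q ^ 8 * n ^ 3 ≤ 65536 →
    (s : ℝ) ^ 2 * q ^ 4 * n ≤ 1 →
    Ex t [] (fun l : List (Pair n) => ind (¬ Loc (gr l.toFinset) s)) ≤ C / Real.sqrt n := by
  have hsum : Summable (fun k : ℕ => (k : ℝ) ^ 6 * (1 / 16 : ℝ) ^ k) :=
    summable_pow_mul_geometric_of_norm_lt_one 6 (by norm_num)
  set K := ∑' k : ℕ, (k : ℝ) ^ 6 * (1 / 16 : ℝ) ^ k with hK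
  have hK0 : 0 ≤ K := tsum_nonneg (fun k => by positivity)
  refine ⟨2 ^ 20 * K + 1, by positivity, ?_⟩
  intro n t s hn ht q hq h1 h2 h3
  have hq0 : 0 ≤ q := by rw [hq]; positivity
  refine (loc_union ht hq hq0).trans ?_
  have hsq : 0 < Real.sqrt n := Real.sqrt_pos.2 (by exact_mod_cast (by omega : 0 < n))
  calc ∑ k ∈ Icc 1 s, loc_T n q k
      ≤ ∑ k ∈ Icc 1 s, 2 ^ 20 / Real.sqrt n * ((k : ℝ) ^ 6 * (1 / 16) ^ k) :=
        sum_le_sum (fun k hk => loc_term hn hq0 h1 h2 h3 (mem_Icc.1 hk).1 (mem_Icc.1 hk).2)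
    _ = 2 ^ 20 / Real.sqrt n * ∑ k ∈ Icc 1 s, ((k : ℝ) ^ 6 * (1 / 16) ^ k) := by rw [mul_sum]
    _ ≤ 2 ^ 20 / Real.sqrt n * K := by
        refine mul_le_mul_of_nonneg_left ?_ (by positivity)
        exact hsum.sum_le_tsum _ (fun k _ => by positivity)
    _ = (2 ^ 20 * K) / Real.sqrt n := by ring
    _ ≤ (2 ^ 20 * K + 1) / Real.sqrt n := by gcongr; linarith

end H2.K5
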