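import Pool.Agent.H2.K5.Est

/-!
# PAT: graphs with four edges on four vertices, with five edges on five vertices

`pat_four`: the two missing pairs; at least one of the three perfect matchings of `K_4` avoids both.
`pat_five`: the graph has two disjoint edges (otherwise it is a star or a triangle, at most four
edges); if the fifth vertex is not isolated the first alternative holds, otherwise all five edges
are on the four vertices. A `decide` over the `2^10` graphs on `Fin 5` (bit vectors) is fine too.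
-/

set_option autoImplicit false

namespace H2.K5

open Finset

/-- the fifteen ways to choose two disjoint pairs of five vertices, with the remaining vertex last -/
def patL : List (Fin 5 → Fin 5) :=
  [![0,1,2,3,4], ![0,2,1,3,4], ![0,3,1,2,4], ![0,1,2,4,3], ![0,2,1,4,3], ![0,4,1,2,3], ![0,1,3,4,2],
   ![0,3,1,4,2], ![0,4,1,3,2], ![0,2,3,4,1], ![0,3,2,4,1], ![0,4,2,3,1], ![1,2,3,4,0], ![1,3,2,4,0],
   ![1,4,2,3,0]]

theorem patL_inj : ∀ t ∈ patL, Function.Injective t := by
  unfold patL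
  decide +kernel

/-- adjacency from ten bits -/
def patM (b01 b02 b03 b04 b12 b13 b14 b23 b24 b34 : Bool) : Fin 5 → Fin 5 → Bool :=
  ![![false, b01, b02, b03, b04], ![b01, false, b12, b13, b14], ![b02, b12, false, b23, b24],
    ![b03, b13, b23, false, b34], ![b04, b14, b24, b34, false]]

theorem pat_dec : ∀ (b01 b02 b03 b04 b12 b13 b14 b23 b24 b34 : Bool),
    b01.toNat + b02.toNat + b03.toNat + b04.toNat + b12.toNat + b13.toNat + b14.toNat + b23.toNat +
      b24.toNat + b34.toNat = 5 →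
    (∃ t ∈ patL, patM b01 b02 b03 b04 b12 b13 b14 b23 b24 b34 (t 0) (t 1) = true ∧
      patM b01 b02 b03 b04 b12 b13 b14 b23 b24 b34 (t 2) (t 3) = true ∧
      ∃ j, patM b01 b02 b03 b04 b12 b13 b14 b23 b24 b34 (t 4) (t j) = true) ∨
    ∃ m, ∀ j, patM b01 b02 b03 b04 b12 b13 b14 b23 b24 b34 m j = false := by
  decide +kernel

theorem pat_dec4 : ∀ (b01 b02 b03 b12 b13 b23 : Bool),
    b01.toNat + b02.toNat + b03.toNat + b12.toNat + b13.toNat + b23.toNat = 4 →
    (b01 = true ∧ b23 = true) ∨ (b02 = true ∧ b13 = true) ∨ (b03 = true ∧ b12 = true) := by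
  decide +kernel

theorem pat_adj {n : ℕ} (Bs : Finset (Pair n)) (x y : Fin n) :
    (gr Bs).Adj x y ↔ ∃ h : ¬ (s(x, y) : Sym2 (Fin n)).IsDiag, (⟨s(x, y), h⟩ : Pair n) ∈ Bs := by
  unfold gr
  rw [SimpleGraph.fromEdgeSet_adj]
  constructor
  · rintro ⟨h, -⟩
    exact h
  · rintro ⟨h, h'⟩
    refine ⟨⟨h, h'⟩, ?_⟩
    intro hxy
    exact h (by rw [Sym2.mk_isDiag_iff]; exact hxy)

open Classical in
theorem pat_count {n k : ℕ} (Bs : Finset (Pair n)) {v : Fin k → Fin n} (hv : Function.Injective v) :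
    #(Bs ∩ prs v) =
      #(univ.filter fun p : Fin k × Fin k => p.1 < p.2 ∧ (gr Bs).Adj (v p.1) (v p.2)) := by
  symm
  have hd : ∀ p : Fin k × Fin k, p ∈ (univ.filter fun p : Fin k × Fin k => p.1 < p.2 ∧
      (gr Bs).Adj (v p.1) (v p.2)) → ¬ (s(v p.1, v p.2) : Sym2 (Fin n)).IsDiag := by
    intro p hp h
    rw [Sym2.mk_isDiag_iff] at h
    exact absurd (hv h) (ne_of_lt (Finset.mem_filter.1 hp).2.1)
  refine Finset.card_bij (fun p hp => (⟨s(v p.1, v p.2), hd p hp⟩ : Pair n)) ?_ ?_ ?_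
  · intro p hp
    obtain ⟨h, h'⟩ := (pat_adj Bs _ _).1 (Finset.mem_filter.1 hp).2.2
    refine Finset.mem_inter.2 ⟨h', ?_⟩
    rw [est_mem_prs]
    exact ⟨p.1, p.2, rfl⟩
  · intro p hp q hq h
    have h1 : s(v p.1, v p.2) = s(v q.1, v q.2) := congrArg Subtype.val h
    have hp' := (Finset.mem_filter.1 hp).2.1
    have hq' := (Finset.mem_filter.1 hq).2.1
    rw [Sym2.eq_iff] at h1
    rcases h1 with ⟨h1, h2⟩ | ⟨h1, h2⟩
    · exact Prod.ext (hv h1) (hv h2)
    · have h3 := hv h1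
      have h4 := hv h2
      rw [h3, h4] at hp'
      exact absurd hp' (not_lt.2 hq'.le)
  · intro e he
    obtain ⟨he1, he2⟩ := Finset.mem_inter.1 he
    rw [est_mem_prs] at he2
    obtain ⟨i, j, hij⟩ := he2
    have hne : i ≠ j := by
      rintro rfl
      apply e.2
      rw [hij, Sym2.mk_isDiag_iff]
    have hmem : ∀ i j : Fin k, (e : Sym2 (Fin n)) = s(v i, v j) → (gr Bs).Adj (v i) (v j) := by
      intro i j hij
      rw [pat_adj]
      have h1 : ¬ (s(v i, v j) : Sym2 (Fin n)).IsDiag := by rw [← hij]; exact e.2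
      refine ⟨h1, ?_⟩
      have h2 : (⟨s(v i, v j), h1⟩ : Pair n) = e := Subtype.ext hij.symm
      rw [h2]
      exact he1
    rcases lt_or_gt_of_ne hne with h | h
    · exact ⟨(i, j), Finset.mem_filter.2 ⟨Finset.mem_univ _, h, hmem i j hij⟩, Subtype.ext hij.symm⟩
    · have hij' : (e : Sym2 (Fin n)) = s(v j, v i) := by rw [hij, Sym2.eq_swap]
      exact ⟨(j, i), Finset.mem_filter.2 ⟨Finset.mem_univ _, h, hmem j i hij'⟩, Subtype.ext hij'.symm⟩

open Classical in
theorem pat_count' {n k : ℕ} (Bs : Finset (Pair n)) {v : Fin k → Fin n} (hv : Function.Injective v) :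
    #(Bs ∩ prs v) = ∑ i : Fin k, ∑ j : Fin k, if i < j then (decide ((gr Bs).Adj (v i) (v j))).toNat else 0 := by
  rw [pat_count Bs hv, Finset.card_filter, Fintype.sum_prod_type]
  refine Finset.sum_congr rfl fun i _ => Finset.sum_congr rfl fun j _ => ?_
  by_cases h1 : i < j
  · by_cases h2 : (gr Bs).Adj (v i) (v j)
    · simp [h1, h2]
    · simp [h1, h2]
  · simp [h1]

theorem pat_four {n : ℕ} (Bs : Finset (Pair n)) {w : Fin 4 → Fin n} (hw : Function.Injective w)
    (h4 : #(Bs ∩ prs w) = 4) : ∃ π : Equiv.Perm (Fin 4),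
      (gr Bs).Adj (w (π 0)) (w (π 1)) ∧ (gr Bs).Adj (w (π 2)) (w (π 3)) := by
  classical
  rw [pat_count' Bs hw] at h4
  simp only [Fin.sum_univ_four] at h4
  simp only [Fin.isValue, lt_self_iff_false, if_false, zero_add, add_zero, Fin.reduceLT, if_true] at h4
  have h5 := pat_dec4 (decide ((gr Bs).Adj (w 0) (w 1))) (decide ((gr Bs).Adj (w 0) (w 2)))
    (decide ((gr Bs).Adj (w 0) (w 3))) (decide ((gr Bs).Adj (w 1) (w 2)))
    (decide ((gr Bs).Adj (w 1) (w 3))) (decide ((gr Bs).Adj (w 2) (w 3))) (by omega)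
  simp only [decide_eq_true_eq] at h5
  rcases h5 with ⟨h1, h2⟩ | ⟨h1, h2⟩ | ⟨h1, h2⟩
  · exact ⟨1, h1, h2⟩
  · refine ⟨Equiv.swap 1 2, ?_, ?_⟩
    · have e0 : (Equiv.swap (1 : Fin 4) 2) 0 = 0 := by decide
      have e1 : (Equiv.swap (1 : Fin 4) 2) 1 = 2 := by decide
      rw [e0, e1]; exact h1
    · have e0 : (Equiv.swap (1 : Fin 4) 2) 2 = 1 := by decide
      have e1 : (Equiv.swap (1 : Fin 4) 2) 3 = 3 := by decide
      rw [e0, e1]; exact h2
  · refine ⟨Equiv.swap 1 3, ?_, ?_⟩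
    · have e0 : (Equiv.swap (1 : Fin 4) 3) 0 = 0 := by decide
      have e1 : (Equiv.swap (1 : Fin 4) 3) 1 = 3 := by decide
      rw [e0, e1]; exact h1
    · have e0 : (Equiv.swap (1 : Fin 4) 3) 2 = 2 := by decide
      have e1 : (Equiv.swap (1 : Fin 4) 3) 3 = 1 := by decide
      rw [e0, e1]; exact h2.symm

theorem pat_iso {n : ℕ} (Bs : Finset (Pair n)) {v : Fin 5 → Fin n} (m : Fin 5)
    (hm : ∀ j, ¬ (gr Bs).Adj (v m) (v j)) :
    Bs ∩ prs (four (v ∘ Equiv.swap m 4)) = Bs ∩ prs v := by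
  ext e
  simp only [Finset.mem_inter, est_mem_prs]
  refine and_congr_right fun he => ?_
  constructor
  · rintro ⟨i, j, hij⟩
    exact ⟨_, _, hij⟩
  · rintro ⟨i, j, hij⟩
    have hd : ¬ (s(v i, v j) : Sym2 (Fin n)).IsDiag := by rw [← hij]; exact e.2
    have hadj : (gr Bs).Adj (v i) (v j) := by
      rw [pat_adj]
      refine ⟨hd, ?_⟩
      have h2 : (⟨s(v i, v j), hd⟩ : Pair n) = e := Subtype.ext hij.symm
      rw [h2]
      exact he
    have hi : i ≠ m := by
      rintro rfl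
      exact hm j hadj
    have hj : j ≠ m := by
      rintro rfl
      exact hm i hadj.symm
    have key : ∀ m i : Fin 5, i ≠ m → ∃ i' : Fin 4, (Equiv.swap m 4) i'.castSucc = i := by decide
    obtain ⟨i', hi'⟩ := key m i hi
    obtain ⟨j', hj'⟩ := key m j hj
    refine ⟨i', j', ?_⟩
    rw [hij]
    unfold four
    simp only [Function.comp_apply]
    rw [hi', hj']

theorem pat_five {n : ℕ} (Bs : Finset (Pair n)) {v : Fin 5 → Fin n} (hv : Function.Injective v)
    (h5 : #(Bs ∩ prs v) = 5) :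
    (∃ π : Equiv.Perm (Fin 5), Cov (gr Bs) (v ∘ π)) ∨
      ∃ π : Equiv.Perm (Fin 5), #(Bs ∩ prs (four (v ∘ π))) = 5 := by
  classical
  have hcount := h5
  rw [pat_count' Bs hv] at hcount
  simp only [Fin.sum_univ_five] at hcount
  simp only [Fin.isValue, lt_self_iff_false, if_false, zero_add, add_zero, Fin.reduceLT, if_true] at hcount
  set a : Fin 5 → Fin 5 → Bool := fun i j => decide ((gr Bs).Adj (v i) (v j)) with ha
  have hM : ∀ i j, patM (a 0 1) (a 0 2) (a 0 3) (a 0 4) (a 1 2) (a 1 3) (a 1 4) (a 2 3) (a 2 4) (a 3 4) i j =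
      a i j := by
    have hsymm : ∀ i j, a i j = a j i := by
      intro i j
      rw [ha]
      simp only [decide_eq_decide]
      exact SimpleGraph.adj_comm _ _ _
    have hdiag : ∀ i, a i i = false := by
      intro i
      rw [ha]
      simp
    intro i j
    fin_cases i <;> fin_cases j <;> first | rfl | exact (hdiag _).symm | exact hsymm _ _
  have h6 := pat_dec (a 0 1) (a 0 2) (a 0 3) (a 0 4) (a 1 2) (a 1 3) (a 1 4) (a 2 3) (a 2 4) (a 3 4)
    (by simp only [ha]; omega)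
  simp only [hM] at h6
  rcases h6 with ⟨t, ht, h1, h2, j, h3⟩ | ⟨m, hm⟩
  · left
    refine ⟨Equiv.ofBijective t (Finite.injective_iff_bijective.1 (patL_inj t ht)), ?_, ?_, j, ?_⟩
    · simpa [ha] using h1
    · simpa [ha] using h2
    · simpa [ha] using h3
  · right
    refine ⟨Equiv.swap m 4, ?_⟩
    rw [pat_iso Bs m (fun j => by simpa [ha] using hm j)]
    exact h5

end H2.K5
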