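import Pool.Agent.H2.K5.Defs

/-!
# PEEL: a graph with few edges inside a locally sparse graph has few triangles

By strong induction on `#A`: `tri B A ≤ 12 * epairs B A` for every `A`. For `A` nonempty there is
`v ∈ A` with `degIn B A v ≤ s`: otherwise `#A (s+1) ≤ epairs B A ≤ epairs B univ ≤ 2 b`, so
`epairs B A ≤ epairs G A < #A (s+1)` by `Core`. Let `N = {y ∈ A | B.Adj v y}`, `#N ≤ s`. Then
`tri B A = tri B (A.erase v) + 3 * epairs B N ≤ tri B (A.erase v) + 3 * epairs G N
≤ tri B (A.erase v) + 24 #N` (`Loc`), and `epairs B A = epairs B (A.erase v) + 2 #N`.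
-/

set_option autoImplicit false
set_option linter.unusedSectionVars false

namespace H2.K5

open Finset

section general

open Classical in
/-- indicator of adjacency -/
noncomputable def peelf {V : Type*} (G : SimpleGraph V) (x y : V) : ℕ := if G.Adj x y then 1 else 0

variable {V : Type*} [Fintype V]

omit [Fintype V] in
theorem peelf_self (G : SimpleGraph V) (x : V) : peelf G x x = 0 := by
  unfold peelf
  rw [if_neg (G.loopless.irrefl x)]

omit [Fintype V] in
theorem peelf_comm (G : SimpleGraph V) (x y : V) : peelf G x y = peelf G y x := by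
  unfold peelf
  by_cases h : G.Adj x y
  · rw [if_pos h, if_pos h.symm]
  · rw [if_neg h, if_neg fun h' => h h'.symm]

theorem peel_epairs (G : SimpleGraph V) (A : Finset V) :
    epairs G A = ∑ x ∈ A, ∑ y ∈ A, peelf G x y := by
  classical
  unfold epairs peelf
  rw [card_filter, sum_product]

theorem peel_tri (G : SimpleGraph V) (A : Finset V) :
    tri G A = ∑ x ∈ A, ∑ y ∈ A, ∑ z ∈ A, peelf G x y * peelf G x z * peelf G y z := by
  classical
  unfold tri peelf
  rw [card_filter, sum_product]
  refine sum_congr rfl fun x _ => ?_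
  rw [sum_product]
  refine sum_congr rfl fun y _ => sum_congr rfl fun z _ => ?_
  by_cases h1 : G.Adj x y <;> by_cases h2 : G.Adj x z <;> by_cases h3 : G.Adj y z <;>
    simp [h1, h2, h3]

theorem peel_deg (G : SimpleGraph V) (A : Finset V) (x : V) :
    degIn G A x = ∑ y ∈ A, peelf G x y := by
  classical
  unfold degIn peelf
  rw [card_filter]

theorem peel_epairs_insert [DecidableEq V] (G : SimpleGraph V) {A : Finset V} {v : V}
    (hv : v ∉ A) : epairs G (insert v A) = epairs G A + 2 * degIn G A v := by
  rw [peel_epairs, peel_epairs, peel_deg, sum_insert hv, sum_insert hv, peelf_self]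
  have h1 : ∑ x ∈ A, ∑ y ∈ insert v A, peelf G x y =
      ∑ x ∈ A, peelf G v x + ∑ x ∈ A, ∑ y ∈ A, peelf G x y := by
    rw [← sum_add_distrib]
    refine sum_congr rfl fun x _ => ?_
    rw [sum_insert hv, peelf_comm G x v]
  rw [h1]
  ring

theorem peel_tri_insert [DecidableEq V] (G : SimpleGraph V) {A N : Finset V} {v : V}
    (hv : v ∉ A) (hN : ∀ y, y ∈ N ↔ y ∈ A ∧ G.Adj v y) :
    tri G (insert v A) = tri G A + 3 * epairs G N := by
  classical
  have hNA : N = A.filter (fun y => G.Adj v y) := by
    ext y
    rw [hN, mem_filter]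
  have h0 : epairs G N = ∑ y ∈ A, ∑ z ∈ A, peelf G v y * peelf G v z * peelf G y z := by
    rw [peel_epairs, hNA, sum_filter]
    refine sum_congr rfl fun y _ => ?_
    by_cases hy : G.Adj v y
    · rw [if_pos hy, sum_filter]
      refine sum_congr rfl fun z _ => ?_
      by_cases hz : G.Adj v z
      · rw [if_pos hz]
        have h1 : peelf G v y = 1 := if_pos hy
        have h2 : peelf G v z = 1 := if_pos hz
        rw [h1, h2]
        ring
      · rw [if_neg hz]
        have h2 : peelf G v z = 0 := if_neg hz
        rw [h2]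
        ring
    · rw [if_neg hy]
      symm
      refine sum_eq_zero fun z _ => ?_
      have h1 : peelf G v y = 0 := if_neg hy
      rw [h1]
      ring
  rw [h0, peel_tri, peel_tri, sum_insert hv]
  have h1 : ∑ y ∈ insert v A, ∑ z ∈ insert v A, peelf G v y * peelf G v z * peelf G y z =
      ∑ y ∈ A, ∑ z ∈ A, peelf G v y * peelf G v z * peelf G y z := by
    rw [sum_insert hv, peelf_self]
    simp only [zero_mul, sum_const_zero, zero_add]
    refine sum_congr rfl fun y _ => ?_
    rw [sum_insert hv, peelf_self]
    ring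
  have h2 : ∑ x ∈ A, ∑ y ∈ insert v A, ∑ z ∈ insert v A,
      peelf G x y * peelf G x z * peelf G y z =
      (∑ x ∈ A, ∑ z ∈ A, peelf G v x * peelf G v z * peelf G x z) +
      ((∑ x ∈ A, ∑ y ∈ A, peelf G v x * peelf G v y * peelf G x y) +
      ∑ x ∈ A, ∑ y ∈ A, ∑ z ∈ A, peelf G x y * peelf G x z * peelf G y z) := by
    rw [← sum_add_distrib, ← sum_add_distrib]
    refine sum_congr rfl fun x _ => ?_
    rw [sum_insert hv]
    congr 1
    · rw [sum_insert hv, peelf_self, mul_zero, zero_add]
      refine sum_congr rfl fun z _ => ?_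
      rw [peelf_comm G x v]
      ring
    · rw [← sum_add_distrib]
      refine sum_congr rfl fun y _ => ?_
      rw [sum_insert hv, peelf_comm G x v, peelf_comm G y v]
      ring
  rw [h1, h2]
  ring

theorem peel_mono {G H : SimpleGraph V} (h : G ≤ H) (x y : V) : peelf G x y ≤ peelf H x y := by
  unfold peelf
  by_cases h1 : G.Adj x y
  · rw [if_pos h1, if_pos (h h1)]
  · rw [if_neg h1]
    exact Nat.zero_le _

theorem peel_epairs_mono {G H : SimpleGraph V} (h : G ≤ H) (A : Finset V) :
    epairs G A ≤ epairs H A := by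
  rw [peel_epairs, peel_epairs]
  exact sum_le_sum fun x _ => sum_le_sum fun y _ => peel_mono h x y

theorem peel_epairs_subset (G : SimpleGraph V) {A C : Finset V} (h : A ⊆ C) :
    epairs G A ≤ epairs G C := by
  rw [peel_epairs, peel_epairs]
  refine (sum_le_sum fun x _ => sum_le_sum_of_subset h).trans (sum_le_sum_of_subset h)

theorem degIn_mono {G H : SimpleGraph V} (h : G ≤ H) (A : Finset V)
    (x : V) : degIn G A x ≤ degIn H A x := by
  rw [peel_deg, peel_deg]
  exact sum_le_sum fun y _ => peel_mono h x y

end general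

theorem peel {V : Type*} [Fintype V] (G B : SimpleGraph V) (hBG : B ≤ G) (s b : ℕ)
    (hb : epairs B univ ≤ 2 * b) (hL : Loc G s) (hC : Core G s b) :
    tri B univ ≤ 24 * b := by
  classical
  have key : ∀ A : Finset V, tri B A ≤ 12 * epairs B A := by
    intro A
    induction A using Finset.strongInduction with
    | H A ih =>
      rcases A.eq_empty_or_nonempty with rfl | hne
      · rw [peel_tri]
        simp
      · have hex : ∃ v ∈ A, degIn B A v ≤ s := by
          by_contra hcon
          push Not at hcon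
          have h1 : #A * (s + 1) ≤ epairs B A := by
            rw [peel_epairs]
            have h2 : ∀ x ∈ A, s + 1 ≤ ∑ y ∈ A, peelf B x y := by
              intro x hx
              rw [← peel_deg]
              exact hcon x hx
            have h3 := sum_le_sum h2
            rwa [sum_const, smul_eq_mul] at h3
          have h4 : epairs B A ≤ 2 * b := (peel_epairs_subset B (subset_univ A)).trans hb
          have h5 := hC A hne (h1.trans h4)
          have h6 := peel_epairs_mono hBG A
          omega
        obtain ⟨v, hv, hdv⟩ := hex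
        have hvn : v ∉ A.erase v := notMem_erase v A
        have hins : insert v (A.erase v) = A := insert_erase hv
        have hdeg : degIn B A v = degIn B (A.erase v) v := by
          rw [peel_deg, peel_deg, ← hins, sum_insert hvn, peelf_self, zero_add, hins]
        let N := (A.erase v).filter (fun y => B.Adj v y)
        have hN : ∀ y, y ∈ N ↔ y ∈ A.erase v ∧ B.Adj v y := fun y => mem_filter
        have hcN : #N = degIn B (A.erase v) v := by
          unfold degIn
          rfl
        have h7 := peel_tri_insert B hvn hN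
        have h8 := peel_epairs_insert B hvn
        rw [hins] at h7 h8
        have h9 := ih (A.erase v) (erase_ssubset hv)
        have h10 := hL v N (fun x hx => hBG ((hN x).1 hx).2) (by rw [hcN, ← hdeg]; exact hdv)
        have h11 := peel_epairs_mono hBG N
        rw [h7, h8, ← hcN]
        omega
  have h1 := key univ
  omega

theorem peel_gr_adj {n : ℕ} (B : Finset (Pair n)) (x y : Fin n) :
    (gr B).Adj x y ↔ ∃ e ∈ B, (e : Sym2 (Fin n)) = s(x, y) := by
  unfold gr
  rw [SimpleGraph.fromEdgeSet_adj]
  constructor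
  · rintro ⟨⟨h, he⟩, _⟩
    exact ⟨_, he, rfl⟩
  · rintro ⟨⟨e, hd⟩, he, rfl⟩
    refine ⟨⟨hd, he⟩, ?_⟩
    intro hxy
    exact hd (Sym2.mk_isDiag_iff.2 hxy)

theorem epairs_gr {n : ℕ} (B : Finset (Pair n)) : epairs (gr B) univ = 2 * #B := by
  classical
  unfold epairs
  have h1 := card_eq_sum_card_fiberwise (f := fun p : Fin n × Fin n => s(p.1, p.2))
    (s := (univ ×ˢ univ).filter (fun p : Fin n × Fin n => (gr B).Adj p.1 p.2))
    (t := B.image (fun e : Pair n => (e : Sym2 (Fin n)))) (by
      intro p hp
      rw [mem_coe, mem_filter, peel_gr_adj] at hp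
      obtain ⟨-, e, he, hep⟩ := hp
      rw [mem_coe, mem_image]
      exact ⟨e, he, hep⟩)
  have h2 : ∀ b ∈ B.image (fun e : Pair n => (e : Sym2 (Fin n))),
      #(((univ ×ˢ univ).filter (fun p : Fin n × Fin n => (gr B).Adj p.1 p.2)).filter
        (fun p => s(p.1, p.2) = b)) = 2 := by
    intro b hb
    rw [mem_image] at hb
    obtain ⟨⟨e, hd⟩, he, rfl⟩ := hb
    induction e using Sym2.inductionOn with
    | hf x y =>
      have hxy : x ≠ y := fun h => hd (Sym2.mk_isDiag_iff.2 h)
      have h3 : ((univ ×ˢ univ).filter (fun p : Fin n × Fin n => (gr B).Adj p.1 p.2)).filter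
          (fun p => s(p.1, p.2) = s(x, y)) = {(x, y), (y, x)} := by
        ext ⟨a, c⟩
        rw [mem_filter, mem_filter, mem_insert, mem_singleton, Sym2.eq_iff,
          Prod.mk.injEq, Prod.mk.injEq]
        constructor
        · exact fun h => h.2
        · intro h
          refine ⟨⟨mem_product.2 ⟨mem_univ _, mem_univ _⟩, ?_⟩, h⟩
          rcases h with ⟨rfl, rfl⟩ | ⟨rfl, rfl⟩
          · exact (peel_gr_adj B _ _).2 ⟨⟨s(a, c), hd⟩, he, rfl⟩
          · exact (peel_gr_adj B _ _).2 ⟨⟨s(c, a), hd⟩, he, Sym2.eq_swap⟩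
      rw [h3, Finset.card_pair]
      intro h
      exact hxy (Prod.mk.inj h).1
  have h4 : #(B.image (fun e : Pair n => (e : Sym2 (Fin n)))) = #B :=
    card_image_of_injective _ Subtype.val_injective
  rw [h1, sum_congr rfl h2, sum_const, h4, smul_eq_mul, mul_comm]

theorem gr_mono {n : ℕ} {B C : Finset (Pair n)} (h : B ⊆ C) : gr B ≤ gr C := by
  intro x y hxy
  rw [peel_gr_adj] at hxy ⊢
  obtain ⟨e, he, h1⟩ := hxy
  exact ⟨e, h he, h1⟩

theorem Loc_anti {V : Type*} [Fintype V] {G H : SimpleGraph V} (h : G ≤ H) {s : ℕ}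
    (hL : Loc H s) : Loc G s := fun v S hS hs =>
  (peel_epairs_mono h S).trans (hL v S (fun x hx => h (hS x hx)) hs)

theorem Core_anti {V : Type*} [Fintype V] {G H : SimpleGraph V} (h : G ≤ H) {s b : ℕ}
    (hC : Core H s b) : Core G s b := fun A hA hb =>
  lt_of_le_of_lt (peel_epairs_mono h A) (hC A hA hb)

theorem codeg_mono {V : Type*} [Fintype V] {G H : SimpleGraph V} (h : G ≤ H) (x y : V) :
    codeg G x y ≤ codeg H x y := by
  classical
  unfold codeg
  refine card_le_card fun z hz => ?_
  rw [mem_filter] at hz ⊢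
  exact ⟨hz.1, h hz.2.1, h hz.2.2⟩

end H2.K5
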