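import Pool.Agent.H2.K5.Exb

/-!
# PERM: the uniform ordering and `Ex`

Claim: for a nodup list `h` of length `i ≤ t ≤ M = card E`,
`∑_{σ : hist σ i = h} F (hist σ t) = (M - i)! * Ex (t - i) h F`. Two inductions on `M - i`,
resp. `t - i`: first (`F = 1`) `#{σ | hist σ i = h} = (M - i)!` (for `i = M` exactly one `σ`), since
`{σ | hist σ i = h}` is the disjoint union over `e ∈ rest h` of `{σ | hist σ (i+1) = e :: h}`.
`exists_hist`: extend `l` to a list with all elements.
-/

set_option autoImplicit false

namespace H2.K5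

open Finset

variable {E : Type*} [Fintype E] [DecidableEq E]

omit [Fintype E] [DecidableEq E] in
theorem perm_succ {M : ℕ} (σ : Fin M ≃ E) {i : ℕ} (hi : i < M) :
    hist σ (i + 1) = σ ⟨i, hi⟩ :: hist σ i := by
  rw [hist, dif_pos hi]

omit [Fintype E] [DecidableEq E] in
theorem perm_mem {M : ℕ} (σ : Fin M ≃ E) (i : ℕ) (e : E) :
    e ∈ hist σ i ↔ (σ.symm e).val < i := by
  induction i with
  | zero => simp [hist]
  | succ i ih =>
    by_cases hi : i < M
    · rw [perm_succ σ hi, List.mem_cons, ih]
      constructor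
      · rintro (h | h)
        · rw [h, Equiv.symm_apply_apply]
          exact Nat.lt_succ_self i
        · omega
      · intro h
        rcases Nat.lt_succ_iff_lt_or_eq.1 h with h | h
        · exact Or.inr h
        · left
          rw [← Equiv.symm_apply_eq]
          exact Fin.ext h
    · rw [hist, dif_neg hi, ih]
      have := (σ.symm e).isLt
      omega

omit [Fintype E] [DecidableEq E] in
theorem hist_nodup {M : ℕ} (σ : Fin M ≃ E) (i : ℕ) : (hist σ i).Nodup := by
  induction i with
  | zero => exact List.nodup_nil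
  | succ i ih =>
    by_cases hi : i < M
    · rw [perm_succ σ hi, List.nodup_cons]
      refine ⟨?_, ih⟩
      rw [perm_mem, Equiv.symm_apply_apply]
      exact lt_irrefl _
    · rw [hist, dif_neg hi]
      exact ih

omit [Fintype E] [DecidableEq E] in
theorem hist_length {M : ℕ} (σ : Fin M ≃ E) {i : ℕ} (hi : i ≤ M) : (hist σ i).length = i := by
  induction i with
  | zero => rfl
  | succ i ih =>
    rw [perm_succ σ (by omega), List.length_cons, ih (by omega)]

omit [Fintype E] [DecidableEq E] in
theorem perm_take {M : ℕ} (σ : Fin M ≃ E) (K : List E) (hK : K.length = M)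
    (h : ∀ (i : ℕ) (hi : i < M), σ ⟨i, hi⟩ = K[i]'(by omega)) {i : ℕ} (hi : i ≤ M) :
    hist σ i = (K.take i).reverse := by
  induction i with
  | zero => simp [hist]
  | succ i ih =>
    have hi' : i < K.length := by omega
    rw [perm_succ σ (by omega), ih (by omega), h i (by omega), List.take_succ_eq_append_getElem hi',
      List.reverse_append]
    rfl

theorem exists_hist (l : List E) (hl : l.Nodup) :
    ∃ σ : Fin (Fintype.card E) ≃ E, hist σ l.length = l := by
  classical
  let r : List E := (univ \ l.toFinset).toList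
  have hr : r.Nodup := nodup_toList _
  have hmem : ∀ x, x ∈ l.reverse ++ r := by
    intro x
    rw [List.mem_append, List.mem_reverse, mem_toList, mem_sdiff, List.mem_toFinset]
    by_cases h : x ∈ l
    · exact Or.inl h
    · exact Or.inr ⟨mem_univ _, h⟩
  have hnd : (l.reverse ++ r).Nodup := by
    refine List.nodup_append.2 ⟨List.nodup_reverse.2 hl, hr, ?_⟩
    intro a ha b hb hab
    rw [List.mem_reverse] at ha
    rw [mem_toList, mem_sdiff, List.mem_toFinset] at hb
    rw [hab] at ha
    exact hb.2 ha
  have hlen : (l.reverse ++ r).length = Fintype.card E := by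
    have h1 : (l.reverse ++ r).toFinset = univ := by
      ext x
      simpa using hmem x
    rw [← List.toFinset_card_of_nodup hnd, h1, card_univ]
  let σ0 := List.Nodup.getEquivOfForallMemList (l.reverse ++ r) hnd hmem
  let σ : Fin (Fintype.card E) ≃ E := (finCongr hlen.symm).trans σ0
  have hlM : l.length ≤ Fintype.card E := by
    rw [← hlen]
    simp
  refine ⟨σ, ?_⟩
  rw [perm_take σ (l.reverse ++ r) hlen (fun i hi => rfl) hlM]
  have h2 : (l.reverse ++ r).take l.length = l.reverse := by
    rw [← List.length_reverse (as := l), List.take_left]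
  rw [h2, List.reverse_reverse]

theorem perm_split {i : ℕ} (hi : i < Fintype.card E) {h : List E} (_ : h.Nodup)
    (G : (Fin (Fintype.card E) ≃ E) → ℝ) :
    (∑ σ : Fin (Fintype.card E) ≃ E, if hist σ i = h then G σ else 0) =
      ∑ e ∈ rest h, ∑ σ : Fin (Fintype.card E) ≃ E,
        if hist σ (i + 1) = e :: h then G σ else 0 := by
  rw [sum_comm]
  refine sum_congr rfl fun σ _ => ?_
  by_cases hh : hist σ i = h
  · rw [if_pos hh]
    have h1 : ∀ e ∈ rest h, (if hist σ (i + 1) = e :: h then G σ else 0) =
        if σ ⟨i, hi⟩ = e then G σ else 0 := by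
      intro e _
      have h2 : (hist σ (i + 1) = e :: h) ↔ σ ⟨i, hi⟩ = e := by
        rw [perm_succ σ hi, List.cons.injEq]
        exact ⟨fun h' => h'.1, fun h' => ⟨h', hh⟩⟩
      simp only [h2]
    rw [sum_congr rfl h1, sum_ite_eq, if_pos]
    rw [mem_rest, ← hh, perm_mem, Equiv.symm_apply_apply]
    exact lt_irrefl _
  · rw [if_neg hh]
    symm
    refine sum_eq_zero fun e _ => if_neg ?_
    rw [perm_succ σ hi, List.cons.injEq]
    exact fun h' => hh h'.2

omit [Fintype E] [DecidableEq E] in
theorem perm_inj {M : ℕ} {σ τ : Fin M ≃ E} {i : ℕ} (hi : i ≤ M) (h : hist σ i = hist τ i) :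
    ∀ (j : ℕ) (hj : j < i), σ ⟨j, by omega⟩ = τ ⟨j, by omega⟩ := by
  induction i with
  | zero => intro j hj; omega
  | succ i ih =>
    rw [perm_succ σ (by omega), perm_succ τ (by omega), List.cons.injEq] at h
    intro j hj
    rcases Nat.lt_succ_iff_lt_or_eq.1 hj with h1 | h1
    · exact ih (by omega) h.2 j h1
    · subst h1
      exact h.1

theorem perm_count (k : ℕ) : ∀ (i : ℕ), i + k = Fintype.card E → ∀ h : List E, h.Nodup →
    h.length = i →
    (∑ σ : Fin (Fintype.card E) ≃ E, if hist σ i = h then (1 : ℝ) else 0) = k.factorial := by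
  induction k with
  | zero =>
    intro i hi h hn hlen
    have hi' : i = Fintype.card E := by omega
    obtain ⟨σ, hσ⟩ := exists_hist h hn
    rw [hlen] at hσ
    rw [sum_eq_single σ]
    · rw [if_pos hσ]
      simp
    · intro τ _ hτ
      refine if_neg fun h' => hτ ?_
      ext ⟨j, hj⟩
      exact perm_inj (le_of_eq hi') (h'.trans hσ.symm) j (by omega)
    · intro h'
      exact absurd (mem_univ _) h'
  | succ k ih =>
    intro i hi h hn hlen
    rw [perm_split (by omega) hn]
    have h1 : ∀ e ∈ rest h, (∑ σ : Fin (Fintype.card E) ≃ E,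
        if hist σ (i + 1) = e :: h then (1 : ℝ) else 0) = k.factorial := by
      intro e he
      rw [mem_rest] at he
      exact ih (i + 1) (by omega) (e :: h) (List.nodup_cons.2 ⟨he, hn⟩)
        (by rw [List.length_cons, hlen])
    rw [sum_congr rfl h1, sum_const, nsmul_eq_mul, card_rest hn, hlen, Nat.factorial_succ]
    have h2 : Fintype.card E - i = k + 1 := by omega
    rw [h2]
    push_cast
    ring

theorem perm_main (F : List E → ℝ) (s : ℕ) : ∀ (i k : ℕ), i + k = Fintype.card E →
    i + s ≤ Fintype.card E → ∀ h : List E, h.Nodup → h.length = i →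
    (∑ σ : Fin (Fintype.card E) ≃ E, if hist σ i = h then F (hist σ (i + s)) else 0) =
      k.factorial * Ex s h F := by
  induction s with
  | zero =>
    intro i k hik _ h hn hlen
    have h1 : ∀ σ : Fin (Fintype.card E) ≃ E,
        (if hist σ i = h then F (hist σ (i + 0)) else 0) =
          (if hist σ i = h then (1 : ℝ) else 0) * F h := by
      intro σ
      rw [Nat.add_zero]
      split_ifs with h'
      · rw [h', one_mul]
      · rw [zero_mul]
    rw [sum_congr rfl fun σ _ => h1 σ, ← sum_mul, perm_count k i hik h hn hlen]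
    rfl
  | succ s ih =>
    intro i k hik his h hn hlen
    rw [perm_split (by omega) hn]
    obtain ⟨k', rfl⟩ : ∃ k', k = k' + 1 := ⟨k - 1, by omega⟩
    have h1 : ∀ e ∈ rest h, (∑ σ : Fin (Fintype.card E) ≃ E,
        if hist σ (i + 1) = e :: h then F (hist σ (i + (s + 1))) else 0) =
          k'.factorial * Ex s (e :: h) F := by
      intro e he
      rw [mem_rest] at he
      have h2 := ih (i + 1) k' (by omega) (by omega) (e :: h) (List.nodup_cons.2 ⟨he, hn⟩)
        (by rw [List.length_cons, hlen])
      rw [show i + (s + 1) = i + 1 + s by ring]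
      exact h2
    rw [sum_congr rfl h1, ← mul_sum, exb_succ, card_rest hn, hlen, Nat.factorial_succ]
    have h2 : Fintype.card E - i = k' + 1 := by omega
    rw [h2]
    have h3 : ((k' + 1 : ℕ) : ℝ) ≠ 0 := by positivity
    push_cast at h3 ⊢
    field_simp

theorem avg_hist {t : ℕ} (ht : t ≤ Fintype.card E) (F : List E → ℝ) :
    (∑ σ : Fin (Fintype.card E) ≃ E, F (hist σ t)) /
      (Fintype.card (Fin (Fintype.card E) ≃ E) : ℝ) = Ex t [] F := by
  have h1 := perm_main F t 0 (Fintype.card E) (by omega) (by omega) [] List.nodup_nil rfl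
  have h2 := perm_count (Fintype.card E) 0 (by omega) ([] : List E) List.nodup_nil rfl
  have h3 : ∀ σ : Fin (Fintype.card E) ≃ E, hist σ 0 = [] := fun σ => rfl
  simp only [h3, if_true, Nat.zero_add] at h1 h2
  rw [sum_const, nsmul_eq_mul, mul_one, card_univ] at h2
  rw [h1, h2, mul_div_cancel_left₀]
  positivity

end H2.K5
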