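import Pool.Agent.H2.K5.Est

/-!
# Common definitions for the last step
-/

set_option autoImplicit false

namespace H2.K5

open Finset

/-- every strategy with budget `b` fails with probability at least `1 - δ` -/
def Bound (n t b : ℕ) (δ : ℝ) : Prop :=
  ∀ B : List (Pair n) → Finset (Pair n), IsRun B →
    (∀ l : List (Pair n), l.Nodup → l.length = t → #(B l) ≤ b) →
    Ex t [] (fun l => ind (¬ (gr (B l)).CliqueFree 5)) ≤ δ

end H2.K5
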