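import Pool.Agent.H2.K5.Run
import Pool.Agent.H2.K5.DCount

/-!
# SMALL: two simple bounds

`small_main`: for `v` with `prs v ⊆ B l` take the moment `h` of the first purchase in `prs v`; permute
`v` so that `Adj (v 0) (v 1)` in `gr (B h)`; the other nine pairs are offered later. `Ex_crit`,
`crit_hsum_le` (with `m = 1`), `count_edge`. `tiny_main`: `union_bound`.
-/

set_option autoImplicit false

namespace H2.K5

open Finset

theorem small_q_nonneg {n t : ℕ} {q : ℝ} (hq : q = t / Fintype.card (Pair n)) : 0 ≤ q := by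
  rw [hq]
  positivity

/-- a permutation with prescribed values at `0` and `1` -/
theorem small_perm {i j : Fin 5} (hij : i ≠ j) : ∃ π : Equiv.Perm (Fin 5), π 0 = i ∧ π 1 = j := by
  have h0 : Equiv.swap 0 i 0 = i := Equiv.swap_apply_left _ _
  have h1 : Equiv.swap 0 i 1 ≠ i := by
    intro h
    have h2 := (Equiv.swap (0 : Fin 5) i).injective (h.trans h0.symm)
    exact absurd h2 (by decide)
  refine ⟨(Equiv.swap 0 i).trans (Equiv.swap (Equiv.swap 0 i 1) j), ?_, ?_⟩
  · rw [Equiv.trans_apply, h0, Equiv.swap_apply_of_ne_of_ne h1.symm hij]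
  · rw [Equiv.trans_apply, Equiv.swap_apply_left]

theorem small_adj_mono {n : ℕ} {A B : Finset (Pair n)} (h : A ⊆ B) {x y : Fin n}
    (hxy : (gr A).Adj x y) : (gr B).Adj x y := by
  rw [gr_adj] at hxy ⊢
  obtain ⟨e, he, h2⟩ := hxy
  exact ⟨e, h he, h2⟩

theorem small_exists {n : ℕ} {B : List (Pair n) → Finset (Pair n)} (hB : IsRun B)
    {l : List (Pair n)} (hl : l.Nodup) (hK : ¬ (gr (B l)).CliqueFree 5) :
    ∃ (h : List (Pair n)) (v : Fin 5 → Fin n), h <:+ l ∧ CritM B (prs v) 1 h ∧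
      Function.Injective v ∧ (gr (B h)).Adj (v 0) (v 1) ∧ #(prs v \ B h) = 9 ∧
      (∀ e ∈ prs v \ B h, e ∉ h) ∧ prs v \ B h ⊆ l.toFinset := by
  obtain ⟨v, hv, hvB⟩ := (not_cliqueFree_iff (B l)).1 hK
  have hc : #(prs v) = 10 := by rw [card_prs hv]; rfl
  obtain ⟨h, hs, hcr, hn, hd, hno, hsub⟩ := crit_exists hB hl hvB (m := 1) le_rfl
    (by rw [hc]; norm_num)
  obtain ⟨e, he⟩ := card_pos.1 (by rw [hn]; norm_num : 0 < #(B h ∩ prs v))
  rw [mem_inter, est_mem_prs] at he
  obtain ⟨heB, i, j, hij⟩ := he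
  have hne : i ≠ j := by
    rintro rfl
    apply e.2
    rw [hij]
    exact Sym2.mk_isDiag_iff.2 rfl
  obtain ⟨π, h0, h1⟩ := small_perm hne
  refine ⟨h, v ∘ π, hs, ?_, hv.comp π.injective, ?_, ?_, ?_, ?_⟩
  · rw [prs_comp]; exact hcr
  · rw [gr_adj]
    refine ⟨e, heB, ?_⟩
    rw [Function.comp_apply, Function.comp_apply, h0, h1, hij]
  · rw [prs_comp, hd, hc]
  · rw [prs_comp]; exact hno
  · rw [prs_comp]; exact hsub

theorem small_main {n t b : ℕ} (ht : t ≤ Fintype.card (Pair n)) {q : ℝ}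
    (hq : q = t / Fintype.card (Pair n)) {B : List (Pair n) → Finset (Pair n)}
    (hB : IsRun B) (hb : ∀ l : List (Pair n), l.Nodup → l.length = t → #(B l) ≤ b) :
    Ex t [] (fun l => ind (¬ (gr (B l)).CliqueFree 5)) ≤ 2 * b * n ^ 3 * q ^ 9 := by
  have hq0 := small_q_nonneg hq
  let a : (Fin 5 → Fin n) → List (Pair n) → ℝ := fun v h =>
    ind (CritM B (prs v) 1 h ∧ Function.Injective v ∧ (gr (B h)).Adj (v 0) (v 1) ∧
      #(prs v \ B h) = 9 ∧ (∀ e ∈ prs v \ B h, e ∉ h))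
  have ha : ∀ v h, 0 ≤ a v h := fun v h => ind_nonneg _
  have ha1 : ∀ v h, a v h ≠ 0 → (CritM B (prs v) 1 h ∧ Function.Injective v ∧
      (gr (B h)).Adj (v 0) (v 1) ∧ #(prs v \ B h) = 9 ∧ (∀ e ∈ prs v \ B h, e ∉ h)) := by
    intro v h h0
    by_contra hcon
    exact h0 (ind_false hcon)
  have h1 : Ex t [] (fun l => ind (¬ (gr (B l)).CliqueFree 5)) ≤
      Ex t [] (fun l => hsum (fun h => ∑ v ∈ (univ : Finset (Fin 5 → Fin n)),
        a v h * ind (prs v \ B h ⊆ l.toFinset)) l) := by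
    refine Ex_le List.nodup_nil fun l hl hlen _ => ?_
    have hpos : ∀ h : List (Pair n), 0 ≤ ∑ v ∈ (univ : Finset (Fin 5 → Fin n)),
        a v h * ind (prs v \ B h ⊆ l.toFinset) :=
      fun h => sum_nonneg fun v _ => mul_nonneg (ha v h) (ind_nonneg _)
    by_cases hK : ¬ (gr (B l)).CliqueFree 5
    · obtain ⟨h, v, hs, h2, h3, h4, h5, h6, h7⟩ := small_exists hB hl hK
      rw [ind_true hK]
      refine le_trans ?_ (le_hsum hpos hs)
      have h8 : a v h * ind (prs v \ B h ⊆ l.toFinset) = 1 := by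
        have h9 : a v h = 1 := ind_true ⟨h2, h3, h4, h5, h6⟩
        rw [h9, ind_true h7, one_mul]
      rw [← h8]
      exact single_le_sum (f := fun v => a v h * ind (prs v \ B h ⊆ l.toFinset))
        (fun v _ => mul_nonneg (ha v h) (ind_nonneg _)) (mem_univ v)
    · rw [ind_false hK]
      exact critl_nonneg hpos l
  refine h1.trans ?_
  refine (Ex_crit (univ : Finset (Fin 5 → Fin n)) ht a ha (fun v h => prs v \ B h)
    (fun v h h0 => (ha1 v h h0).2.2.2.2)).trans ?_
  rw [← hq]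
  refine (Ex_le (G := fun _ => 2 * b * n ^ 3 * q ^ 9) List.nodup_nil
    fun l hl hlen _ => ?_).trans (Ex_const List.nodup_nil (by simpa using ht) _).le
  have hlen' : l.length = t := by simpa using hlen
  rw [hsum_sum]
  have h2 : ∀ v : Fin 5 → Fin n, hsum (fun h => a v h * q ^ #(prs v \ B h)) l ≤
      q ^ 9 * ind (Function.Injective v ∧ (gr (B l)).Adj (v 0) (v 1)) := by
    intro v
    have h3 : hsum (fun h => a v h * q ^ #(prs v \ B h)) l ≤
        hsum (fun h => q ^ 9 * ind (CritM B (prs v) 1 h ∧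
          (Function.Injective v ∧ (gr (B h)).Adj (v 0) (v 1)))) l := by
      refine hsum_le l fun h _ => ?_
      by_cases h0 : a v h = 0
      · rw [h0, zero_mul]
        exact mul_nonneg (pow_nonneg hq0 _) (ind_nonneg _)
      · have h4 := ha1 v h h0
        rw [h4.2.2.2.1, mul_comm]
        refine mul_le_mul_of_nonneg_left ?_ (pow_nonneg hq0 _)
        exact ind_mono fun h5 => ⟨h5.1, h5.2.1, h5.2.2.1⟩
    refine h3.trans ?_
    rw [hsum_mul]
    refine mul_le_mul_of_nonneg_left ?_ (pow_nonneg hq0 _)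
    refine (crit_hsum_le hB (prs v) le_rfl
      (fun h => Function.Injective v ∧ (gr (B h)).Adj (v 0) (v 1)) ?_).trans ?_
    · intro h hh h5
      exact ⟨h5.1, small_adj_mono (hB.mono hh) h5.2⟩
    · exact ind_mono fun h5 => h5.2
  refine (sum_le_sum fun v _ => h2 v).trans ?_
  rw [← mul_sum]
  have h3 := count_edge (B l)
  have h4 : (#(B l) : ℝ) ≤ b := by exact_mod_cast hb l hl hlen'
  have h5 : 2 * (#(B l) : ℝ) * n ^ 3 ≤ 2 * b * n ^ 3 := by gcongr
  calc q ^ 9 * ∑ v : Fin 5 → Fin n, ind (Function.Injective v ∧ (gr (B l)).Adj (v 0) (v 1))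
      ≤ q ^ 9 * (2 * b * n ^ 3) :=
        mul_le_mul_of_nonneg_left (h3.trans h5) (pow_nonneg hq0 _)
    _ = 2 * b * n ^ 3 * q ^ 9 := by ring

theorem tiny_main {n t : ℕ} (ht : t ≤ Fintype.card (Pair n)) {q : ℝ}
    (hq : q = t / Fintype.card (Pair n)) {B : List (Pair n) → Finset (Pair n)}
    (hB : IsRun B) :
    Ex t [] (fun l => ind (¬ (gr (B l)).CliqueFree 5)) ≤ n ^ 5 * q ^ 10 := by
  classical
  have hq0 := small_q_nonneg hq
  have h1 := union_bound ((univ : Finset (Fin 5 → Fin n)).filter Function.Injective)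
    (fun v => prs v) ht (fun l => ¬ (gr (B l)).CliqueFree 5) (by
      intro l hl hlen hK
      obtain ⟨v, hv, hvB⟩ := (not_cliqueFree_iff (B l)).1 hK
      refine ⟨v, mem_filter.2 ⟨mem_univ _, hv⟩, fun e he => ?_⟩
      exact List.mem_toFinset.2 (hB.mem (hvB he)))
  refine h1.trans ?_
  rw [← hq]
  have h2 : ∀ v ∈ (univ : Finset (Fin 5 → Fin n)).filter Function.Injective,
      q ^ #(prs v) = q ^ 10 := by
    intro v hv
    rw [card_prs (mem_filter.1 hv).2]
    rfl
  rw [sum_congr rfl h2, sum_const, nsmul_eq_mul]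
  refine mul_le_mul_of_nonneg_right ?_ (pow_nonneg hq0 _)
  have h3 : #((univ : Finset (Fin 5 → Fin n)).filter Function.Injective) ≤ n ^ 5 := by
    refine (card_filter_le _ _).trans ?_
    rw [card_univ, Fintype.card_fun, Fintype.card_fin, Fintype.card_fin]
  exact_mod_cast h3

end H2.K5
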