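import Pool.Agent.H2.K5.Reg
import Pool.Agent.H2.K5.Small
import Pool.Agent.H2.K5.Dense

/-!
# REGA: `t ≤ lam n^(3/2)` or tiny; the dense range; the two forms of `Phi`

For `n ≥ 2`: `M = card (Pair n) = n(n-1)/2` (`card_pair`), `n^2/4 ≤ M ≤ n^2/2`, `q = t/M ≤ 4 t/n^2`.
`reg_one`: for `n ≥ n0(lam)`: `lam n^(3/2) ≤ n^(13/8)`, so `Phi n t = n^12/t^7` and
`2 b n^3 q^9 ≤ 2 c 4^9 t^2/n^3 ≤ 2 * 4^9 * c * lam^2`. `reg_two`: `n^5 q^10 ≤ 4^10 (t/n^(3/2))^10`.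
`reg_four`: `b^3 q^5 ≤ c^3 n^10 t^(-5) (4 t/n^2)^5 = 4^5 c^3`.
-/

set_option autoImplicit false

namespace H2.K5

open Finset

private lemma rega_card (n : ℕ) (hn : 2 ≤ n) :
    (n : ℝ) ^ 2 / 4 ≤ (Fintype.card (Pair n) : ℝ) := by
  rw [card_pair, Nat.cast_choose_two]
  have h2 : (2 : ℝ) ≤ n := by exact_mod_cast hn
  nlinarith

private lemma rega_q (n t : ℕ) (hn : 2 ≤ n) :
    (t : ℝ) / Fintype.card (Pair n) ≤ 4 * t / (n : ℝ) ^ 2 := by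
  have hM1 := rega_card n hn
  have hn0 : (0 : ℝ) < n := by exact_mod_cast (by omega : 0 < n)
  have hM0 : (0 : ℝ) < Fintype.card (Pair n) := lt_of_lt_of_le (by positivity) hM1
  rw [div_le_div_iff₀ hM0 (by positivity)]
  have ht : (0 : ℝ) ≤ t := Nat.cast_nonneg t
  nlinarith

private lemma rega_split (x : ℝ) (hx : 0 < x) :
    x ^ 12 = x ^ (10 / 3 : ℝ) * x ^ (26 / 3 : ℝ) ∧ x ^ 7 = x ^ (5 / 3 : ℝ) * x ^ (16 / 3 : ℝ) ∧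
      (x ^ (13 / 8 : ℝ)) ^ (16 / 3 : ℝ) = x ^ (26 / 3 : ℝ) := by
  refine ⟨?_, ?_, ?_⟩
  · rw [← Real.rpow_add hx, ← Real.rpow_natCast]
    norm_num
  · rw [← Real.rpow_add hx, ← Real.rpow_natCast]
    norm_num
  · rw [← Real.rpow_mul hx.le]
    norm_num

theorem Phi_eq_left {n t : ℕ} (hn : 1 ≤ n) (ht : 1 ≤ t) (h : (t : ℝ) ≤ (n : ℝ) ^ (13 / 8 : ℝ)) :
    Phi n t = (n : ℝ) ^ 12 / (t : ℝ) ^ 7 := by
  have hn0 : (0 : ℝ) < n := by exact_mod_cast hn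
  have ht0 : (0 : ℝ) < t := by exact_mod_cast ht
  obtain ⟨a1, -, a3⟩ := rega_split n hn0
  obtain ⟨-, b2, -⟩ := rega_split t ht0
  have h1 : (t : ℝ) ^ (16 / 3 : ℝ) ≤ (n : ℝ) ^ (26 / 3 : ℝ) := by
    rw [← a3]
    exact Real.rpow_le_rpow ht0.le h (by norm_num)
  have p1 : 0 < (t : ℝ) ^ (5 / 3 : ℝ) := Real.rpow_pos_of_pos ht0 _
  have p2 : 0 < (n : ℝ) ^ (10 / 3 : ℝ) := Real.rpow_pos_of_pos hn0 _
  unfold Phi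
  apply max_eq_left
  rw [div_le_div_iff₀ p1 (by positivity), a1, b2]
  calc (n : ℝ) ^ (10 / 3 : ℝ) * ((t : ℝ) ^ (5 / 3 : ℝ) * (t : ℝ) ^ (16 / 3 : ℝ))
      = (n : ℝ) ^ (10 / 3 : ℝ) * (t : ℝ) ^ (5 / 3 : ℝ) * (t : ℝ) ^ (16 / 3 : ℝ) := by ring
    _ ≤ (n : ℝ) ^ (10 / 3 : ℝ) * (t : ℝ) ^ (5 / 3 : ℝ) * (n : ℝ) ^ (26 / 3 : ℝ) :=
      mul_le_mul_of_nonneg_left h1 (by positivity)
    _ = (n : ℝ) ^ (10 / 3 : ℝ) * (n : ℝ) ^ (26 / 3 : ℝ) * (t : ℝ) ^ (5 / 3 : ℝ) := by ring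

theorem Phi_eq_right {n t : ℕ} (hn : 1 ≤ n) (h : (n : ℝ) ^ (13 / 8 : ℝ) ≤ (t : ℝ)) :
    Phi n t = (n : ℝ) ^ (10 / 3 : ℝ) / (t : ℝ) ^ (5 / 3 : ℝ) := by
  have hn0 : (0 : ℝ) < n := by exact_mod_cast hn
  have ht0 : (0 : ℝ) < t := lt_of_lt_of_le (Real.rpow_pos_of_pos hn0 _) h
  obtain ⟨a1, -, a3⟩ := rega_split n hn0
  obtain ⟨-, b2, -⟩ := rega_split t ht0
  have h1 : (n : ℝ) ^ (26 / 3 : ℝ) ≤ (t : ℝ) ^ (16 / 3 : ℝ) := by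
    rw [← a3]
    exact Real.rpow_le_rpow (Real.rpow_pos_of_pos hn0 _).le h (by norm_num)
  have p1 : 0 < (t : ℝ) ^ (5 / 3 : ℝ) := Real.rpow_pos_of_pos ht0 _
  have p2 : 0 < (n : ℝ) ^ (10 / 3 : ℝ) := Real.rpow_pos_of_pos hn0 _
  unfold Phi
  apply max_eq_right
  rw [div_le_div_iff₀ (by positivity) p1, a1, b2]
  calc (n : ℝ) ^ (10 / 3 : ℝ) * (n : ℝ) ^ (26 / 3 : ℝ) * (t : ℝ) ^ (5 / 3 : ℝ)
      = (n : ℝ) ^ (10 / 3 : ℝ) * (t : ℝ) ^ (5 / 3 : ℝ) * (n : ℝ) ^ (26 / 3 : ℝ) := by ring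
    _ ≤ (n : ℝ) ^ (10 / 3 : ℝ) * (t : ℝ) ^ (5 / 3 : ℝ) * (t : ℝ) ^ (16 / 3 : ℝ) :=
      mul_le_mul_of_nonneg_left h1 (by positivity)
    _ = (n : ℝ) ^ (10 / 3 : ℝ) * ((t : ℝ) ^ (5 / 3 : ℝ) * (t : ℝ) ^ (16 / 3 : ℝ)) := by ring

private lemma rega_sq (x : ℝ) (hx : 0 < x) : (x ^ (3 / 2 : ℝ)) ^ 2 = x ^ 3 := by
  rw [← Real.rpow_natCast, ← Real.rpow_mul hx.le, ← Real.rpow_natCast]
  norm_num

theorem reg_one {lam δ : ℝ} (hlam : 0 < lam) (hδ : 0 < δ) : ∃ c : ℝ, 0 < c ∧ ∃ n0 : ℕ,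
    ∀ n, n0 ≤ n → ∀ t b : ℕ, 1 ≤ t → t ≤ Fintype.card (Pair n) →
    (t : ℝ) ≤ lam * (n : ℝ) ^ (3 / 2 : ℝ) → (b : ℝ) ≤ c * Phi n t → Bound n t b δ := by
  obtain ⟨N, hN⟩ := exists_nat_ge (lam ^ 8)
  refine ⟨δ / (2 * 4 ^ 9 * lam ^ 2), by positivity, max 2 N, ?_⟩
  intro n hn t b ht1 ht h hb B hB hbud
  have hn2 : 2 ≤ n := (le_max_left _ _).trans hn
  have hnN : N ≤ n := (le_max_right _ _).trans hn
  have hn0 : (0 : ℝ) < n := by exact_mod_cast (by omega : 0 < n)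
  have ht0 : (0 : ℝ) < t := by exact_mod_cast ht1
  have hlam8 : lam ≤ (n : ℝ) ^ (1 / 8 : ℝ) := by
    have h1 : lam ^ 8 ≤ (n : ℝ) := hN.trans (by exact_mod_cast hnN)
    have h2 : ((n : ℝ) ^ (1 / 8 : ℝ)) ^ 8 = n := by
      rw [← Real.rpow_natCast, ← Real.rpow_mul hn0.le]
      norm_num
    rw [← h2] at h1
    exact le_of_pow_le_pow_left₀ (by norm_num) (Real.rpow_pos_of_pos hn0 _).le h1
  have h13 : (t : ℝ) ≤ (n : ℝ) ^ (13 / 8 : ℝ) := by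
    refine h.trans ?_
    have h1 : (n : ℝ) ^ (13 / 8 : ℝ) = (n : ℝ) ^ (1 / 8 : ℝ) * (n : ℝ) ^ (3 / 2 : ℝ) := by
      rw [← Real.rpow_add hn0]; norm_num
    rw [h1]
    exact mul_le_mul_of_nonneg_right hlam8 (Real.rpow_pos_of_pos hn0 _).le
  rw [Phi_eq_left (by omega) ht1 h13] at hb
  have hq := rega_q n t hn2
  have hq0 : (0 : ℝ) ≤ (t : ℝ) / Fintype.card (Pair n) := by positivity
  refine (small_main ht rfl hB hbud).trans ?_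
  have h2 : ((t : ℝ) / Fintype.card (Pair n)) ^ 9 ≤ (4 * t / (n : ℝ) ^ 2) ^ 9 :=
    pow_le_pow_left₀ hq0 hq 9
  have h3 : (t : ℝ) ^ 2 ≤ lam ^ 2 * (n : ℝ) ^ 3 := by
    have := pow_le_pow_left₀ ht0.le h 2
    rwa [mul_pow, rega_sq _ hn0] at this
  calc 2 * (b : ℝ) * (n : ℝ) ^ 3 * ((t : ℝ) / Fintype.card (Pair n)) ^ 9
      ≤ 2 * (b : ℝ) * (n : ℝ) ^ 3 * (4 * t / (n : ℝ) ^ 2) ^ 9 :=
        mul_le_mul_of_nonneg_left h2 (by positivity)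
    _ = (b : ℝ) * (2 * (n : ℝ) ^ 3 * (4 * t / (n : ℝ) ^ 2) ^ 9) := by ring
    _ ≤ (δ / (2 * 4 ^ 9 * lam ^ 2) * ((n : ℝ) ^ 12 / (t : ℝ) ^ 7)) *
        (2 * (n : ℝ) ^ 3 * (4 * t / (n : ℝ) ^ 2) ^ 9) :=
        mul_le_mul_of_nonneg_right hb (by positivity)
    _ = δ * ((t : ℝ) ^ 2 / (lam ^ 2 * (n : ℝ) ^ 3)) := by
        field_simp
    _ ≤ δ * 1 := by
        refine mul_le_mul_of_nonneg_left ?_ hδ.le
        rw [div_le_one (by positivity)]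
        exact h3
    _ = δ := mul_one _

theorem reg_two {δ : ℝ} (hδ : 0 < δ) : ∃ c : ℝ, 0 < c ∧ ∀ n t b : ℕ, 2 ≤ n →
    t ≤ Fintype.card (Pair n) → (t : ℝ) ≤ c * (n : ℝ) ^ (3 / 2 : ℝ) → Bound n t b δ := by
  refine ⟨min 1 (δ / 4 ^ 10), by positivity, ?_⟩
  intro n t b hn2 ht h B hB hbud
  set c : ℝ := min 1 (δ / 4 ^ 10) with hc
  have hc0 : 0 < c := by positivity
  have hn0 : (0 : ℝ) < n := by exact_mod_cast (by omega : 0 < n)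
  have ht0 : (0 : ℝ) ≤ t := Nat.cast_nonneg t
  have hq := rega_q n t hn2
  have hq0 : (0 : ℝ) ≤ (t : ℝ) / Fintype.card (Pair n) := by positivity
  refine (tiny_main ht rfl hB).trans ?_
  have h2 : ((t : ℝ) / Fintype.card (Pair n)) ^ 10 ≤ (4 * t / (n : ℝ) ^ 2) ^ 10 :=
    pow_le_pow_left₀ hq0 hq 10
  have h3 : (t : ℝ) ^ 10 ≤ c ^ 10 * (n : ℝ) ^ 15 := by
    have h4 := pow_le_pow_left₀ ht0 h 10
    have h5 : ((n : ℝ) ^ (3 / 2 : ℝ)) ^ 10 = (n : ℝ) ^ 15 := by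
      have : ((n : ℝ) ^ (3 / 2 : ℝ)) ^ 10 = (((n : ℝ) ^ (3 / 2 : ℝ)) ^ 2) ^ 5 := by ring
      rw [this, rega_sq _ hn0]; ring
    rwa [mul_pow, h5] at h4
  have hc10 : c ^ 10 ≤ δ / 4 ^ 10 := by
    have h4 : c ^ 10 ≤ c := pow_le_of_le_one hc0.le (min_le_left _ _) (by norm_num)
    exact h4.trans (min_le_right _ _)
  calc (n : ℝ) ^ 5 * ((t : ℝ) / Fintype.card (Pair n)) ^ 10
      ≤ (n : ℝ) ^ 5 * (4 * t / (n : ℝ) ^ 2) ^ 10 := mul_le_mul_of_nonneg_left h2 (by positivity)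
    _ = 4 ^ 10 * ((t : ℝ) ^ 10 / (n : ℝ) ^ 15) := by
        field_simp
    _ ≤ 4 ^ 10 * c ^ 10 := by
        refine mul_le_mul_of_nonneg_left ?_ (by norm_num)
        rw [div_le_iff₀ (by positivity)]
        exact h3
    _ ≤ 4 ^ 10 * (δ / 4 ^ 10) := mul_le_mul_of_nonneg_left hc10 (by norm_num)
    _ = δ := by field_simp

theorem reg_four {δ : ℝ} (hδ : 0 < δ) : ∃ c : ℝ, 0 < c ∧ ∀ n t b : ℕ, 2 ≤ n → 1 ≤ t →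
    t ≤ Fintype.card (Pair n) → (b : ℝ) ≤ c * ((n : ℝ) ^ (10 / 3 : ℝ) / (t : ℝ) ^ (5 / 3 : ℝ)) →
    Bound n t b δ := by
  refine ⟨min 1 (δ / (1000 * 4 ^ 5)), by positivity, ?_⟩
  intro n t b hn2 ht1 ht hb B hB hbud
  set c : ℝ := min 1 (δ / (1000 * 4 ^ 5)) with hc
  have hc0 : 0 < c := by positivity
  have hn0 : (0 : ℝ) < n := by exact_mod_cast (by omega : 0 < n)
  have ht0 : (0 : ℝ) < t := by exact_mod_cast ht1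
  have hq := rega_q n t hn2
  have hq0 : (0 : ℝ) ≤ (t : ℝ) / Fintype.card (Pair n) := by positivity
  refine (dense_main ht rfl hB hbud).trans ?_
  have h2 : ((t : ℝ) / Fintype.card (Pair n)) ^ 5 ≤ (4 * t / (n : ℝ) ^ 2) ^ 5 :=
    pow_le_pow_left₀ hq0 hq 5
  have h3 : (b : ℝ) ^ 3 ≤ c ^ 3 * ((n : ℝ) ^ 10 / (t : ℝ) ^ 5) := by
    have h4 := pow_le_pow_left₀ (Nat.cast_nonneg b) hb 3
    have h5 : ((n : ℝ) ^ (10 / 3 : ℝ)) ^ 3 = (n : ℝ) ^ 10 := by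
      rw [← Real.rpow_natCast, ← Real.rpow_mul hn0.le, ← Real.rpow_natCast]
      norm_num
    have h6 : ((t : ℝ) ^ (5 / 3 : ℝ)) ^ 3 = (t : ℝ) ^ 5 := by
      rw [← Real.rpow_natCast, ← Real.rpow_mul ht0.le, ← Real.rpow_natCast]
      norm_num
    rwa [mul_pow, div_pow, h5, h6] at h4
  have hc3 : c ^ 3 ≤ δ / (1000 * 4 ^ 5) := by
    have h4 : c ^ 3 ≤ c := pow_le_of_le_one hc0.le (min_le_left _ _) (by norm_num)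
    exact h4.trans (min_le_right _ _)
  calc 1000 * (b : ℝ) ^ 3 * ((t : ℝ) / Fintype.card (Pair n)) ^ 5
      ≤ 1000 * (c ^ 3 * ((n : ℝ) ^ 10 / (t : ℝ) ^ 5)) * (4 * t / (n : ℝ) ^ 2) ^ 5 := by
        refine mul_le_mul ?_ h2 (by positivity) (by positivity)
        exact mul_le_mul_of_nonneg_left h3 (by norm_num)
    _ = 1000 * 4 ^ 5 * c ^ 3 := by
        field_simp
    _ ≤ 1000 * 4 ^ 5 * (δ / (1000 * 4 ^ 5)) := mul_le_mul_of_nonneg_left hc3 (by norm_num)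
    _ = δ := by field_simp

end H2.K5
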