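import Pool.Agent.H2.K5.Ins

/-!
# SUMUW: the weighted number of extensions of a new triangle

Write `v = (x, y, z, u, w)`, `a(u) = #{p ∈ {x,y,z} | u ~ p}`. For valid `v` (all triangles of the graph
inside `v` contain `x` and `y`): `a(u) ≤ 2`, and `a(u) = 2` only if `u ~ x`, `u ~ y`; if `u ~ w` then not
`a(u) = a(w) = 2`. The number of edges inside `v` is `3 + a(u) + a(w) + [u ~ w]`, so
`#(prs v \ Bs) = 7 - a(u) - a(w) - [u ~ w]`. At most `3 d` vertices `u` have `a(u) ≥ 1`, at most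
`κ` have `a(u) = 2` (common neighbours of `x, y`): `∑_u q^(-a(u)) ≤ X := n + 3 d/q + κ/q^2`.
Pairs with `u ≁ w`: at most `X^2`. Pairs with `u ~ w`, `a(w) ≤ 1`: for given `u`,
`∑_w q^(-1-a(w)) ≤ Y := d/q + 3 κ/q^2` (at most `d` neighbours `w` of `u`; those with `a(w) = 1` are
common neighbours of `u` and one of `x, y, z`: at most `3 κ`); total at most `X Y`. Symmetric in `u, w`.
-/

set_option autoImplicit false

namespace H2.K5

open Finset

theorem sumuw_ind_pos {P : Prop} (h : P) : ind P = 1 := by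
  unfold ind
  rw [if_pos h]

theorem sumuw_ind_neg {P : Prop} (h : ¬ P) : ind P = 0 := by
  unfold ind
  rw [if_neg h]

theorem sumuw_ind_nonneg (P : Prop) : 0 ≤ ind P := by
  by_cases h : P
  · rw [sumuw_ind_pos h]; norm_num
  · rw [sumuw_ind_neg h]

theorem sumuw_sum_ind {V : Type*} [Fintype V] (P : V → Prop) (hP : DecidablePred P) :
    ∑ u, ind (P u) = ((#(@Finset.filter V P hP univ) : ℕ) : ℝ) := by
  rw [Finset.card_filter]
  push_cast
  refine Finset.sum_congr rfl fun u _ => ?_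
  by_cases h : P u
  · rw [sumuw_ind_pos h, if_pos h]
  · rw [sumuw_ind_neg h, if_neg h]

open Classical in
/-- adjacency as a number -/
noncomputable def sumuw_b {n : ℕ} (Bs : Finset (Pair n)) (p q : Fin n) : ℕ :=
  if (gr Bs).Adj p q then 1 else 0

open Classical in
theorem sumuw_card {n : ℕ} (Bs : Finset (Pair n)) (v : Fin 5 → Fin n)
    (hv : Function.Injective v) :
    10 ≤ #(prs v \ Bs) + ∑ p ∈ (univ : Finset (Fin 5 × Fin 5)).filter (fun p => p.1 < p.2),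
      sumuw_b Bs (v p.1) (v p.2) := by
  have h1 : #(prs v) = 10 := by
    rw [card_prs hv]
    decide
  have h2 : #(prs v \ Bs) + #(prs v ∩ Bs) = #(prs v) := Finset.card_sdiff_add_card_inter _ _
  have h3 : #(prs v ∩ Bs) ≤
      ∑ p ∈ (univ : Finset (Fin 5 × Fin 5)).filter (fun p => p.1 < p.2),
      sumuw_b Bs (v p.1) (v p.2) := by
    unfold sumuw_b
    rw [← Finset.card_filter, Finset.filter_filter]
    have h4 : (prs v ∩ Bs).image (fun e : Pair n => (e : Sym2 (Fin n))) ⊆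
        ((univ : Finset (Fin 5 × Fin 5)).filter
          (fun p => p.1 < p.2 ∧ (gr Bs).Adj (v p.1) (v p.2))).image
          (fun p => s(v p.1, v p.2)) := by
      intro s hs
      obtain ⟨e, he, rfl⟩ := Finset.mem_image.1 hs
      rw [Finset.mem_inter] at he
      obtain ⟨he1, he2⟩ := he
      obtain ⟨i, j, hij⟩ := (Finset.mem_filter.1 he1).2
      have hadj : (gr Bs).Adj (v i) (v j) := (gr_adj Bs _ _).2 ⟨e, he2, hij⟩
      have hne : i ≠ j := by
        rintro rfl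
        exact hadj.ne rfl
      rcases lt_or_gt_of_ne hne with h | h
      · exact Finset.mem_image.2 ⟨(i, j), Finset.mem_filter.2 ⟨Finset.mem_univ _, h, hadj⟩,
          hij.symm⟩
      · refine Finset.mem_image.2 ⟨(j, i), Finset.mem_filter.2 ⟨Finset.mem_univ _, h, hadj.symm⟩,
          ?_⟩
        rw [hij]
        exact Sym2.eq_swap
    calc #(prs v ∩ Bs) = #((prs v ∩ Bs).image (fun e : Pair n => (e : Sym2 (Fin n)))) :=
          (Finset.card_image_of_injective _ Subtype.val_injective).symm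
      _ ≤ _ := Finset.card_le_card h4
      _ ≤ _ := Finset.card_image_le
  omega

theorem sumuw_expand {n : ℕ} (Bs : Finset (Pair n)) (v : Fin 5 → Fin n) :
    ∑ p ∈ (univ : Finset (Fin 5 × Fin 5)).filter (fun p => p.1 < p.2),
      sumuw_b Bs (v p.1) (v p.2) =
    (sumuw_b Bs (v 0) (v 1) + sumuw_b Bs (v 0) (v 2) + sumuw_b Bs (v 1) (v 2)) +
    (sumuw_b Bs (v 0) (v 3) + sumuw_b Bs (v 1) (v 3) + sumuw_b Bs (v 2) (v 3)) +
    (sumuw_b Bs (v 0) (v 4) + sumuw_b Bs (v 1) (v 4) + sumuw_b Bs (v 2) (v 4)) +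
    sumuw_b Bs (v 3) (v 4) := by
  rw [Finset.sum_filter, Fintype.sum_prod_type]
  simp only [Fin.sum_univ_five]
  simp only [show ((0 : Fin 5) < 1) = True from by decide, show ((0 : Fin 5) < 2) = True from by
    decide, show ((0 : Fin 5) < 3) = True from by decide, show ((0 : Fin 5) < 4) = True from by
    decide, show ((1 : Fin 5) < 2) = True from by decide, show ((1 : Fin 5) < 3) = True from by
    decide, show ((1 : Fin 5) < 4) = True from by decide, show ((2 : Fin 5) < 3) = True from by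
    decide, show ((2 : Fin 5) < 4) = True from by decide, show ((3 : Fin 5) < 4) = True from by
    decide, show ((0 : Fin 5) < 0) = False from by decide, show ((1 : Fin 5) < 0) = False from by
    decide, show ((1 : Fin 5) < 1) = False from by decide, show ((2 : Fin 5) < 0) = False from by
    decide, show ((2 : Fin 5) < 1) = False from by decide, show ((2 : Fin 5) < 2) = False from by
    decide, show ((3 : Fin 5) < 0) = False from by decide, show ((3 : Fin 5) < 1) = False from by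
    decide, show ((3 : Fin 5) < 2) = False from by decide, show ((3 : Fin 5) < 3) = False from by
    decide, show ((4 : Fin 5) < 0) = False from by decide, show ((4 : Fin 5) < 1) = False from by
    decide, show ((4 : Fin 5) < 2) = False from by decide, show ((4 : Fin 5) < 3) = False from by
    decide, show ((4 : Fin 5) < 4) = False from by decide, if_true, if_false]
  ring

/-- the weight of one vertex -/
noncomputable def sumuw_g {n : ℕ} (Bs : Finset (Pair n)) (r : ℝ) (x y z u : Fin n) : ℝ :=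
  1 + ind ((gr Bs).Adj x u ∨ (gr Bs).Adj y u ∨ (gr Bs).Adj z u) * r +
    ind ((gr Bs).Adj x u ∧ (gr Bs).Adj y u) * r ^ 2

/-- the weight of a neighbour `w` of `u` -/
noncomputable def sumuw_h {n : ℕ} (Bs : Finset (Pair n)) (r : ℝ) (x y z u w : Fin n) : ℝ :=
  ind ((gr Bs).Adj u w) * r +
    ind ((gr Bs).Adj u w ∧ ((gr Bs).Adj x w ∨ (gr Bs).Adj y w ∨ (gr Bs).Adj z w)) * r ^ 2

/-- the codegrees of `u` with `x, y, z` are small -/
def sumuw_good {n : ℕ} (Bs : Finset (Pair n)) (κ : ℕ) (x y z u : Fin n) : Prop :=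
  codeg (gr Bs) u x ≤ κ ∧ codeg (gr Bs) u y ≤ κ ∧ codeg (gr Bs) u z ≤ κ

theorem sumuw_g_nonneg {n : ℕ} (Bs : Finset (Pair n)) {r : ℝ} (hr : 0 ≤ r) (x y z u : Fin n) :
    0 ≤ sumuw_g Bs r x y z u := by
  unfold sumuw_g
  have := sumuw_ind_nonneg ((gr Bs).Adj x u ∨ (gr Bs).Adj y u ∨ (gr Bs).Adj z u)
  have := sumuw_ind_nonneg ((gr Bs).Adj x u ∧ (gr Bs).Adj y u)
  positivity

theorem sumuw_h_nonneg {n : ℕ} (Bs : Finset (Pair n)) {r : ℝ} (hr : 0 ≤ r) (x y z u w : Fin n) :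
    0 ≤ sumuw_h Bs r x y z u w := by
  unfold sumuw_h
  have := sumuw_ind_nonneg ((gr Bs).Adj u w)
  have := sumuw_ind_nonneg
    ((gr Bs).Adj u w ∧ ((gr Bs).Adj x w ∨ (gr Bs).Adj y w ∨ (gr Bs).Adj z w))
  positivity

theorem sumuw_ind_or (P Q R : Prop) : ind (P ∨ Q ∨ R) ≤ ind P + ind Q + ind R := by
  have hP := sumuw_ind_nonneg P
  have hQ := sumuw_ind_nonneg Q
  have hR := sumuw_ind_nonneg R
  by_cases h : P ∨ Q ∨ R
  · rw [sumuw_ind_pos h]
    rcases h with h | h | h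
    · rw [sumuw_ind_pos h]; linarith
    · rw [sumuw_ind_pos h]; linarith
    · rw [sumuw_ind_pos h]; linarith
  · rw [sumuw_ind_neg h]; linarith

theorem sumuw_deg {n : ℕ} (Bs : Finset (Pair n)) {d : ℕ}
    (hd : ∀ x, degIn (gr Bs) univ x ≤ d) (x : Fin n) :
    ∑ u, ind ((gr Bs).Adj x u) ≤ (d : ℝ) := by
  have := hd x
  unfold degIn at this
  have h' := (Nat.cast_le (α := ℝ)).2 this
  exact le_trans (le_of_eq (sumuw_sum_ind _ _)) h'

theorem sumuw_codeg {n : ℕ} (Bs : Finset (Pair n)) {κ : ℕ} {x y : Fin n}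
    (h : codeg (gr Bs) x y ≤ κ) :
    ∑ u, ind ((gr Bs).Adj x u ∧ (gr Bs).Adj y u) ≤ (κ : ℝ) := by
  unfold codeg at h
  have h' := (Nat.cast_le (α := ℝ)).2 h
  exact le_trans (le_of_eq (sumuw_sum_ind _ _)) h'

theorem sumuw_sum_g {n : ℕ} (Bs : Finset (Pair n)) {κ d : ℕ} {r : ℝ} (hr : 0 ≤ r)
    (hd : ∀ x, degIn (gr Bs) univ x ≤ d) {x y : Fin n} (z : Fin n)
    (hxy : codeg (gr Bs) x y ≤ κ) :
    ∑ u, sumuw_g Bs r x y z u ≤ n + 3 * d * r + κ * r ^ 2 := by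
  unfold sumuw_g
  rw [Finset.sum_add_distrib, Finset.sum_add_distrib, ← Finset.sum_mul, ← Finset.sum_mul]
  have h1 : ∑ _u : Fin n, (1 : ℝ) = n := by simp
  have h2 : ∑ u, ind ((gr Bs).Adj x u ∨ (gr Bs).Adj y u ∨ (gr Bs).Adj z u) ≤ 3 * (d : ℝ) := by
    have h3 := sumuw_deg Bs hd x
    have h4 := sumuw_deg Bs hd y
    have h5 := sumuw_deg Bs hd z
    have h6 : ∑ u, ind ((gr Bs).Adj x u ∨ (gr Bs).Adj y u ∨ (gr Bs).Adj z u) ≤
        ∑ u, (ind ((gr Bs).Adj x u) + ind ((gr Bs).Adj y u) + ind ((gr Bs).Adj z u)) :=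
      Finset.sum_le_sum fun u _ => sumuw_ind_or _ _ _
    rw [Finset.sum_add_distrib, Finset.sum_add_distrib] at h6
    linarith
  have h3 := sumuw_codeg Bs hxy
  rw [h1]
  have h4 := mul_le_mul_of_nonneg_right h2 hr
  have h5 := mul_le_mul_of_nonneg_right h3 (pow_nonneg hr 2)
  linarith

theorem sumuw_sum_h {n : ℕ} (Bs : Finset (Pair n)) {κ d : ℕ} {r : ℝ} (hr : 0 ≤ r)
    (hd : ∀ x, degIn (gr Bs) univ x ≤ d) {x y z u : Fin n} (hg : sumuw_good Bs κ x y z u) :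
    ∑ w, sumuw_h Bs r x y z u w ≤ d * r + 3 * κ * r ^ 2 := by
  unfold sumuw_h
  rw [Finset.sum_add_distrib, ← Finset.sum_mul, ← Finset.sum_mul]
  have h1 := sumuw_deg Bs hd u
  have h2 : ∑ w, ind ((gr Bs).Adj u w ∧ ((gr Bs).Adj x w ∨ (gr Bs).Adj y w ∨ (gr Bs).Adj z w))
      ≤ 3 * (κ : ℝ) := by
    obtain ⟨hx, hy, hz⟩ := hg
    have h3 := sumuw_codeg Bs hx
    have h4 := sumuw_codeg Bs hy
    have h5 := sumuw_codeg Bs hz
    have h6 : ∑ w, ind ((gr Bs).Adj u w ∧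
        ((gr Bs).Adj x w ∨ (gr Bs).Adj y w ∨ (gr Bs).Adj z w)) ≤
        ∑ w, (ind ((gr Bs).Adj u w ∧ (gr Bs).Adj x w) + ind ((gr Bs).Adj u w ∧ (gr Bs).Adj y w) +
          ind ((gr Bs).Adj u w ∧ (gr Bs).Adj z w)) := by
      refine Finset.sum_le_sum fun w _ => ?_
      have := sumuw_ind_or ((gr Bs).Adj u w ∧ (gr Bs).Adj x w)
        ((gr Bs).Adj u w ∧ (gr Bs).Adj y w) ((gr Bs).Adj u w ∧ (gr Bs).Adj z w)
      rwa [← and_or_left, ← and_or_left] at this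
    rw [Finset.sum_add_distrib, Finset.sum_add_distrib] at h6
    linarith
  have h4 := mul_le_mul_of_nonneg_right h1 hr
  have h5 := mul_le_mul_of_nonneg_right h2 (pow_nonneg hr 2)
  linarith

/-- `g` bounds the weight of `u` -/
theorem sumuw_g_le {n : ℕ} (Bs : Finset (Pair n)) {r : ℝ} (hr : 1 ≤ r) {x y z u : Fin n}
    (h1 : ¬ ((gr Bs).Adj x u ∧ (gr Bs).Adj z u)) (h2 : ¬ ((gr Bs).Adj y u ∧ (gr Bs).Adj z u)) :
    r ^ (sumuw_b Bs x u + sumuw_b Bs y u + sumuw_b Bs z u) ≤ sumuw_g Bs r x y z u := by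
  have hr0 : 0 ≤ r := le_trans zero_le_one hr
  unfold sumuw_g sumuw_b
  by_cases hx : (gr Bs).Adj x u
  · by_cases hz : (gr Bs).Adj z u
    · exact absurd ⟨hx, hz⟩ h1
    · by_cases hy : (gr Bs).Adj y u
      · rw [if_pos hx, if_pos hy, if_neg hz, sumuw_ind_pos (Or.inl hx), sumuw_ind_pos ⟨hx, hy⟩]
        norm_num
        nlinarith
      · rw [if_pos hx, if_neg hy, if_neg hz, sumuw_ind_pos (Or.inl hx),
          sumuw_ind_neg (fun h => hy h.2)]
        norm_num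
  · by_cases hy : (gr Bs).Adj y u
    · by_cases hz : (gr Bs).Adj z u
      · exact absurd ⟨hy, hz⟩ h2
      · rw [if_neg hx, if_pos hy, if_neg hz, sumuw_ind_pos (Or.inr (Or.inl hy)),
          sumuw_ind_neg (fun h => hx h.1)]
        norm_num
    · by_cases hz : (gr Bs).Adj z u
      · rw [if_neg hx, if_neg hy, if_pos hz, sumuw_ind_pos (Or.inr (Or.inr hz)),
          sumuw_ind_neg (fun h => hx h.1)]
        norm_num
      · rw [if_neg hx, if_neg hy, if_neg hz, sumuw_ind_neg (by tauto),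
          sumuw_ind_neg (fun h => hx h.1)]
        norm_num

/-- `h` bounds the weight of a neighbour `w` of `u` with `a(w) ≤ 1` -/
theorem sumuw_h_le {n : ℕ} (Bs : Finset (Pair n)) {r : ℝ} (hr : 1 ≤ r) {x y z u w : Fin n}
    (huw : (gr Bs).Adj u w) (h1 : sumuw_b Bs x w + sumuw_b Bs y w + sumuw_b Bs z w ≤ 1) :
    r ^ (sumuw_b Bs x w + sumuw_b Bs y w + sumuw_b Bs z w) * r ≤ sumuw_h Bs r x y z u w := by
  have hr0 : 0 ≤ r := le_trans zero_le_one hr
  unfold sumuw_h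
  rw [sumuw_ind_pos huw]
  by_cases ha : (gr Bs).Adj x w ∨ (gr Bs).Adj y w ∨ (gr Bs).Adj z w
  · rw [sumuw_ind_pos ⟨huw, ha⟩]
    have : r ^ (sumuw_b Bs x w + sumuw_b Bs y w + sumuw_b Bs z w) ≤ r ^ 1 :=
      pow_le_pow_right₀ hr h1
    nlinarith
  · have hx : ¬ (gr Bs).Adj x w := fun h => ha (Or.inl h)
    have hy : ¬ (gr Bs).Adj y w := fun h => ha (Or.inr (Or.inl h))
    have hz : ¬ (gr Bs).Adj z w := fun h => ha (Or.inr (Or.inr h))
    rw [sumuw_ind_neg (fun h => ha h.2)]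
    unfold sumuw_b
    rw [if_neg hx, if_neg hy, if_neg hz]
    norm_num

/-- the pointwise bound -/
theorem sumuw_pt {n : ℕ} (Bs : Finset (Pair n)) (κ : ℕ) {q : ℝ} (hq0 : 0 < q) (hq1 : q ≤ 1)
    (v : Fin 5 → Fin n) (hv : Function.Injective v) (_h01 : (gr Bs).Adj (v 0) (v 1))
    (h02 : (gr Bs).Adj (v 0) (v 2)) (h12 : (gr Bs).Adj (v 1) (v 2)) (hO : OnlyOne (gr Bs) v)
    (hC : CodLe (gr Bs) κ v) :
    q ^ #(prs v \ Bs) ≤ q ^ 7 * (
      sumuw_g Bs q⁻¹ (v 0) (v 1) (v 2) (v 3) * sumuw_g Bs q⁻¹ (v 0) (v 1) (v 2) (v 4) +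
      ind (sumuw_good Bs κ (v 0) (v 1) (v 2) (v 3)) *
        (sumuw_g Bs q⁻¹ (v 0) (v 1) (v 2) (v 3) * sumuw_h Bs q⁻¹ (v 0) (v 1) (v 2) (v 3) (v 4)) +
      ind (sumuw_good Bs κ (v 0) (v 1) (v 2) (v 4)) *
        (sumuw_g Bs q⁻¹ (v 0) (v 1) (v 2) (v 4) *
          sumuw_h Bs q⁻¹ (v 0) (v 1) (v 2) (v 4) (v 3))) := by
  have hr : 1 ≤ q⁻¹ := (one_le_inv₀ hq0).2 hq1
  have hr0 : 0 ≤ q⁻¹ := le_trans zero_le_one hr
  have hg3 : sumuw_good Bs κ (v 0) (v 1) (v 2) (v 3) :=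
    ⟨hC 3 0 (by decide), hC 3 1 (by decide), hC 3 2 (by decide)⟩
  have hg4 : sumuw_good Bs κ (v 0) (v 1) (v 2) (v 4) :=
    ⟨hC 4 0 (by decide), hC 4 1 (by decide), hC 4 2 (by decide)⟩
  rw [sumuw_ind_pos hg3, sumuw_ind_pos hg4, one_mul, one_mul]
  -- adjacency facts
  have k1 : ∀ j : Fin 5, j = 3 ∨ j = 4 →
      ¬ ((gr Bs).Adj (v 0) (v j) ∧ (gr Bs).Adj (v 2) (v j)) := by
    rintro j hj ⟨ha, hb⟩
    have := hO 0 2 j h02 ha hb
    rcases hj with rfl | rfl <;> revert this <;> decide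
  have k2 : ∀ j : Fin 5, j = 3 ∨ j = 4 →
      ¬ ((gr Bs).Adj (v 1) (v j) ∧ (gr Bs).Adj (v 2) (v j)) := by
    rintro j hj ⟨ha, hb⟩
    have := hO 1 2 j h12 ha hb
    rcases hj with rfl | rfl <;> revert this <;> decide
  have k3 : ∀ p : Fin 5, (gr Bs).Adj (v 3) (v 4) → (gr Bs).Adj (v p) (v 3) →
      ¬ (gr Bs).Adj (v p) (v 4) := by
    intro p h34 ha hb
    have := hO p 3 4 ha hb h34
    obtain ⟨h0, h1⟩ := this
    rcases h0 with h0 | h0 | h0
    · rcases h1 with h1 | h1 | h1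
      · rw [h0] at h1
        exact absurd h1 (by decide)
      · exact absurd h1 (by decide)
      · exact absurd h1 (by decide)
    · exact absurd h0 (by decide)
    · exact absurd h0 (by decide)
  set α := sumuw_b Bs (v 0) (v 3) + sumuw_b Bs (v 1) (v 3) + sumuw_b Bs (v 2) (v 3) with hα
  set β := sumuw_b Bs (v 0) (v 4) + sumuw_b Bs (v 1) (v 4) + sumuw_b Bs (v 2) (v 4) with hβ
  set δ := sumuw_b Bs (v 3) (v 4) with hδ
  have hg3' : (q⁻¹) ^ α ≤ sumuw_g Bs q⁻¹ (v 0) (v 1) (v 2) (v 3) :=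
    sumuw_g_le Bs hr (k1 3 (Or.inl rfl)) (k2 3 (Or.inl rfl))
  have hg4' : (q⁻¹) ^ β ≤ sumuw_g Bs q⁻¹ (v 0) (v 1) (v 2) (v 4) :=
    sumuw_g_le Bs hr (k1 4 (Or.inr rfl)) (k2 4 (Or.inr rfl))
  have hG3 := sumuw_g_nonneg Bs hr0 (v 0) (v 1) (v 2) (v 3)
  have hG4 := sumuw_g_nonneg Bs hr0 (v 0) (v 1) (v 2) (v 4)
  have hH34 := sumuw_h_nonneg Bs hr0 (v 0) (v 1) (v 2) (v 3) (v 4)
  have hH43 := sumuw_h_nonneg Bs hr0 (v 0) (v 1) (v 2) (v 4) (v 3)
  have hb01 : ∀ p r : Fin n, sumuw_b Bs p r ≤ 1 := by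
    intro p r
    unfold sumuw_b
    split_ifs <;> norm_num
  have hcard := sumuw_card Bs v hv
  rw [sumuw_expand] at hcard
  have e1 := hb01 (v 0) (v 1)
  have e2 := hb01 (v 0) (v 2)
  have e3 := hb01 (v 1) (v 2)
  have hc7 : 7 ≤ #(prs v \ Bs) + (α + β + δ) := by omega
  -- the exponent
  have hpow : q ^ #(prs v \ Bs) ≤ q ^ 7 * (q⁻¹) ^ (α + β + δ) := by
    have h1 : q ^ (#(prs v \ Bs) + (α + β + δ)) ≤ q ^ 7 :=
      pow_le_pow_of_le_one hq0.le hq1 hc7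
    rw [pow_add] at h1
    rw [inv_pow, ← div_eq_mul_inv, le_div_iff₀ (pow_pos hq0 _)]
    exact h1
  refine le_trans hpow (mul_le_mul_of_nonneg_left ?_ (pow_nonneg hq0.le 7))
  by_cases h34 : (gr Bs).Adj (v 3) (v 4)
  · have hδ1 : δ = 1 := by
      rw [hδ]
      unfold sumuw_b
      rw [if_pos h34]
    -- not both are 2
    have hab : α + β ≤ 3 := by
      have t : ∀ p : Fin 5, sumuw_b Bs (v p) (v 3) + sumuw_b Bs (v p) (v 4) ≤ 1 := by
        intro p
        by_cases hp : (gr Bs).Adj (v p) (v 3)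
        · have := k3 p h34 hp
          unfold sumuw_b
          rw [if_pos hp, if_neg this]
        · unfold sumuw_b
          rw [if_neg hp, zero_add]
          split_ifs <;> norm_num
      have t0 := t 0
      have t1 := t 1
      have t2 := t 2
      omega
    have hcases : β ≤ 1 ∨ α ≤ 1 := by omega
    rcases hcases with hβ1 | hα1
    · have hh := sumuw_h_le Bs hr (x := v 0) (y := v 1) (z := v 2) h34 hβ1
      have : (q⁻¹) ^ (α + β + δ) = (q⁻¹) ^ α * ((q⁻¹) ^ β * q⁻¹) := by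
        rw [hδ1, pow_add, pow_add, pow_one]
        ring
      rw [this]
      have h2 : (q⁻¹) ^ α * ((q⁻¹) ^ β * q⁻¹) ≤
          sumuw_g Bs q⁻¹ (v 0) (v 1) (v 2) (v 3) *
            sumuw_h Bs q⁻¹ (v 0) (v 1) (v 2) (v 3) (v 4) :=
        mul_le_mul hg3' hh (by positivity) hG3
      have h3 := mul_nonneg hG3 hG4
      have h4 := mul_nonneg hG4 hH43
      linarith
    · have hh := sumuw_h_le Bs hr (x := v 0) (y := v 1) (z := v 2) h34.symm hα1
      have : (q⁻¹) ^ (α + β + δ) = (q⁻¹) ^ β * ((q⁻¹) ^ α * q⁻¹) := by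
        rw [hδ1, pow_add, pow_add, pow_one]
        ring
      rw [this]
      have h2 : (q⁻¹) ^ β * ((q⁻¹) ^ α * q⁻¹) ≤
          sumuw_g Bs q⁻¹ (v 0) (v 1) (v 2) (v 4) *
            sumuw_h Bs q⁻¹ (v 0) (v 1) (v 2) (v 4) (v 3) :=
        mul_le_mul hg4' hh (by positivity) hG4
      have h3 := mul_nonneg hG3 hG4
      have h4 := mul_nonneg hG3 hH34
      linarith
  · have hδ0 : δ = 0 := by
      rw [hδ]
      unfold sumuw_b
      rw [if_neg h34]
    have : (q⁻¹) ^ (α + β + δ) = (q⁻¹) ^ α * (q⁻¹) ^ β := by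
      rw [hδ0, add_zero, pow_add]
    rw [this]
    have h2 : (q⁻¹) ^ α * (q⁻¹) ^ β ≤ sumuw_g Bs q⁻¹ (v 0) (v 1) (v 2) (v 3) *
        sumuw_g Bs q⁻¹ (v 0) (v 1) (v 2) (v 4) :=
      mul_le_mul hg3' hg4' (by positivity) hG3
    have h3 := mul_nonneg hG3 hH34
    have h4 := mul_nonneg hG4 hH43
    linarith

open Classical in
/-- sums over tuples with three given entries -/
theorem sumuw_tuples {n : ℕ} (x y z : Fin n) (f : Fin n → Fin n → ℝ)
    (hf : ∀ u w, 0 ≤ f u w) :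
    ∑ v : Fin 5 → Fin n, ind (v 0 = x ∧ v 1 = y ∧ v 2 = z) * f (v 3) (v 4) ≤
      ∑ u, ∑ w, f u w := by
  have h1 : ∑ v : Fin 5 → Fin n, ind (v 0 = x ∧ v 1 = y ∧ v 2 = z) * f (v 3) (v 4) =
      ∑ v ∈ (univ : Finset (Fin 5 → Fin n)).filter (fun v => v 0 = x ∧ v 1 = y ∧ v 2 = z),
        f (v 3) (v 4) := by
    rw [Finset.sum_filter]
    refine Finset.sum_congr rfl fun v _ => ?_
    by_cases h : v 0 = x ∧ v 1 = y ∧ v 2 = z
    · rw [sumuw_ind_pos h, if_pos h, one_mul]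
    · rw [sumuw_ind_neg h, if_neg h, zero_mul]
  rw [h1, ← Fintype.sum_prod_type']
  have h2 : ∑ v ∈ (univ : Finset (Fin 5 → Fin n)).filter (fun v => v 0 = x ∧ v 1 = y ∧ v 2 = z),
        f (v 3) (v 4) =
      ∑ p ∈ ((univ : Finset (Fin 5 → Fin n)).filter
        (fun v => v 0 = x ∧ v 1 = y ∧ v 2 = z)).image (fun v => (v 3, v 4)), f p.1 p.2 := by
    rw [Finset.sum_image]
    intro v hv v' hv' h
    have hv := (Finset.mem_filter.1 hv).2
    have hv' := (Finset.mem_filter.1 hv').2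
    have h3 := congrArg Prod.fst h
    have h4 := congrArg Prod.snd h
    simp only at h3 h4
    funext i
    fin_cases i
    · exact hv.1.trans hv'.1.symm
    · exact hv.2.1.trans hv'.2.1.symm
    · exact hv.2.2.trans hv'.2.2.symm
    · exact h3
    · exact h4
  rw [h2]
  exact Finset.sum_le_sum_of_subset_of_nonneg (Finset.subset_univ _) fun p _ _ => hf _ _

theorem sum_uw {n : ℕ} (Bs : Finset (Pair n)) (κ d : ℕ) {q : ℝ} (hq0 : 0 < q) (hq1 : q ≤ 1)
    (hd : ∀ x, degIn (gr Bs) univ x ≤ d) (x y z : Fin n) :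
    ∑ v : Fin 5 → Fin n, ind (v 0 = x ∧ v 1 = y ∧ v 2 = z ∧ Function.Injective v ∧
      (gr Bs).Adj x y ∧ (gr Bs).Adj x z ∧ (gr Bs).Adj y z ∧ OnlyOne (gr Bs) v ∧
      CodLe (gr Bs) κ v) * q ^ #(prs v \ Bs) ≤
    q ^ 7 * ((n + 3 * d / q + κ / q ^ 2) ^ 2 +
      2 * (n + 3 * d / q + κ / q ^ 2) * (d / q + 3 * κ / q ^ 2)) := by
  have hr0 : (0 : ℝ) ≤ q⁻¹ := inv_nonneg.2 hq0.le
  set X : ℝ := n + 3 * d / q + κ / q ^ 2 with hX
  set Y : ℝ := d / q + 3 * κ / q ^ 2 with hY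
  have hX0 : 0 ≤ X := by positivity
  have hY0 : 0 ≤ Y := by positivity
  by_cases hxy : codeg (gr Bs) x y ≤ κ
  · set f : Fin n → Fin n → ℝ := fun u w => q ^ 7 * (
      sumuw_g Bs q⁻¹ x y z u * sumuw_g Bs q⁻¹ x y z w +
      ind (sumuw_good Bs κ x y z u) *
        (sumuw_g Bs q⁻¹ x y z u * sumuw_h Bs q⁻¹ x y z u w) +
      ind (sumuw_good Bs κ x y z w) *
        (sumuw_g Bs q⁻¹ x y z w * sumuw_h Bs q⁻¹ x y z w u)) with hf
    have hf0 : ∀ u w, 0 ≤ f u w := by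
      intro u w
      have h1 := sumuw_g_nonneg Bs hr0 x y z u
      have h2 := sumuw_g_nonneg Bs hr0 x y z w
      have h3 := sumuw_h_nonneg Bs hr0 x y z u w
      have h4 := sumuw_h_nonneg Bs hr0 x y z w u
      have h5 := sumuw_ind_nonneg (sumuw_good Bs κ x y z u)
      have h6 := sumuw_ind_nonneg (sumuw_good Bs κ x y z w)
      rw [hf]
      positivity
    have h1 : ∑ v : Fin 5 → Fin n, ind (v 0 = x ∧ v 1 = y ∧ v 2 = z ∧ Function.Injective v ∧
        (gr Bs).Adj x y ∧ (gr Bs).Adj x z ∧ (gr Bs).Adj y z ∧ OnlyOne (gr Bs) v ∧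
        CodLe (gr Bs) κ v) * q ^ #(prs v \ Bs) ≤
        ∑ v : Fin 5 → Fin n, ind (v 0 = x ∧ v 1 = y ∧ v 2 = z) * f (v 3) (v 4) := by
      refine Finset.sum_le_sum fun v _ => ?_
      by_cases h : v 0 = x ∧ v 1 = y ∧ v 2 = z ∧ Function.Injective v ∧
        (gr Bs).Adj x y ∧ (gr Bs).Adj x z ∧ (gr Bs).Adj y z ∧ OnlyOne (gr Bs) v ∧
        CodLe (gr Bs) κ v
      · obtain ⟨h0, h1, h2, hinj, a1, a2, a3, hO, hC⟩ := h
        rw [sumuw_ind_pos ⟨h0, h1, h2, hinj, a1, a2, a3, hO, hC⟩, sumuw_ind_pos ⟨h0, h1, h2⟩,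
          one_mul, one_mul]
        subst h0
        subst h1
        subst h2
        exact sumuw_pt Bs κ hq0 hq1 v hinj a1 a2 a3 hO hC
      · rw [sumuw_ind_neg h, zero_mul]
        exact mul_nonneg (sumuw_ind_nonneg _) (hf0 _ _)
    refine le_trans h1 (le_trans (sumuw_tuples x y z f hf0) ?_)
    have hgs : ∑ u, sumuw_g Bs q⁻¹ x y z u ≤ X := by
      have := sumuw_sum_g Bs hr0 hd z hxy
      refine le_trans this (le_of_eq ?_)
      rw [hX]
      field_simp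
    have hg0 : 0 ≤ ∑ u, sumuw_g Bs q⁻¹ x y z u :=
      Finset.sum_nonneg fun u _ => sumuw_g_nonneg Bs hr0 x y z u
    have hhs : ∀ u, ind (sumuw_good Bs κ x y z u) * ∑ w, sumuw_h Bs q⁻¹ x y z u w ≤ Y := by
      intro u
      by_cases h : sumuw_good Bs κ x y z u
      · rw [sumuw_ind_pos h, one_mul]
        refine le_trans (sumuw_sum_h Bs hr0 hd h) (le_of_eq ?_)
        rw [hY]
        field_simp
      · rw [sumuw_ind_neg h, zero_mul]
        exact hY0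
    have hA : ∑ u, ∑ w, sumuw_g Bs q⁻¹ x y z u * sumuw_g Bs q⁻¹ x y z w ≤ X ^ 2 := by
      rw [← Finset.sum_mul_sum, sq]
      exact mul_le_mul hgs hgs hg0 hX0
    have hB : ∑ u, ∑ w, ind (sumuw_good Bs κ x y z u) *
        (sumuw_g Bs q⁻¹ x y z u * sumuw_h Bs q⁻¹ x y z u w) ≤ X * Y := by
      calc ∑ u, ∑ w, ind (sumuw_good Bs κ x y z u) *
            (sumuw_g Bs q⁻¹ x y z u * sumuw_h Bs q⁻¹ x y z u w)
          = ∑ u, sumuw_g Bs q⁻¹ x y z u *
            (ind (sumuw_good Bs κ x y z u) * ∑ w, sumuw_h Bs q⁻¹ x y z u w) := by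
            refine Finset.sum_congr rfl fun u _ => ?_
            rw [Finset.mul_sum, Finset.mul_sum]
            refine Finset.sum_congr rfl fun w _ => ?_
            ring
        _ ≤ ∑ u, sumuw_g Bs q⁻¹ x y z u * Y :=
            Finset.sum_le_sum fun u _ =>
              mul_le_mul_of_nonneg_left (hhs u) (sumuw_g_nonneg Bs hr0 x y z u)
        _ = (∑ u, sumuw_g Bs q⁻¹ x y z u) * Y := (Finset.sum_mul _ _ _).symm
        _ ≤ X * Y := mul_le_mul_of_nonneg_right hgs hY0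
    have hC : ∑ u, ∑ w, ind (sumuw_good Bs κ x y z w) *
        (sumuw_g Bs q⁻¹ x y z w * sumuw_h Bs q⁻¹ x y z w u) ≤ X * Y := by
      rw [Finset.sum_comm]
      exact hB
    have hsum : ∑ u, ∑ w, f u w = q ^ 7 * (
        ∑ u, ∑ w, sumuw_g Bs q⁻¹ x y z u * sumuw_g Bs q⁻¹ x y z w +
        ∑ u, ∑ w, ind (sumuw_good Bs κ x y z u) *
          (sumuw_g Bs q⁻¹ x y z u * sumuw_h Bs q⁻¹ x y z u w) +
        ∑ u, ∑ w, ind (sumuw_good Bs κ x y z w) *
          (sumuw_g Bs q⁻¹ x y z w * sumuw_h Bs q⁻¹ x y z w u)) := by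
      simp only [hf, ← Finset.mul_sum, Finset.sum_add_distrib]
    rw [hsum]
    refine mul_le_mul_of_nonneg_left ?_ (pow_nonneg hq0.le 7)
    nlinarith [hA, hB, hC]
  · have h1 : ∑ v : Fin 5 → Fin n, ind (v 0 = x ∧ v 1 = y ∧ v 2 = z ∧ Function.Injective v ∧
        (gr Bs).Adj x y ∧ (gr Bs).Adj x z ∧ (gr Bs).Adj y z ∧ OnlyOne (gr Bs) v ∧
        CodLe (gr Bs) κ v) * q ^ #(prs v \ Bs) = 0 := by
      refine Finset.sum_eq_zero fun v _ => ?_
      rw [sumuw_ind_neg, zero_mul]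
      rintro ⟨h0, h1, -, -, -, -, -, -, hC⟩
      have := hC 0 1 (by decide)
      rw [h0, h1] at this
      exact hxy this
    rw [h1]
    positivity

end H2.K5
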