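import Pool.Agent.H2.K5.First
import Pool.Agent.H2.K5.SumUW

/-!
# SPARSE: assembly of the sparse bound

Let `Good h` say: all degrees of `gr h.toFinset` are at most `d`, `Loc (gr h.toFinset) s`,
`Core (gr h.toFinset) s b`; it passes to final segments. If `Good l`, no `K_5` of `gr l.toFinset`
has a pair with codegree `≥ κ + 1`, and `gr (B l)` has a `K_5`, then `first_tri` gives `h, v`; put
`a v h = ind (Good h ∧ Function.Injective v ∧ NewTri B (v 0) (v 1) (v 2) h ∧ OnlyOne (gr (B h)) v ∧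
CodLe (gr (B h)) κ v ∧ ∀ e ∈ prs v \ B h, e ∉ h)`, `R v h = prs v \ B h`; so the indicator of the event
is at most the four bad indicators plus `hsum (fun h => ∑ v, a v h * ind (R v h ⊆ l.toFinset)) l`.
`Ex_crit`; then `∑_v a v h q^#R ≤ ind (Good h) * ∑_{x,y,z} ind (NewTri B x y z h) * (q^7 (...))` by
`sum_uw` (degrees in `gr (B h) ≤ gr h.toFinset`), and `tri_sum` with `T = 24 b` (`peel`; `#(B h) ≤ b`
since `B h ⊆ B l`).
-/

set_option autoImplicit false

namespace H2.K5

open Finset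

/-- the history `h` is good -/
def SparseGood {n : ℕ} (d s b : ℕ) (h : List (Pair n)) : Prop :=
  (∀ x, degIn (gr h.toFinset) univ x ≤ d) ∧ Loc (gr h.toFinset) s ∧ Core (gr h.toFinset) s b

theorem sparse_good_tail {n d s b : ℕ} (e : Pair n) (h : List (Pair n))
    (H : SparseGood d s b (e :: h)) : SparseGood d s b h := by
  have hsub : h.toFinset ⊆ (e :: h).toFinset := by
    rw [List.toFinset_cons]
    exact subset_insert _ _
  have hg := gr_mono hsub
  exact ⟨fun x => (degIn_mono hg univ x).trans (H.1 x), Loc_anti hg H.2.1, Core_anti hg H.2.2⟩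

theorem sparse_good_suffix {n d s b : ℕ} {h l : List (Pair n)} (hl : h <:+ l)
    (H : SparseGood d s b l) : SparseGood d s b h := by
  induction l with
  | nil =>
    rw [List.suffix_nil.1 hl]
    exact H
  | cons e l ih =>
    rcases List.suffix_cons_iff.1 hl with h1 | h1
    · rw [h1]
      exact H
    · exact ih h1 (sparse_good_tail e l H)

/-- the weight of the critical moment -/
noncomputable def sparseA {n : ℕ} (B : List (Pair n) → Finset (Pair n)) (d s b κ : ℕ)
    (v : Fin 5 → Fin n) (h : List (Pair n)) : ℝ :=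
  ind (SparseGood d s b h ∧ Function.Injective v ∧ NewTri B (v 0) (v 1) (v 2) h ∧
    OnlyOne (gr (B h)) v ∧ CodLe (gr (B h)) κ v ∧ ∀ e ∈ prs v \ B h, e ∉ h)

theorem sparse_run_sub {n : ℕ} {B : List (Pair n) → Finset (Pair n)} (hB : IsRun B)
    (l : List (Pair n)) : B l ⊆ l.toFinset := by
  intro e he
  exact List.mem_toFinset.2 (hB.mem he)

/-- the event is contained in the union of the bad events and the critical moments -/
theorem sparse_event {n b d κ s : ℕ} {B : List (Pair n) → Finset (Pair n)}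
    (hB : IsRun B) (l : List (Pair n)) (hl : l.Nodup) :
    ind (¬ (gr (B l)).CliqueFree 5) ≤
      ind (∃ x, d + 1 ≤ degIn (gr l.toFinset) univ x) +
      ind (¬ Loc (gr l.toFinset) s) +
      ind (¬ Core (gr l.toFinset) s b) +
      ind (∃ v : Fin 5 → Fin n, Function.Injective v ∧
        prs v ⊆ l.toFinset ∧ ∃ i j, i ≠ j ∧ κ + 1 ≤ codeg (gr l.toFinset) (v i) (v j)) +
      hsum (fun h => ∑ v : Fin 5 → Fin n,
        sparseA B d s b κ v h * ind (prs v \ B h ⊆ l.toFinset)) l := by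
  have h0 : ∀ h : List (Pair n), 0 ≤ ∑ v : Fin 5 → Fin n,
      sparseA B d s b κ v h * ind (prs v \ B h ⊆ l.toFinset) := fun h =>
    sum_nonneg fun v _ => mul_nonneg (ind_nonneg _) (ind_nonneg _)
  have h0' := critl_nonneg h0 l
  have n1 := ind_nonneg (∃ x, d + 1 ≤ degIn (gr l.toFinset) univ x)
  have n2 := ind_nonneg (¬ Loc (gr l.toFinset) s)
  have n3 := ind_nonneg (¬ Core (gr l.toFinset) s b)
  have n4 := ind_nonneg (∃ v : Fin 5 → Fin n, Function.Injective v ∧
        prs v ⊆ l.toFinset ∧ ∃ i j, i ≠ j ∧ κ + 1 ≤ codeg (gr l.toFinset) (v i) (v j))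
  have n0 := ind_le_one (¬ (gr (B l)).CliqueFree 5)
  by_cases hK : ¬ (gr (B l)).CliqueFree 5
  swap
  · rw [ind_false hK]
    linarith
  by_cases h1 : ∃ x, d + 1 ≤ degIn (gr l.toFinset) univ x
  · have := ind_true h1
    linarith
  by_cases h2 : ¬ Loc (gr l.toFinset) s
  · have := ind_true h2
    linarith
  by_cases h3 : ¬ Core (gr l.toFinset) s b
  · have := ind_true h3
    linarith
  by_cases h4 : ∃ v : Fin 5 → Fin n, Function.Injective v ∧
        prs v ⊆ l.toFinset ∧ ∃ i j, i ≠ j ∧ κ + 1 ≤ codeg (gr l.toFinset) (v i) (v j)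
  · have := ind_true h4
    linarith
  have hgood : SparseGood d s b l := by
    refine ⟨fun x => ?_, not_not.1 h2, not_not.1 h3⟩
    by_contra hx
    exact h1 ⟨x, by omega⟩
  obtain ⟨h, v, hhl, hinj, hprs, hnew, honly, hlate, hRl⟩ := first_tri hB hl hK
  have hsubl : prs v ⊆ l.toFinset := hprs.trans (sparse_run_sub hB l)
  have hcod : CodLe (gr (B h)) κ v := by
    intro i j hij
    have hmono := codeg_mono (gr_mono ((hB.mono hhl).trans (sparse_run_sub hB l))) (v i) (v j)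
    refine hmono.trans ?_
    by_contra hx
    exact h4 ⟨v, hinj, hsubl, i, j, hij, by omega⟩
  have hcond : SparseGood d s b h ∧ Function.Injective v ∧ NewTri B (v 0) (v 1) (v 2) h ∧
      OnlyOne (gr (B h)) v ∧ CodLe (gr (B h)) κ v ∧ ∀ e ∈ prs v \ B h, e ∉ h :=
    ⟨sparse_good_suffix hhl hgood, hinj, hnew, honly, hcod, hlate⟩
  have e1 : sparseA B d s b κ v h * ind (prs v \ B h ⊆ l.toFinset) = 1 := by
    unfold sparseA
    rw [ind_true hcond, ind_true hRl, one_mul]
  have e2 : (1 : ℝ) ≤ ∑ v : Fin 5 → Fin n,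
      sparseA B d s b κ v h * ind (prs v \ B h ⊆ l.toFinset) := by
    rw [← e1]
    exact single_le_sum (f := fun v : Fin 5 → Fin n =>
      sparseA B d s b κ v h * ind (prs v \ B h ⊆ l.toFinset))
      (fun v _ => mul_nonneg (ind_nonneg _) (ind_nonneg _)) (mem_univ v)
  have e3 := le_hsum h0 hhl
  linarith

theorem sparse_newTri_adj {n : ℕ} {B : List (Pair n) → Finset (Pair n)} {x y z : Fin n}
    {h : List (Pair n)} (H : NewTri B x y z h) :
    (gr (B h)).Adj x y ∧ (gr (B h)).Adj x z ∧ (gr (B h)).Adj y z := by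
  cases h with
  | nil => exact absurd H (fun h => h)
  | cons e h =>
    obtain ⟨h1, h2, h3, h4⟩ := H
    exact ⟨(gr_adj _ x y).2 ⟨e, h2, h1⟩, h3, h4⟩

/-- the weighted number of tuples at one moment -/
theorem sparse_moment {n : ℕ} {b d κ s : ℕ} {B : List (Pair n) → Finset (Pair n)}
    (hB : IsRun B) {q : ℝ} (hq0 : 0 < q) (hq1 : q ≤ 1) (h : List (Pair n)) :
    ∑ v : Fin 5 → Fin n, sparseA B d s b κ v h * q ^ #(prs v \ B h) ≤
      (q ^ 7 * ((n + 3 * d / q + κ / q ^ 2) ^ 2 +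
        2 * (n + 3 * d / q + κ / q ^ 2) * (d / q + 3 * κ / q ^ 2))) *
      (ind (SparseGood d s b h) * ∑ x, ∑ y, ∑ z, ind (NewTri B x y z h)) := by
  classical
  by_cases hg : SparseGood d s b h
  swap
  · rw [ind_false hg, zero_mul, mul_zero]
    refine le_of_eq (sum_eq_zero fun v _ => ?_)
    unfold sparseA
    rw [ind_false (fun h' => hg h'.1), zero_mul]
  rw [ind_true hg, one_mul]
  set W : ℝ := q ^ 7 * ((n + 3 * d / q + κ / q ^ 2) ^ 2 +
        2 * (n + 3 * d / q + κ / q ^ 2) * (d / q + 3 * κ / q ^ 2)) with hW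
  have hsub : gr (B h) ≤ gr h.toFinset := gr_mono (sparse_run_sub hB h)
  have hd : ∀ x, degIn (gr (B h)) univ x ≤ d := fun x =>
    (degIn_mono hsub univ x).trans (hg.1 x)
  have key : ∀ x y z : Fin n, ∑ v : Fin 5 → Fin n, ind (v 0 = x ∧ v 1 = y ∧ v 2 = z ∧
      Function.Injective v ∧
      (gr (B h)).Adj x y ∧ (gr (B h)).Adj x z ∧ (gr (B h)).Adj y z ∧ OnlyOne (gr (B h)) v ∧
      CodLe (gr (B h)) κ v) * q ^ #(prs v \ B h) ≤ W := fun x y z =>
    sum_uw (B h) κ d hq0 hq1 hd x y z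
  have step1 : ∀ v : Fin 5 → Fin n, sparseA B d s b κ v h * q ^ #(prs v \ B h) ≤
      ∑ x, ∑ y, ∑ z, ind (NewTri B x y z h) * (ind (v 0 = x ∧ v 1 = y ∧ v 2 = z ∧
      Function.Injective v ∧
      (gr (B h)).Adj x y ∧ (gr (B h)).Adj x z ∧ (gr (B h)).Adj y z ∧ OnlyOne (gr (B h)) v ∧
      CodLe (gr (B h)) κ v) * q ^ #(prs v \ B h)) := by
    intro v
    have hnn : ∀ x y z : Fin n, 0 ≤ ind (NewTri B x y z h) * (ind (v 0 = x ∧ v 1 = y ∧ v 2 = z ∧
      Function.Injective v ∧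
      (gr (B h)).Adj x y ∧ (gr (B h)).Adj x z ∧ (gr (B h)).Adj y z ∧ OnlyOne (gr (B h)) v ∧
      CodLe (gr (B h)) κ v) * q ^ #(prs v \ B h)) := fun x y z =>
      mul_nonneg (ind_nonneg _) (mul_nonneg (ind_nonneg _) (by positivity))
    by_cases hc : SparseGood d s b h ∧ Function.Injective v ∧ NewTri B (v 0) (v 1) (v 2) h ∧
      OnlyOne (gr (B h)) v ∧ CodLe (gr (B h)) κ v ∧ ∀ e ∈ prs v \ B h, e ∉ h
    · obtain ⟨-, c1, c2, c3, c4, -⟩ := hc
      have hadj := sparse_newTri_adj c2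
      have hle : sparseA B d s b κ v h * q ^ #(prs v \ B h) ≤
          ind (NewTri B (v 0) (v 1) (v 2) h) * (ind (v 0 = v 0 ∧ v 1 = v 1 ∧ v 2 = v 2 ∧
            Function.Injective v ∧
            (gr (B h)).Adj (v 0) (v 1) ∧ (gr (B h)).Adj (v 0) (v 2) ∧ (gr (B h)).Adj (v 1) (v 2) ∧
            OnlyOne (gr (B h)) v ∧ CodLe (gr (B h)) κ v) * q ^ #(prs v \ B h)) := by
        have t1 : ind (v 0 = v 0 ∧ v 1 = v 1 ∧ v 2 = v 2 ∧
            Function.Injective v ∧
            (gr (B h)).Adj (v 0) (v 1) ∧ (gr (B h)).Adj (v 0) (v 2) ∧ (gr (B h)).Adj (v 1) (v 2) ∧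
            OnlyOne (gr (B h)) v ∧ CodLe (gr (B h)) κ v) = 1 :=
          ind_true ⟨rfl, rfl, rfl, c1, hadj.1, hadj.2.1, hadj.2.2, c3, c4⟩
        rw [ind_true c2, t1, one_mul]
        exact mul_le_mul_of_nonneg_right (ind_le_one _) (by positivity)
      refine hle.trans ?_
      refine le_trans ?_ (single_le_sum (f := fun x => ∑ y, ∑ z, ind (NewTri B x y z h) *
        (ind (v 0 = x ∧ v 1 = y ∧ v 2 = z ∧ Function.Injective v ∧
        (gr (B h)).Adj x y ∧ (gr (B h)).Adj x z ∧ (gr (B h)).Adj y z ∧ OnlyOne (gr (B h)) v ∧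
        CodLe (gr (B h)) κ v) * q ^ #(prs v \ B h)))
        (fun x _ => sum_nonneg fun y _ => sum_nonneg fun z _ => hnn x y z) (mem_univ (v 0)))
      refine le_trans ?_ (single_le_sum (f := fun y => ∑ z, ind (NewTri B (v 0) y z h) *
        (ind (v 0 = v 0 ∧ v 1 = y ∧ v 2 = z ∧ Function.Injective v ∧
        (gr (B h)).Adj (v 0) y ∧ (gr (B h)).Adj (v 0) z ∧ (gr (B h)).Adj y z ∧
        OnlyOne (gr (B h)) v ∧ CodLe (gr (B h)) κ v) * q ^ #(prs v \ B h)))
        (fun y _ => sum_nonneg fun z _ => hnn (v 0) y z) (mem_univ (v 1)))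
      exact single_le_sum (f := fun z => ind (NewTri B (v 0) (v 1) z h) *
        (ind (v 0 = v 0 ∧ v 1 = v 1 ∧ v 2 = z ∧ Function.Injective v ∧
        (gr (B h)).Adj (v 0) (v 1) ∧ (gr (B h)).Adj (v 0) z ∧ (gr (B h)).Adj (v 1) z ∧
        OnlyOne (gr (B h)) v ∧ CodLe (gr (B h)) κ v) * q ^ #(prs v \ B h)))
        (fun z _ => hnn (v 0) (v 1) z) (mem_univ (v 2))
    · unfold sparseA
      rw [ind_false hc, zero_mul]
      exact sum_nonneg fun x _ => sum_nonneg fun y _ => sum_nonneg fun z _ => hnn x y z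
  calc ∑ v : Fin 5 → Fin n, sparseA B d s b κ v h * q ^ #(prs v \ B h)
      ≤ ∑ v : Fin 5 → Fin n, ∑ x, ∑ y, ∑ z, ind (NewTri B x y z h) *
        (ind (v 0 = x ∧ v 1 = y ∧ v 2 = z ∧ Function.Injective v ∧
        (gr (B h)).Adj x y ∧ (gr (B h)).Adj x z ∧ (gr (B h)).Adj y z ∧ OnlyOne (gr (B h)) v ∧
        CodLe (gr (B h)) κ v) * q ^ #(prs v \ B h)) := sum_le_sum fun v _ => step1 v
    _ = ∑ x, ∑ y, ∑ z, ind (NewTri B x y z h) * ∑ v : Fin 5 → Fin n,
        (ind (v 0 = x ∧ v 1 = y ∧ v 2 = z ∧ Function.Injective v ∧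
        (gr (B h)).Adj x y ∧ (gr (B h)).Adj x z ∧ (gr (B h)).Adj y z ∧ OnlyOne (gr (B h)) v ∧
        CodLe (gr (B h)) κ v) * q ^ #(prs v \ B h)) := by
        rw [sum_comm]
        refine sum_congr rfl fun x _ => ?_
        rw [sum_comm]
        refine sum_congr rfl fun y _ => ?_
        rw [sum_comm]
        refine sum_congr rfl fun z _ => ?_
        rw [mul_sum]
    _ ≤ ∑ x, ∑ y, ∑ z, ind (NewTri B x y z h) * W :=
        sum_le_sum fun x _ => sum_le_sum fun y _ => sum_le_sum fun z _ =>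
          mul_le_mul_of_nonneg_left (key x y z) (ind_nonneg _)
    _ = W * ∑ x, ∑ y, ∑ z, ind (NewTri B x y z h) := by
        rw [mul_sum]
        refine sum_congr rfl fun x _ => ?_
        rw [mul_sum]
        refine sum_congr rfl fun y _ => ?_
        rw [mul_sum]
        refine sum_congr rfl fun z _ => ?_
        ring

theorem sparse_main {n t b d κ s : ℕ} (ht : t ≤ Fintype.card (Pair n)) {q : ℝ}
    (hq : q = t / Fintype.card (Pair n)) (hq0 : 0 < q) {B : List (Pair n) → Finset (Pair n)}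
    (hB : IsRun B) (hb : ∀ l : List (Pair n), l.Nodup → l.length = t → #(B l) ≤ b) :
    Ex t [] (fun l => ind (¬ (gr (B l)).CliqueFree 5)) ≤
      Ex t [] (fun l : List (Pair n) => ind (∃ x, d + 1 ≤ degIn (gr l.toFinset) univ x)) +
      Ex t [] (fun l : List (Pair n) => ind (¬ Loc (gr l.toFinset) s)) +
      Ex t [] (fun l : List (Pair n) => ind (¬ Core (gr l.toFinset) s b)) +
      Ex t [] (fun l : List (Pair n) => ind (∃ v : Fin 5 → Fin n, Function.Injective v ∧
        prs v ⊆ l.toFinset ∧ ∃ i j, i ≠ j ∧ κ + 1 ≤ codeg (gr l.toFinset) (v i) (v j))) +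
      24 * b * (q ^ 7 * ((n + 3 * d / q + κ / q ^ 2) ^ 2 +
        2 * (n + 3 * d / q + κ / q ^ 2) * (d / q + 3 * κ / q ^ 2))) := by
  have hq1 : q ≤ 1 := by
    rw [hq]
    refine div_le_one_of_le₀ ?_ (Nat.cast_nonneg _)
    exact_mod_cast ht
  set W : ℝ := q ^ 7 * ((n + 3 * d / q + κ / q ^ 2) ^ 2 +
        2 * (n + 3 * d / q + κ / q ^ 2) * (d / q + 3 * κ / q ^ 2)) with hW
  have hW0 : 0 ≤ W := by rw [hW]; positivity
  have s1 : Ex t [] (fun l => ind (¬ (gr (B l)).CliqueFree 5)) ≤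
      Ex t [] (fun l : List (Pair n) =>
        ind (∃ x, d + 1 ≤ degIn (gr l.toFinset) univ x) +
        ind (¬ Loc (gr l.toFinset) s) +
        ind (¬ Core (gr l.toFinset) s b) +
        ind (∃ v : Fin 5 → Fin n, Function.Injective v ∧
          prs v ⊆ l.toFinset ∧ ∃ i j, i ≠ j ∧ κ + 1 ≤ codeg (gr l.toFinset) (v i) (v j)) +
        hsum (fun h => ∑ v : Fin 5 → Fin n,
          sparseA B d s b κ v h * ind (prs v \ B h ⊆ l.toFinset)) l) :=
    Ex_le List.nodup_nil fun l hl _ _ => sparse_event hB l hl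
  rw [Ex_add, Ex_add, Ex_add, Ex_add] at s1
  refine s1.trans ?_
  have s2 := Ex_crit (E := Pair n) (univ : Finset (Fin 5 → Fin n)) ht (sparseA B d s b κ)
    (fun v h => ind_nonneg _) (fun v h => prs v \ B h) (by
      intro v h ha
      by_contra hcon
      apply ha
      unfold sparseA
      exact ind_false fun h' => hcon h'.2.2.2.2.2)
  have s3 : Ex t [] (fun l => hsum (fun h => ∑ v : Fin 5 → Fin n,
      sparseA B d s b κ v h * ((t : ℝ) / Fintype.card (Pair n)) ^ #(prs v \ B h)) l) ≤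
      Ex t [] (fun _ : List (Pair n) => 24 * b * W) := by
    refine Ex_le List.nodup_nil fun l hl hlen _ => ?_
    have hlen' : l.length = t := by simpa using hlen
    rw [← hq]
    refine (hsum_le (g' := fun h => W * (ind (SparseGood d s b h) *
      ∑ x, ∑ y, ∑ z, ind (NewTri B x y z h))) l fun h _ => sparse_moment hB hq0 hq1 h).trans ?_
    rw [hsum_mul]
    have hT := tri_sum hB (SparseGood d s b) sparse_good_tail (T := 24 * b) (by positivity) hl (by
      intro h hh hgood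
      have hcard : #(B h) ≤ b := (card_le_card (hB.mono hh)).trans (hb l hl hlen')
      have := peel (gr h.toFinset) (gr (B h)) (gr_mono (sparse_run_sub hB h)) s b
        (by rw [epairs_gr]; omega) hgood.2.1 hgood.2.2
      exact_mod_cast this)
    calc W * hsum (fun h => ind (SparseGood d s b h) * ∑ x, ∑ y, ∑ z, ind (NewTri B x y z h)) l
        ≤ W * (24 * b) := mul_le_mul_of_nonneg_left hT hW0
      _ = 24 * b * W := by ring
  rw [Ex_const List.nodup_nil (by simpa using ht)] at s3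
  linarith

end H2.K5
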