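import Pool.Agent.H2.K5.Reg
import Pool.Agent.H2.K5.Sparse
import Pool.Agent.H2.K5.Deg
import Pool.Agent.H2.K5.Cod
import Pool.Agent.H2.K5.Loc
import Pool.Agent.H2.K5.Core

/-!
# REGB: the sparse range

For `n ≥ 2`: `n^2/4 ≤ M ≤ n^2/2`, so `2 t/n^2 ≤ q ≤ 4 t/n^2`; `D = n q^2 ≥ 4 t^2/n^3 ≥ 4 lam^2` is large;
`q ≤ 4 n^(-3/8)`, so `q^8 n^3 ≤ 4^8 = 65536`; `n q ≥ √n` (from `D ≥ 1`). Put `k = ⌈9 D⌉₊`, `κ = k + 2`,
`d + 1 = ⌈9 n q⌉₊ + 1`, `s = ⌊1/(q^2 √n)⌋₊`. From `b ≤ c n^12/t^7` and `t ≥ q n^2/4`: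
`b n^2 q^7 ≤ 4^7 c`, so `32 b n q^5 ≤ 32 * 4^7 * c/D ≤ 1`. `sparse_main`, `deg_prob`, `loc_prob`,
`core_prob`, `cod_prob`: the terms are at most `n (1/3)^(9√n)`, `C/√n`, `C/√n`, `25 D^5 (1/3)^(9D)`
(small for `D ≥ D0`), and the last one is at most `24 b q^7 * C' n^2 ≤ 24 C' 4^7 c` where
`3 d/q ≤ 30 n`, `κ/q^2 ≤ 12 n` (`D ≥ 1`).
-/

set_option autoImplicit false

namespace H2.K5

open Finset

private lemma regb_card (n : ℕ) (hn : 2 ≤ n) :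
    (n : ℝ) ^ 2 / 4 ≤ (Fintype.card (Pair n) : ℝ) ∧ (Fintype.card (Pair n) : ℝ) ≤ (n : ℝ) ^ 2 / 2 := by
  rw [card_pair, Nat.cast_choose_two]
  have h2 : (2 : ℝ) ≤ n := by exact_mod_cast hn
  constructor <;> nlinarith

private lemma regb_pow3 (m : ℕ) : m ^ 3 ≤ 3 ^ m := by
  induction m with
  | zero => norm_num
  | succ m ih =>
    rcases Nat.lt_or_ge m 3 with h | h
    · interval_cases m <;> norm_num
    · have h1 : (m + 1) ^ 3 ≤ 3 * m ^ 3 := by nlinarith [Nat.mul_le_mul h h, Nat.mul_le_mul (Nat.mul_le_mul h h) h, Nat.mul_le_mul h (le_refl (m * m)), mul_comm m m]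
      calc (m + 1) ^ 3 ≤ 3 * m ^ 3 := h1
        _ ≤ 3 * 3 ^ m := Nat.mul_le_mul_left 3 ih
        _ = 3 ^ (m + 1) := by ring

private lemma regb_term1 (n m : ℕ) (hn : 1 ≤ n) (hm : Real.sqrt n ≤ m) :
    (n : ℝ) * (1 / 3) ^ m ≤ 1 / Real.sqrt n := by
  have hn0 : (0 : ℝ) < n := by exact_mod_cast hn
  have hs : 0 < Real.sqrt n := Real.sqrt_pos.2 hn0
  have hm0 : (0 : ℝ) < m := hs.trans_le hm
  have h1 : (m : ℝ) ^ 3 ≤ 3 ^ m := by exact_mod_cast regb_pow3 m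
  have h2 : ((1 : ℝ) / 3) ^ m ≤ 1 / (m : ℝ) ^ 3 := by
    rw [one_div_pow]
    exact one_div_le_one_div_of_le (by positivity) h1
  have h3 : (Real.sqrt n) ^ 3 ≤ (m : ℝ) ^ 3 := pow_le_pow_left₀ hs.le hm 3
  have h4 : (n : ℝ) = Real.sqrt n ^ 2 := (Real.sq_sqrt hn0.le).symm
  calc (n : ℝ) * (1 / 3) ^ m ≤ n * (1 / (m : ℝ) ^ 3) := mul_le_mul_of_nonneg_left h2 hn0.le
    _ ≤ n * (1 / (Real.sqrt n) ^ 3) :=
      mul_le_mul_of_nonneg_left (one_div_le_one_div_of_le (by positivity) h3) hn0.le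
    _ = 1 / Real.sqrt n := by
      nth_rw 1 [h4]
      field_simp

private lemma regb_term4 (k : ℕ) (D : ℝ) (hD : 1 ≤ D) (hk : 9 * D ≤ k) :
    25 * D ^ 5 * (1 / 3) ^ k ≤ 1 / D := by
  have hD0 : 0 < D := by linarith
  have hk0 : (0 : ℝ) < k := by linarith
  have h1 : (k : ℝ) ^ 6 / 720 ≤ 3 ^ k := by
    have h2 := Real.pow_div_factorial_le_exp (k : ℝ) hk0.le 6
    have h3 : Real.exp (k : ℝ) ≤ 3 ^ k := by
      have h4 : Real.exp (k : ℝ) = Real.exp 1 ^ k := by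
        rw [← Real.exp_nat_mul, mul_one]
      rw [h4]
      refine pow_le_pow_left₀ (Real.exp_pos 1).le ?_ k
      have := Real.exp_one_lt_d9
      linarith
    have h5 : ((Nat.factorial 6 : ℕ) : ℝ) = 720 := by norm_num [Nat.factorial]
    rw [h5] at h2
    exact h2.trans h3
  have h6 : (9 * D) ^ 6 / 720 ≤ 3 ^ k := by
    refine le_trans ?_ h1
    exact div_le_div_of_nonneg_right (pow_le_pow_left₀ (by positivity) hk 6) (by norm_num)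
  have h7 : ((1 : ℝ) / 3) ^ k ≤ 720 / (9 * D) ^ 6 := by
    rw [one_div_pow, one_div_le (by positivity) (by positivity)]
    rw [one_div_div]
    exact h6
  calc 25 * D ^ 5 * (1 / 3) ^ k ≤ 25 * D ^ 5 * (720 / (9 * D) ^ 6) :=
        mul_le_mul_of_nonneg_left h7 (by positivity)
    _ = (25 * 720 / 9 ^ 6) * (1 / D) := by
      field_simp
    _ ≤ 1 * (1 / D) := by
      refine mul_le_mul_of_nonneg_right (by norm_num) (by positivity)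
    _ = 1 / D := one_mul _

/-- the real inequalities on `q` -/
private lemma regb_q (n t : ℕ) (hn : 2 ≤ n) (lam : ℝ) (hlam : 1 ≤ lam) (ht : t ≤ Fintype.card (Pair n))
    (h1 : lam * (n : ℝ) ^ (3 / 2 : ℝ) ≤ t) (h2 : (t : ℝ) ≤ (n : ℝ) ^ (13 / 8 : ℝ)) (q : ℝ)
    (hq : q = t / Fintype.card (Pair n)) :
    0 < q ∧ q ≤ 1 ∧ 4 * lam ^ 2 ≤ n * q ^ 2 ∧ q ^ 8 * n ^ 3 ≤ 65536 ∧ q * (n : ℝ) ^ 2 / 4 ≤ t ∧ (0 : ℝ) < t := by
  obtain ⟨hM1, hM2⟩ := regb_card n hn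
  have hn0 : (0 : ℝ) < n := by exact_mod_cast (by omega : 0 < n)
  have hM0 : (0 : ℝ) < Fintype.card (Pair n) := lt_of_lt_of_le (by positivity) hM1
  have hx : 0 < (n : ℝ) ^ (3 / 2 : ℝ) := Real.rpow_pos_of_pos hn0 _
  have ht0 : (0 : ℝ) < t := lt_of_lt_of_le (by positivity) h1
  have hq0 : 0 < q := by rw [hq]; positivity
  have hq1 : q ≤ 1 := by
    rw [hq, div_le_one hM0]
    exact_mod_cast ht
  have hqM : q * Fintype.card (Pair n) = t := by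
    rw [hq]; field_simp
  have hql : q ≤ 4 * t / (n : ℝ) ^ 2 := by
    rw [le_div_iff₀ (by positivity)]
    nlinarith
  have hqg : 2 * t / (n : ℝ) ^ 2 ≤ q := by
    rw [div_le_iff₀ (by positivity)]
    nlinarith
  have hx2 : ((n : ℝ) ^ (3 / 2 : ℝ)) ^ 2 = (n : ℝ) ^ 3 := by
    rw [← Real.rpow_natCast, ← Real.rpow_mul hn0.le, ← Real.rpow_natCast]
    norm_num
  have hy8 : ((n : ℝ) ^ (13 / 8 : ℝ)) ^ 8 = (n : ℝ) ^ 13 := by
    rw [← Real.rpow_natCast, ← Real.rpow_mul hn0.le, ← Real.rpow_natCast]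
    norm_num
  refine ⟨hq0, hq1, ?_, ?_, ?_, ht0⟩
  · have h3 : lam ^ 2 * (n : ℝ) ^ 3 ≤ (t : ℝ) ^ 2 := by
      rw [← hx2, ← mul_pow]
      exact pow_le_pow_left₀ (by positivity) h1 2
    have h4 : (2 * t / (n : ℝ) ^ 2) ^ 2 ≤ q ^ 2 := pow_le_pow_left₀ (by positivity) hqg 2
    have h5 : (n : ℝ) * (2 * t / (n : ℝ) ^ 2) ^ 2 ≤ n * q ^ 2 := mul_le_mul_of_nonneg_left h4 hn0.le
    refine le_trans ?_ h5
    have h6 : (n : ℝ) * (2 * t / (n : ℝ) ^ 2) ^ 2 = 4 * (t : ℝ) ^ 2 / (n : ℝ) ^ 3 := by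
      field_simp
      ring
    rw [h6, le_div_iff₀ (by positivity)]
    linarith
  · have h3 : (t : ℝ) ^ 8 ≤ (n : ℝ) ^ 13 := by
      rw [← hy8]
      exact pow_le_pow_left₀ ht0.le h2 8
    have h4 : q ^ 8 ≤ (4 * t / (n : ℝ) ^ 2) ^ 8 := pow_le_pow_left₀ hq0.le hql 8
    have h5 : q ^ 8 * (n : ℝ) ^ 3 ≤ (4 * t / (n : ℝ) ^ 2) ^ 8 * (n : ℝ) ^ 3 :=
      mul_le_mul_of_nonneg_right h4 (by positivity)
    refine h5.trans ?_
    have h6 : (4 * t / (n : ℝ) ^ 2) ^ 8 * (n : ℝ) ^ 3 = 65536 * (t : ℝ) ^ 8 / (n : ℝ) ^ 13 := by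
      field_simp
      ring
    rw [h6, div_le_iff₀ (by positivity)]
    linarith
  · nlinarith

private lemma regb_ceil {x : ℝ} (hx : 0 ≤ x) : x ≤ (⌈x⌉₊ : ℝ) ∧ (⌈x⌉₊ : ℝ) ≤ x + 1 :=
  ⟨Nat.le_ceil x, (Nat.ceil_lt_add_one hx).le⟩

/-- the last term -/
private lemma regb_last (n b d κ : ℕ) (q c : ℝ) (hq0 : 0 < q) (hn0 : (0 : ℝ) < n)
    (hd : (d : ℝ) ≤ 10 * (n * q)) (hκ : (κ : ℝ) ≤ 12 * (n * q ^ 2)) (hb : (b : ℝ) * n ^ 2 * q ^ 7 ≤ 16384 * c) :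
    24 * b * (q ^ 7 * ((n + 3 * d / q + κ / q ^ 2) ^ 2 +
        2 * (n + 3 * d / q + κ / q ^ 2) * (d / q + 3 * κ / q ^ 2))) ≤ 2282618880 * c := by
  have h1 : (d : ℝ) / q ≤ 10 * n := by
    rw [div_le_iff₀ hq0]; linarith
  have h2 : (κ : ℝ) / q ^ 2 ≤ 12 * n := by
    rw [div_le_iff₀ (by positivity)]; linarith
  have h3 : (n : ℝ) + 3 * d / q + κ / q ^ 2 ≤ 43 * n := by
    have : (3 : ℝ) * d / q = 3 * (d / q) := by ring
    rw [this]; linarith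
  have h3' : 0 ≤ (n : ℝ) + 3 * d / q + κ / q ^ 2 := by positivity
  have h4 : (d : ℝ) / q + 3 * κ / q ^ 2 ≤ 46 * n := by
    have : (3 : ℝ) * κ / q ^ 2 = 3 * (κ / q ^ 2) := by ring
    rw [this]; linarith
  have h4' : 0 ≤ (d : ℝ) / q + 3 * κ / q ^ 2 := by positivity
  have h5 : ((n : ℝ) + 3 * d / q + κ / q ^ 2) ^ 2 +
        2 * (n + 3 * d / q + κ / q ^ 2) * (d / q + 3 * κ / q ^ 2) ≤ 5805 * (n : ℝ) ^ 2 := by
    have h6 : ((n : ℝ) + 3 * d / q + κ / q ^ 2) ^ 2 ≤ (43 * n) ^ 2 := pow_le_pow_left₀ h3' h3 2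
    have h7 : 2 * ((n : ℝ) + 3 * d / q + κ / q ^ 2) * (d / q + 3 * κ / q ^ 2) ≤ 2 * (43 * n) * (46 * n) := by
      refine mul_le_mul ?_ h4 h4' (by positivity)
      linarith
    nlinarith
  have h8 : 24 * (b : ℝ) * (q ^ 7 * (((n : ℝ) + 3 * d / q + κ / q ^ 2) ^ 2 +
        2 * (n + 3 * d / q + κ / q ^ 2) * (d / q + 3 * κ / q ^ 2))) ≤
      24 * (b : ℝ) * (q ^ 7 * (5805 * (n : ℝ) ^ 2)) := by
    refine mul_le_mul_of_nonneg_left ?_ (by positivity)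
    exact mul_le_mul_of_nonneg_left h5 (by positivity)
  refine h8.trans ?_
  have h9 : 24 * (b : ℝ) * (q ^ 7 * (5805 * (n : ℝ) ^ 2)) = 139320 * ((b : ℝ) * n ^ 2 * q ^ 7) := by ring
  rw [h9]
  linarith

theorem reg_three {δ : ℝ} (hδ : 0 < δ) : ∃ lam : ℝ, 0 < lam ∧ ∃ c : ℝ, 0 < c ∧ ∃ n0 : ℕ,
    ∀ n, n0 ≤ n → ∀ t b : ℕ, t ≤ Fintype.card (Pair n) →
    lam * (n : ℝ) ^ (3 / 2 : ℝ) ≤ t → (t : ℝ) ≤ (n : ℝ) ^ (13 / 8 : ℝ) →
    (b : ℝ) ≤ c * ((n : ℝ) ^ 12 / (t : ℝ) ^ 7) → Bound n t b δ := by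
  obtain ⟨C1, hC1, hloc⟩ := loc_prob
  obtain ⟨C2, hC2, hcore⟩ := core_prob
  have hδ' : 0 < 1 / δ := by positivity
  refine ⟨1 + 1 / δ, by positivity, min (1 / 524288) (δ / (5 * 2282618880)), by positivity, ?_⟩
  obtain ⟨N, hN⟩ := exists_nat_ge ((5 * (1 + C1 + C2) / δ) ^ 2)
  refine ⟨max 2 N, ?_⟩
  intro n hn t b ht h1 h2 hb B hB hbud
  set c : ℝ := min (1 / 524288) (δ / (5 * 2282618880)) with hc
  have hc1 : c ≤ 1 / 524288 := min_le_left _ _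
  have hc2 : c ≤ δ / (5 * 2282618880) := min_le_right _ _
  have hc0 : 0 < c := by positivity
  have hn2 : 2 ≤ n := (le_max_left _ _).trans hn
  have hnN : N ≤ n := (le_max_right _ _).trans hn
  have hn0 : (0 : ℝ) < n := by exact_mod_cast (by omega : 0 < n)
  set q : ℝ := (t : ℝ) / Fintype.card (Pair n) with hq
  obtain ⟨hq0, hq1, hD4, hq8, hqt, ht0⟩ := regb_q n t hn2 (1 + 1 / δ) (by linarith) ht h1 h2 q hq
  have hsq : 0 < Real.sqrt n := Real.sqrt_pos.2 hn0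
  have hD : 1 ≤ (n : ℝ) * q ^ 2 := by
    refine le_trans ?_ hD4
    nlinarith
  have hnq : Real.sqrt n ≤ n * q := by
    rw [Real.sqrt_le_left (by positivity)]
    nlinarith
  have hnq1 : 1 ≤ n * q := by nlinarith
  -- budget
  have hbq : (b : ℝ) * n ^ 2 * q ^ 7 ≤ 16384 * c := by
    have h3 : (q * (n : ℝ) ^ 2 / 4) ^ 7 ≤ (t : ℝ) ^ 7 := pow_le_pow_left₀ (by positivity) hqt 7
    have h4 : (b : ℝ) * (t : ℝ) ^ 7 ≤ c * (n : ℝ) ^ 12 := by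
      have h5 := mul_le_mul_of_nonneg_right hb (by positivity : (0 : ℝ) ≤ (t : ℝ) ^ 7)
      have h6 : c * ((n : ℝ) ^ 12 / (t : ℝ) ^ 7) * (t : ℝ) ^ 7 = c * (n : ℝ) ^ 12 := by field_simp
      rwa [h6] at h5
    have h7 : (b : ℝ) * (q * (n : ℝ) ^ 2 / 4) ^ 7 ≤ c * (n : ℝ) ^ 12 :=
      (mul_le_mul_of_nonneg_left h3 (by positivity)).trans h4
    have h8 : (b : ℝ) * (q * (n : ℝ) ^ 2 / 4) ^ 7 = ((b : ℝ) * n ^ 2 * q ^ 7) * ((n : ℝ) ^ 12 / 16384) := by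
      ring
    rw [h8] at h7
    have h9 : c * (n : ℝ) ^ 12 = (16384 * c) * ((n : ℝ) ^ 12 / 16384) := by ring
    rw [h9] at h7
    exact le_of_mul_le_mul_right h7 (by positivity)
  have hb32 : 32 * (b : ℝ) * n * q ^ 5 ≤ 1 := by
    have h3 : 32 * (b : ℝ) * n * q ^ 5 * (n * q ^ 2) = 32 * ((b : ℝ) * n ^ 2 * q ^ 7) := by ring
    have h4 : 32 * (b : ℝ) * n * q ^ 5 ≤ 32 * (b : ℝ) * n * q ^ 5 * (n * q ^ 2) :=
      le_mul_of_one_le_right (by positivity) hD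
    rw [h3] at h4
    linarith
  -- parameters
  obtain ⟨hd1, hd2⟩ := regb_ceil (x := 9 * (n * q)) (by positivity)
  obtain ⟨hk1, hk2⟩ := regb_ceil (x := 9 * (n * q ^ 2)) (by positivity)
  set d : ℕ := ⌈9 * (n * q)⌉₊ with hd
  set k : ℕ := ⌈9 * (n * q ^ 2)⌉₊ with hk
  set s : ℕ := ⌊1 / (q ^ 2 * Real.sqrt n)⌋₊ with hs
  have hss : (0 : ℝ) < q ^ 2 * Real.sqrt n := by positivity
  have hs1 : (s : ℝ) * (q ^ 2 * Real.sqrt n) ≤ 1 := by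
    have := Nat.floor_le (a := 1 / (q ^ 2 * Real.sqrt n)) (by positivity)
    rwa [le_div_iff₀ hss] at this
  have hs2 : 1 ≤ ((s : ℝ) + 1) * (q ^ 2 * Real.sqrt n) := by
    have := (Nat.lt_floor_add_one (1 / (q ^ 2 * Real.sqrt n))).le
    rwa [div_le_iff₀ hss] at this
  have hsn : Real.sqrt n ^ 2 = n := Real.sq_sqrt hn0.le
  have hs1' : (s : ℝ) ^ 2 * q ^ 4 * n ≤ 1 := by
    have h3 : (s : ℝ) ^ 2 * q ^ 4 * n = ((s : ℝ) * (q ^ 2 * Real.sqrt n)) ^ 2 := by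
      nth_rw 1 [← hsn]; ring
    rw [h3]
    exact pow_le_one₀ (by positivity) hs1
  have hs2' : 1 ≤ ((s : ℝ) + 1) ^ 2 * q ^ 4 * n := by
    have h3 : ((s : ℝ) + 1) ^ 2 * q ^ 4 * n = (((s : ℝ) + 1) * (q ^ 2 * Real.sqrt n)) ^ 2 := by
      nth_rw 1 [← hsn]; ring
    rw [h3]
    exact one_le_pow₀ hs2
  have hmain := sparse_main (d := d) (κ := k + 2) (s := s) ht hq hq0 hB hbud
  have hT1 : Ex t [] (fun l : List (Pair n) => ind (∃ x, d + 1 ≤ degIn (gr l.toFinset) univ x)) ≤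
      1 / Real.sqrt n := by
    refine (deg_prob (k := d + 1) ht hq (by push_cast; linarith)).trans ?_
    refine regb_term1 n (d + 1) (by omega) ?_
    push_cast
    linarith
  have hT2 := hloc n t s hn2 ht q hq hD hq8 hs1'
  have hT3 := hcore n t s b hn2 ht q hq hD hq8 hs2' hb32
  have hT4 : Ex t [] (fun l : List (Pair n) => ind (∃ v : Fin 5 → Fin n, Function.Injective v ∧
        prs v ⊆ l.toFinset ∧ ∃ i j, i ≠ j ∧ k + 2 + 1 ≤ codeg (gr l.toFinset) (v i) (v j))) ≤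
      1 / (n * q ^ 2) :=
    (cod_prob (k := k) ht hq hk1).trans (regb_term4 k (n * q ^ 2) hD hk1)
  have hT5 := regb_last n b d (k + 2) q c hq0 hn0 (by linarith) (by push_cast; linarith) hbq
  have hT4' : 1 / ((n : ℝ) * q ^ 2) ≤ δ / 5 := by
    rw [div_le_iff₀ (by positivity)]
    have h3 : 2 / δ ≤ (1 + 1 / δ) ^ 2 := by
      have h4 : 2 / δ = 2 * (1 / δ) := by ring
      rw [h4]
      nlinarith [sq_nonneg (1 / δ)]
    have h5 : 5 / δ ≤ n * q ^ 2 := by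
      have h6 : 5 / δ ≤ 4 * (2 / δ) := by
        have : 4 * (2 / δ) = 8 / δ := by ring
        rw [this]
        exact div_le_div_of_nonneg_right (by norm_num) hδ.le
      linarith
    have h7 : δ / 5 * (5 / δ) = 1 := by field_simp
    calc (1 : ℝ) = δ / 5 * (5 / δ) := h7.symm
      _ ≤ δ / 5 * (n * q ^ 2) := mul_le_mul_of_nonneg_left h5 (by positivity)
  have hT5' : 2282618880 * c ≤ δ / 5 := by
    rw [le_div_iff₀ (by norm_num)] at hc2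
    linarith
  have hT123 : 1 / Real.sqrt n + C1 / Real.sqrt n + C2 / Real.sqrt n ≤ δ / 5 := by
    have h3 : 1 / Real.sqrt n + C1 / Real.sqrt n + C2 / Real.sqrt n = (1 + C1 + C2) / Real.sqrt n := by ring
    rw [h3, div_le_iff₀ hsq]
    have h4 : 5 * (1 + C1 + C2) / δ ≤ Real.sqrt n := by
      apply Real.le_sqrt_of_sq_le
      refine hN.trans ?_
      exact_mod_cast hnN
    rw [div_le_iff₀ hδ] at h4
    linarith
  push_cast at hmain hT5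
  linarith

end H2.K5
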