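import Mathlib

/-!
# MP_833c63_pr: the definitions used in the statement

The random graph process on `[n]` is given by a uniformly random ordering `σ` of the `M = n.choose 2`
pairs of `[n]`: the pair offered at time `i` (`1 ≤ i ≤ M`) is `σ (i - 1)`.
-/

set_option autoImplicit false

namespace H2.K5

open Finset

section Process

variable {E : Type*}

/-- A strategy sees the edges offered so far (newest first), each with its own decision
(`true` = purchased), and the newly offered edge; it returns its decision on the new edge. -/
def Strategy (E : Type*) := List (E × Bool) → E → Bool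

/-- The offered edges with the decisions of the strategy `S`. Both the argument (the offered
edges) and the value are lists with the newest entry first. -/
def play (S : Strategy E) : List E → List (E × Bool)
  | [] => []
  | e :: h => (e, S (play S h) e) :: play S h

/-- The set of purchased edges after the edges in the list `h` (newest first) were offered. -/
def bought [DecidableEq E] (S : Strategy E) (h : List E) : Finset E :=
  (((play S h).filter (fun p => p.2)).map (fun p => p.1)).toFinset

/-- The first `i` edges of the ordering `σ`, newest first. -/
def hist {M : ℕ} (σ : Fin M ≃ E) : ℕ → List E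
  | 0 => []
  | i + 1 => if h : i < M then σ ⟨i, h⟩ :: hist σ i else hist σ i

end Process

/-- The pairs of elements of `[n]`. -/
abbrev Pair (n : ℕ) := {e : Sym2 (Fin n) // ¬ e.IsDiag}

/-- The graph on `[n]` with edge set `B`. -/
def gr {n : ℕ} (B : Finset (Pair n)) : SimpleGraph (Fin n) :=
  SimpleGraph.fromEdgeSet {e | ∃ h : ¬ e.IsDiag, (⟨e, h⟩ : Pair n) ∈ B}

/-- The function `Phi(n,t) = max (n^12 t^(-7)) (n^(10/3) t^(-5/3))`. -/
noncomputable def Phi (n t : ℝ) : ℝ := max (n ^ 12 / t ^ 7) (n ^ (10 / 3 : ℝ) / t ^ (5 / 3 : ℝ))

/-- `S` is a `(t, b)`-strategy: at most `b` of the first `t` offered edges are purchased, whatever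
the ordering. -/
def IsTB {n : ℕ} (S : Strategy (Pair n)) (t b : ℕ) : Prop :=
  ∀ σ : Fin (Fintype.card (Pair n)) ≃ Pair n, #(bought S (hist σ t)) ≤ b

/-- The probability that the graph purchased by time `t` contains no `K_5`: the proportion of the
orderings of the pairs of `[n]` for which it does not. -/
noncomputable def probNoK5 (n t : ℕ) (S : Strategy (Pair n)) : ℝ := by
  classical exact
  (#{σ : Fin (Fintype.card (Pair n)) ≃ Pair n | (gr (bought S (hist σ t))).CliqueFree 5} : ℝ) /
    (Fintype.card (Fin (Fintype.card (Pair n)) ≃ Pair n) : ℝ)

end H2.K5
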