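import Pool.Agent.H2.K5.RegA
import Pool.Agent.H2.K5.RegB
import Pool.Agent.H2.K5.Perm
import Pool.Agent.H2.K5.Run

/-!
# UNIF: all ranges together; the probability space of orderings
-/

set_option autoImplicit false

namespace H2.K5

open Finset Filter Topology Asymptotics

theorem unif_Phi_nonneg (n t : ℕ) : 0 ≤ Phi n t := by
  unfold Phi
  exact le_max_of_le_left (by positivity)

theorem uniform {δ : ℝ} (hδ : 0 < δ) : ∃ c : ℝ, 0 < c ∧ ∃ n0 : ℕ, ∀ n, n0 ≤ n → ∀ t b : ℕ,
    1 ≤ t → t ≤ Fintype.card (Pair n) →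
    ((t : ℝ) ≤ c * (n : ℝ) ^ (3 / 2 : ℝ) ∨ (b : ℝ) ≤ c * Phi n t) → Bound n t b δ := by
  obtain ⟨lam, hlam, c3, hc3, n3, h3⟩ := reg_three hδ
  obtain ⟨c1, hc1, n1, h1⟩ := reg_one hlam hδ
  obtain ⟨c2, hc2, h2⟩ := reg_two hδ
  obtain ⟨c4, hc4, h4⟩ := reg_four hδ
  refine ⟨min (min c1 c2) (min c3 c4), by positivity, max (max n1 n3) 2, ?_⟩
  intro n hn t b ht htc h
  have hn1 : n1 ≤ n := le_trans (le_trans (le_max_left _ _) (le_max_left _ _)) hn
  have hn3 : n3 ≤ n := le_trans (le_trans (le_max_right _ _) (le_max_left _ _)) hn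
  have hn2 : 2 ≤ n := le_trans (le_max_right _ _) hn
  set c := min (min c1 c2) (min c3 c4) with hc
  have hcc1 : c ≤ c1 := (min_le_left _ _).trans (min_le_left _ _)
  have hcc2 : c ≤ c2 := (min_le_left _ _).trans (min_le_right _ _)
  have hcc3 : c ≤ c3 := (min_le_right _ _).trans (min_le_left _ _)
  have hcc4 : c ≤ c4 := (min_le_right _ _).trans (min_le_right _ _)
  have hPhi := unif_Phi_nonneg n t
  rcases h with h | h
  · refine h2 n t b hn2 htc (h.trans ?_)
    exact mul_le_mul_of_nonneg_right hcc2 (by positivity)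
  · by_cases ht1 : (t : ℝ) ≤ lam * (n : ℝ) ^ (3 / 2 : ℝ)
    · exact h1 n hn1 t b ht htc ht1 (h.trans (mul_le_mul_of_nonneg_right hcc1 hPhi))
    · push Not at ht1
      by_cases ht2 : (t : ℝ) ≤ (n : ℝ) ^ (13 / 8 : ℝ)
      · refine h3 n hn3 t b htc ht1.le ht2 ?_
        rw [← Phi_eq_left (by omega) ht ht2]
        exact h.trans (mul_le_mul_of_nonneg_right hcc3 hPhi)
      · push Not at ht2
        refine h4 n t b hn2 ht htc ?_
        rw [← Phi_eq_right (by omega) ht2.le]
        exact h.trans (mul_le_mul_of_nonneg_right hcc4 hPhi)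

/-- The probability that the graph purchased by time `t` contains a `K_5`: the proportion of the
orderings of the pairs of `[n]` for which it does. -/
noncomputable def probK5 (n t : ℕ) (S : Strategy (Pair n)) : ℝ := by
  classical exact
  (#{σ : Fin (Fintype.card (Pair n)) ≃ Pair n | ¬ (gr (bought S (hist σ t))).CliqueFree 5} : ℝ) /
    (Fintype.card (Fin (Fintype.card (Pair n)) ≃ Pair n) : ℝ)

theorem unif_nonempty (n : ℕ) :
    0 < (Fintype.card (Fin (Fintype.card (Pair n)) ≃ Pair n) : ℝ) := by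
  have : Nonempty (Fin (Fintype.card (Pair n)) ≃ Pair n) := ⟨(Fintype.equivFin _).symm⟩
  exact_mod_cast Fintype.card_pos

theorem probNoK5_eq (n t : ℕ) (S : Strategy (Pair n)) : probNoK5 n t S = 1 - probK5 n t S := by
  classical
  unfold probNoK5 probK5
  have h0 := unif_nonempty n
  have h1 := Finset.card_filter_add_card_filter_not (s := (univ : Finset (Fin (Fintype.card (Pair n)) ≃ Pair n)))
    (fun σ => (gr (bought S (hist σ t))).CliqueFree 5)
  rw [card_univ] at h1
  have h2 : ((#{σ : Fin (Fintype.card (Pair n)) ≃ Pair n |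
      (gr (bought S (hist σ t))).CliqueFree 5} : ℕ) : ℝ) +
      ((#{σ : Fin (Fintype.card (Pair n)) ≃ Pair n |
      ¬ (gr (bought S (hist σ t))).CliqueFree 5} : ℕ) : ℝ) =
      (Fintype.card (Fin (Fintype.card (Pair n)) ≃ Pair n) : ℝ) := by
    exact_mod_cast h1
  rw [eq_sub_iff_add_eq, ← add_div, div_eq_one_iff_eq h0.ne']
  exact h2

theorem probK5_nonneg (n t : ℕ) (S : Strategy (Pair n)) : 0 ≤ probK5 n t S := by
  unfold probK5
  positivity

theorem probK5_le {n t b : ℕ} (ht : t ≤ Fintype.card (Pair n)) {S : Strategy (Pair n)}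
    (hS : IsTB S t b) {δ : ℝ} (h : Bound n t b δ) : probK5 n t S ≤ δ := by
  classical
  have h1 := h (bought S) (isRun_bought S) (fun l hl hlt => by
    obtain ⟨σ, hσ⟩ := exists_hist l hl
    have := hS σ
    rw [← hlt, hσ] at this
    exact this)
  rw [← avg_hist ht] at h1
  refine le_trans (le_of_eq ?_) h1
  unfold probK5
  congr 1
  rw [← sum_boole]
  refine sum_congr rfl (fun σ _ => ?_)
  unfold ind
  split_ifs <;> rfl

/-- The uniform form: for sequences `t`, `b` as in the question and every `ε > 0`, for all large `n`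
EVERY `(t, b)`-strategy fails with probability at least `1 - ε`. -/
theorem uniform_seq (t b : ℕ → ℕ)
    (htb : ∀ n, 2 ≤ n → 1 ≤ b n ∧ b n ≤ t n ∧ t n ≤ n.choose 2)
    (h : (fun n : ℕ => (t n : ℝ)) =o[atTop] (fun n : ℕ => (n : ℝ) ^ (3 / 2 : ℝ)) ∨
      (fun n : ℕ => (b n : ℝ)) =o[atTop] (fun n : ℕ => Phi n (t n)))
    (ε : ℝ) (hε : 0 < ε) :
    ∀ᶠ n : ℕ in atTop, ∀ S : Strategy (Pair n), IsTB S (t n) (b n) → probK5 n (t n) S ≤ ε := by
  obtain ⟨c, hc, n0, hu⟩ := uniform hε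
  have h1 : ∀ᶠ n : ℕ in atTop, (t n : ℝ) ≤ c * (n : ℝ) ^ (3 / 2 : ℝ) ∨
      (b n : ℝ) ≤ c * Phi n (t n) := by
    rcases h with h | h
    · filter_upwards [h.bound hc] with n hn
      left
      rw [Real.norm_of_nonneg (by positivity), Real.norm_of_nonneg (by positivity)] at hn
      exact hn
    · filter_upwards [h.bound hc] with n hn
      right
      rw [Real.norm_of_nonneg (by positivity), Real.norm_of_nonneg (unif_Phi_nonneg _ _)] at hn
      exact hn
  filter_upwards [h1, eventually_ge_atTop n0, eventually_ge_atTop 2] with n hn hn0 hn2 S hS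
  obtain ⟨hb1, hb2, hb3⟩ := htb n hn2
  have ht : t n ≤ Fintype.card (Pair n) := by
    rw [card_pair]
    exact hb3
  exact probK5_le ht hS (hu n hn0 (t n) (b n) (hb1.trans hb2) ht hn)

theorem final_seq (t b : ℕ → ℕ)
    (htb : ∀ n, 2 ≤ n → 1 ≤ b n ∧ b n ≤ t n ∧ t n ≤ n.choose 2)
    (h : (fun n : ℕ => (t n : ℝ)) =o[atTop] (fun n : ℕ => (n : ℝ) ^ (3 / 2 : ℝ)) ∨
      (fun n : ℕ => (b n : ℝ)) =o[atTop] (fun n : ℕ => Phi n (t n)))
    (S : ∀ n, Strategy (Pair n)) (hS : ∀ n, 2 ≤ n → IsTB (S n) (t n) (b n)) :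
    Tendsto (fun n => probNoK5 n (t n) (S n)) atTop (𝓝 1) := by
  have h0 : Tendsto (fun n => probK5 n (t n) (S n)) atTop (𝓝 0) := by
    rw [Metric.tendsto_atTop]
    intro ε hε
    have h1 := uniform_seq t b htb h (ε / 2) (by positivity)
    obtain ⟨N, hN⟩ := eventually_atTop.1 (h1.and (eventually_ge_atTop 2))
    refine ⟨N, fun n hn => ?_⟩
    have h2 := (hN n hn).1 (S n) (hS n (hN n hn).2)
    rw [Real.dist_eq, sub_zero, abs_of_nonneg (probK5_nonneg _ _ _)]
    linarith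
  have h1 : (fun n => probNoK5 n (t n) (S n)) = fun n => 1 - probK5 n (t n) (S n) := by
    funext n
    exact probNoK5_eq _ _ _
  rw [h1]
  have h2 := h0.const_sub 1
  rwa [sub_zero] at h2

end H2.K5
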